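import Pool.Agent.H12.TP.Defs

/-!
Elementary facts on the prime sum and its truncated mean square.
-/

set_option autoImplicit false

namespace Pool.Agent.H12.TP

open MeasureTheory Filter Topology Set Real
open Pool.Agent.PairCorr Pool.Agent.PairCorr.P6
open scoped ENNReal ArithmeticFunction.vonMangoldt

variable {W : ℝ → ℝ} {a b : ℝ}

/-- the prime sum is a finite sum -/
lemma PS_eq_sum (h : PT W a b) {T : ℝ} (hT : 0 < Real.log T) (t : ℝ) :
    PS W T t = (∑ n ∈ Finset.range (⌊Real.exp (b * Real.log T)⌋₊ + 1),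
      (Λ n : ℂ) * (n : ℂ) ^ (-(1 / 2 + t * Complex.I)) * (W (Real.log n / Real.log T) : ℂ)) / Real.log T := by
  unfold PS
  congr 1
  apply tsum_eq_sum
  intro n hn
  rw [h.tf.eventually_zero hT n hn]; simp

lemma PS_continuous (h : PT W a b) {T : ℝ} (hT : 0 < Real.log T) : Continuous (PS W T) := by
  have e : PS W T = fun t : ℝ => (∑ n ∈ Finset.range (⌊Real.exp (b * Real.log T)⌋₊ + 1),
      (Λ n : ℂ) * (n : ℂ) ^ (-(1 / 2 + t * Complex.I)) * (W (Real.log n / Real.log T) : ℂ)) / Real.log T := by
    funext t; exact PS_eq_sum h hT t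
  rw [e]
  apply Continuous.div_const
  apply continuous_finset_sum
  intro n _
  apply Continuous.mul _ continuous_const
  rcases Nat.eq_zero_or_pos n with rfl | hn
  · simp only [ArithmeticFunction.map_zero, Complex.ofReal_zero, zero_mul]
    exact continuous_const
  · apply Continuous.mul continuous_const
    apply Continuous.const_cpow (by fun_prop)
    left
    exact_mod_cast hn.ne'

/-- the sum of `primeTerm` over the positive side -/
lemma tsum_primeTerm (h : PT W a b) {L : ℝ} (hL : 0 < L) (t : ℝ) :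
    ∑' n : ℕ, primeTerm (fun v => W (v / L) / L) t n =
      (∑' n : ℕ, (Λ n : ℂ) * (n : ℂ) ^ (-(1 / 2 + t * Complex.I)) * (W (Real.log n / L) : ℂ)) / L := by
  rw [← tsum_div_const]
  congr 1
  ext n
  unfold primeTerm
  rcases Nat.eq_zero_or_pos n with rfl | hn
  · simp
  · have hn0 : (n : ℂ) ≠ 0 := by exact_mod_cast hn.ne'
    rw [Complex.cpow_def_of_ne_zero hn0, ← Complex.natCast_log]
    push_cast
    rw [← mul_neg]
    ring

/-- the reflected prime terms vanish -/
lemma tsum_primeTerm_neg (h : PT W a b) {L : ℝ} (hL : 0 < L) (t : ℝ) :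
    ∑' n : ℕ, primeTerm (fun v => W (-v / L) / L) t n = 0 := by
  have e : ∀ n : ℕ, primeTerm (fun v => W (-v / L) / L) t n = 0 := by
    intro n
    unfold primeTerm
    simp only
    have h1 : 0 ≤ Real.log n := Real.log_natCast_nonneg n
    rw [h.zero_of_nonpos (v := -Real.log n / L) (by
      rw [neg_div]
      have : 0 ≤ Real.log n / L := div_nonneg h1 hL.le
      linarith)]
    simp
  simp_rw [e]
  exact tsum_zero

lemma TM_ii (h : PT W a b) {T : ℝ} (hT : 0 < Real.log T) (M x y : ℝ) :
    IntervalIntegrable (fun t => min (‖PS W T t‖ ^ 2) M) volume x y := by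
  have := PS_continuous h hT
  exact (by fun_prop : Continuous fun t => min (‖PS W T t‖ ^ 2) M).intervalIntegrable _ _

/-- monotone in the truncation -/
lemma TM_mono (h : PT W a b) {T : ℝ} (hT : 1 < T) {M M' : ℝ} (hM : M ≤ M') : TM W M T ≤ TM W M' T := by
  have hL := Real.log_pos hT
  have hT0 : 0 < T := by linarith
  unfold TM
  apply mul_le_mul_of_nonneg_left _ (by positivity)
  apply intervalIntegral.integral_mono_on hT0.le (TM_ii h hL M _ _) (TM_ii h hL M' _ _)
  intro t _
  exact min_le_min le_rfl hM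

end Pool.Agent.H12.TP
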