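import Pool.Agent.H12.TP.Defs

/-!
# Moments of the smooth weighted local count

PROOF.  From `Pool.Agent.PC10.statementB : StatementB` with `p = 4` (`Eloc`, `Eg muZ c T t`,
`Eg_muZ`, `lintegral_Eg_pow` in PairCorr/PB_Near, PB_Moments): for some `c₄ > 0`, `C`, `T₀`:
`∫⁻_{[-3T,3T]} Eg muZ c₄ T t ^ 4 ≤ ofReal (C T)`.  Take `c = min c₄ 1` (`Eg` is monotone in `c`).
Near part `|im z - t| ≤ T`: with `k = round (L (im z - t) / 2)` one has
`|im z - (t + 2k/L)| ≤ 1/L` (see `nW_le_Eg` in A_Crit) and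
`(1+|L(im z - t)|)^{-4} ≤ 16 (1+k^2)^{-1}`, so
near part `≤ 16 ∑_{|k| ≤ K} (1+k^2)^{-1} Eg muZ c T (t + 2k/L)`, `K = ⌈T L/2⌉ + 1`, `|2K/L| ≤ 2T`.
Jensen (two Cauchy-Schwarz inequalities):
`(∑ a_k E_k)^4 ≤ 8 (∑ a_k)^3 ∑ a_k E_k^4`, and `∫⁻_0^T Eg(t+2k/L)^4 dt ≤ ∫⁻_{[-3T,3T]} Eg^4`.
Far part `|im z - t| > T`: `wgt c T z ≤ e^{cL/2} ≤ T` a.e. (`muZ_ae_strip`), and
`(1+|L x|)^{-4} ≤ |x|^{-4} ≤ 2 T^{-2} (1+x^2)^{-1}`; `∫ (1+(im z - t)^2)^{-1} dmuZ ≤ C' log(|t|+2)`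
(`muZ_logDens`, `LogDens.lintegral_le`), so the far part is `≤ C T^{-1} log(T+2) ≤ C`.
Powers `p < 4`: `x^p ≤ 1 + x^4`.
-/

set_option autoImplicit false

namespace Pool.Agent.H12.TP

open MeasureTheory Filter Topology Set Real
open Pool.Agent.PairCorr Pool.Agent.PairCorr.P6
open scoped ENNReal ArithmeticFunction.vonMangoldt

/-- Cauchy-Schwarz with a constant -/
lemma qm_cs {ι : Type*} (F : Finset ι) (a x : ι → ℝ≥0∞) :
    (∑ k ∈ F, a k * x k) ^ 2 ≤ 2 * (∑ k ∈ F, a k) * ∑ k ∈ F, a k * x k ^ 2 := by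
  have h1 : (∑ k ∈ F, a k * x k) ^ 2 = ∑ i ∈ F, ∑ j ∈ F, (a i * x i) * (a j * x j) := by
    rw [sq, Finset.sum_mul_sum]
  have h2 : ∀ i ∈ F, ∀ j ∈ F, (a i * x i) * (a j * x j) ≤
      (a i * x i ^ 2) * a j + a i * (a j * x j ^ 2) := by
    intro i _ j _
    calc (a i * x i) * (a j * x j) = (a i * a j) * (x i * x j) := by ring
      _ ≤ (a i * a j) * (x i ^ 2 + x j ^ 2) := by
          gcongr
          exact ennreal_mul_le_sq_add_sq _ _
      _ = _ := by ring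
  rw [h1]
  calc ∑ i ∈ F, ∑ j ∈ F, (a i * x i) * (a j * x j)
      ≤ ∑ i ∈ F, ∑ j ∈ F, ((a i * x i ^ 2) * a j + a i * (a j * x j ^ 2)) :=
        Finset.sum_le_sum fun i hi => Finset.sum_le_sum fun j hj => h2 i hi j hj
    _ = ∑ i ∈ F, ∑ j ∈ F, (a i * x i ^ 2) * a j + ∑ i ∈ F, ∑ j ∈ F, a i * (a j * x j ^ 2) := by
        rw [← Finset.sum_add_distrib]
        exact Finset.sum_congr rfl fun i _ => Finset.sum_add_distrib
    _ = (∑ k ∈ F, a k * x k ^ 2) * (∑ k ∈ F, a k) + (∑ k ∈ F, a k) * ∑ k ∈ F, a k * x k ^ 2 := by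
        rw [Finset.sum_mul_sum, Finset.sum_mul_sum]
    _ = _ := by ring

lemma qm_jensen {ι : Type*} (F : Finset ι) (a x : ι → ℝ≥0∞) :
    (∑ k ∈ F, a k * x k) ^ 4 ≤ 8 * (∑ k ∈ F, a k) ^ 3 * ∑ k ∈ F, a k * x k ^ 4 := by
  have h1 := qm_cs F a x
  have h2 := qm_cs F a (fun k => x k ^ 2)
  calc (∑ k ∈ F, a k * x k) ^ 4 = ((∑ k ∈ F, a k * x k) ^ 2) ^ 2 := by ring
    _ ≤ (2 * (∑ k ∈ F, a k) * ∑ k ∈ F, a k * x k ^ 2) ^ 2 := by gcongr
    _ = 4 * (∑ k ∈ F, a k) ^ 2 * (∑ k ∈ F, a k * x k ^ 2) ^ 2 := by ring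
    _ ≤ 4 * (∑ k ∈ F, a k) ^ 2 * (2 * (∑ k ∈ F, a k) * ∑ k ∈ F, a k * (x k ^ 2) ^ 2) := by gcongr
    _ = _ := by
        have : ∀ k, (x k ^ 2) ^ 2 = x k ^ 4 := fun k => by ring
        simp_rw [this]
        ring

lemma qm_add_pow (x y : ℝ≥0∞) : (x + y) ^ 4 ≤ 16 * (x ^ 4 + y ^ 4) := by
  rcases le_total x y with h | h
  · calc (x + y) ^ 4 ≤ (y + y) ^ 4 := by gcongr
      _ = 16 * y ^ 4 := by ring
      _ ≤ _ := by gcongr; exact le_add_self
  · calc (x + y) ^ 4 ≤ (x + x) ^ 4 := by gcongr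
      _ = 16 * x ^ 4 := by ring
      _ ≤ _ := by gcongr; exact le_self_add

lemma qm_pow_le (x : ℝ≥0∞) {p : ℕ} (hp : p ≤ 4) : x ^ p ≤ 1 + x ^ 4 := by
  rcases le_total x 1 with h | h
  · exact (pow_le_one₀ (zero_le) h).trans le_self_add
  · exact (pow_le_pow_right₀ h hp).trans le_add_self

/-- monotone in `c` -/
lemma Qs_mono {c c' T : ℝ} (h : c ≤ c') (hT : 1 ≤ T) (t : ℝ) : Qs c T t ≤ Qs c' T t := by
  have hL : 0 ≤ Real.log T := Real.log_nonneg hT
  unfold Qs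
  apply lintegral_mono
  intro z
  apply ENNReal.ofReal_le_ofReal
  apply mul_le_mul_of_nonneg_right _ (by positivity)
  unfold wgt
  apply Real.exp_le_exp.mpr
  gcongr

lemma Qs_measurable (c T : ℝ) : Measurable (Qs c T) := by
  unfold Qs
  apply Measurable.lintegral_prod_left' (f := fun p : ℂ × ℝ =>
    ENNReal.ofReal (wgt c T p.1 * ((1 + |Real.log T * (p.1.im - p.2)|) ^ 4)⁻¹))
  apply Measurable.ennreal_ofReal
  apply ((continuous_wgt c T).measurable.comp measurable_fst).mul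
  apply Measurable.inv
  have h1 : Measurable fun p : ℂ × ℝ => |Real.log T * (p.1.im - p.2)| := by
    have : Continuous fun p : ℂ × ℝ => Real.log T * (p.1.im - p.2) := by
      have := Complex.continuous_im
      fun_prop
    exact this.measurable.abs
  exact (measurable_const.add h1).pow_const 4

/-- the coefficients -/
noncomputable def qa (k : ℤ) : ℝ≥0∞ := ENNReal.ofReal (16 * (1 + (k : ℝ) ^ 2)⁻¹)

lemma qa_sum : ∃ A : ℝ, 0 ≤ A ∧ ∀ F : Finset ℤ, ∑ k ∈ F, qa k ≤ ENNReal.ofReal A := by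
  have hs : Summable fun k : ℤ => 16 * (1 + (k : ℝ) ^ 2)⁻¹ := by
    refine Summable.mul_left _ ?_
    refine Summable.of_nonneg_of_le (fun k => by positivity) (fun k => ?_) summable_wt_log
    have h1 : 0 ≤ Real.log (|(k:ℝ)| + 2) :=
      Real.log_nonneg (by have := abs_nonneg (k:ℝ); linarith)
    have h2 : 0 ≤ (1 + (k:ℝ) ^ 2)⁻¹ := by positivity
    nlinarith [mul_nonneg h2 h1]
  refine ⟨∑' k : ℤ, 16 * (1 + (k : ℝ) ^ 2)⁻¹, tsum_nonneg fun k => by positivity, fun F => ?_⟩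
  unfold qa
  rw [← ENNReal.ofReal_sum_of_nonneg (fun k _ => by positivity)]
  exact ENNReal.ofReal_le_ofReal (hs.sum_le_tsum F fun k _ => by positivity)

/-- the near part -/
lemma qm_near {c T t : ℝ} (hL : 0 < Real.log T) {K : ℕ} (hK : T * Real.log T / 2 + 1 / 2 ≤ K) {z : ℂ}
    (h : |z.im - t| ≤ T) :
    ENNReal.ofReal (wgt c T z * ((1 + |Real.log T * (z.im - t)|) ^ 4)⁻¹) ≤
      ∑ k ∈ Finset.Icc (-(K : ℤ)) K, qa k *
        (cellInd (Real.log T) z (t + 2 * k / Real.log T) * ENNReal.ofReal (wgt c T z)) := by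
  set L := Real.log T with hLdef
  set x : ℝ := L * (z.im - t) with hx
  have hx1 : |x| ≤ T * L := by
    rw [hx, abs_mul, abs_of_pos hL, mul_comm]
    gcongr
  have h3 : |x / 2 - round (x / 2)| ≤ 1 / 2 := abs_sub_round _
  have h5 : |(round (x / 2) : ℝ)| ≤ |x| / 2 + 1 / 2 := by
    have e : (round (x / 2) : ℝ) = x / 2 - (x / 2 - round (x / 2)) := by ring
    rw [e]
    refine (abs_sub _ _).trans ?_
    rw [abs_div, abs_of_pos (by norm_num : (0:ℝ) < 2)]
    linarith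
  have h4 : |(round (x / 2) : ℝ)| ≤ K := by linarith
  set k : ℤ := round (x / 2) with hk
  have hkF : k ∈ Finset.Icc (-(K : ℤ)) K := by
    rw [Finset.mem_Icc]
    rw [abs_le] at h4
    constructor
    · have := h4.1
      exact_mod_cast this
    · have := h4.2
      exact_mod_cast this
  refine le_trans ?_ (Finset.single_le_sum (f := fun k : ℤ => qa k *
        (cellInd L z (t + 2 * k / L) * ENNReal.ofReal (wgt c T z))) (fun _ _ => zero_le) hkF)
  have hcell : cellInd L z (t + 2 * k / L) = 1 := by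
    unfold cellInd
    rw [if_pos]
    have e : z.im - (t + 2 * (k : ℝ) / L) = 2 * (x / 2 - k) / L := by
      rw [hx]
      field_simp
      ring
    rw [e, abs_div, abs_of_pos hL, abs_mul, abs_of_pos (by norm_num : (0:ℝ) < 2)]
    gcongr
    linarith
  rw [hcell, one_mul, mul_comm (qa k)]
  unfold qa
  rw [← ENNReal.ofReal_mul (by unfold wgt; positivity)]
  apply ENNReal.ofReal_le_ofReal
  apply mul_le_mul_of_nonneg_left _ (by unfold wgt; positivity)
  have hx0 : 0 ≤ |x| := abs_nonneg x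
  have hk0 : 0 ≤ |(k : ℝ)| := abs_nonneg _
  have h6 : 1 + (k : ℝ) ^ 2 ≤ 16 * (1 + |x|) ^ 4 := by
    have h7 : (k : ℝ) ^ 2 = |(k : ℝ)| ^ 2 := (sq_abs _).symm
    have h8 : |(k : ℝ)| ≤ 1 + |x| := by linarith
    have h9 : |(k : ℝ)| ^ 2 ≤ (1 + |x|) ^ 2 := by gcongr
    have h10 : 1 ≤ (1 + |x|) ^ 2 := by nlinarith
    have h11 : (1 + |x|) ^ 4 = (1 + |x|) ^ 2 * (1 + |x|) ^ 2 := by ring
    rw [h7, h11]
    nlinarith
  calc ((1 + |x|) ^ 4)⁻¹ = 16 * (16 * (1 + |x|) ^ 4)⁻¹ := by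
        rw [mul_inv]; ring
    _ ≤ 16 * (1 + (k : ℝ) ^ 2)⁻¹ := by
        gcongr

/-- the far part -/
lemma qm_far {c T t : ℝ} (hc : 0 ≤ c) (hc1 : c ≤ 1) (hT : 1 ≤ T) (hL : 1 ≤ Real.log T) {z : ℂ}
    (hz : |z.re - 1 / 2| ≤ 1 / 2) (h : T < |z.im - t|) :
    ENNReal.ofReal (wgt c T z * ((1 + |Real.log T * (z.im - t)|) ^ 4)⁻¹) ≤
      ENNReal.ofReal (2 / T) * ENNReal.ofReal ((1 + (z.im - t) ^ 2)⁻¹) := by
  have hT0 : 0 < T := by linarith
  rw [← ENNReal.ofReal_mul (by positivity)]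
  apply ENNReal.ofReal_le_ofReal
  have hw : wgt c T z ≤ T := by
    unfold wgt
    calc Real.exp (c * |z.re - 1/2| * Real.log T) ≤ Real.exp (Real.log T) := by
          apply Real.exp_le_exp.mpr
          have h0 : 0 ≤ |z.re - 1/2| := abs_nonneg _
          have h1 : c * |z.re - 1/2| ≤ 1 := by nlinarith
          nlinarith
      _ = T := Real.exp_log hT0
  set y : ℝ := |z.im - t| with hy
  have hy2 : (z.im - t) ^ 2 = y ^ 2 := (sq_abs _).symm
  have hyT : T ≤ y := h.le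
  have hy1 : 1 ≤ y := hT.trans hyT
  have hxy : y ≤ |Real.log T * (z.im - t)| := by
    rw [abs_mul, abs_of_pos (by linarith : 0 < Real.log T), ← hy]
    nlinarith
  have h1 : T ^ 2 * (1 + y ^ 2) ≤ 2 * (1 + |Real.log T * (z.im - t)|) ^ 4 := by
    have h2 : y ^ 4 ≤ (1 + |Real.log T * (z.im - t)|) ^ 4 := by
      gcongr
      linarith
    have h3 : T ^ 2 ≤ y ^ 2 := by gcongr
    have h4 : 1 ≤ y ^ 2 := by nlinarith
    have h5 : y ^ 4 = y ^ 2 * y ^ 2 := by ring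
    nlinarith
  have hpos : 0 < T ^ 2 * (1 + y ^ 2) := by positivity
  calc wgt c T z * ((1 + |Real.log T * (z.im - t)|) ^ 4)⁻¹
      ≤ T * (2 * (T ^ 2 * (1 + y ^ 2))⁻¹) := by
        apply mul_le_mul hw _ (by positivity) hT0.le
        calc ((1 + |Real.log T * (z.im - t)|) ^ 4)⁻¹
            = 2 * (2 * (1 + |Real.log T * (z.im - t)|) ^ 4)⁻¹ := by rw [mul_inv]; ring
          _ ≤ 2 * (T ^ 2 * (1 + y ^ 2))⁻¹ := by gcongr
    _ = 2 / T * (1 + (z.im - t) ^ 2)⁻¹ := by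
        rw [hy2]
        field_simp

/-- the pointwise bound -/
lemma qm_pointwise {c T t : ℝ} (hc : 0 ≤ c) (hc1 : c ≤ 1) (hT : 1 ≤ T) (hL : 1 ≤ Real.log T)
    {K : ℕ} (hK : T * Real.log T / 2 + 1 / 2 ≤ K) :
    Qs c T t ≤ (∑ k ∈ Finset.Icc (-(K : ℤ)) K, qa k * Eg muZ c T (t + 2 * k / Real.log T)) +
      ENNReal.ofReal (2 / T) * ∫⁻ z, ENNReal.ofReal ((1 + (z.im - t) ^ 2)⁻¹) ∂muZ := by
  have hL0 : 0 < Real.log T := by linarith
  have hm : ∀ k : ℤ, Measurable fun z : ℂ =>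
      cellInd (Real.log T) z (t + 2 * k / Real.log T) * ENNReal.ofReal (wgt c T z) := by
    intro k
    exact ((measurable_cellInd _).comp (measurable_id.prodMk measurable_const)).mul
      (continuous_wgt c T).measurable.ennreal_ofReal
  have e1 : ∑ k ∈ Finset.Icc (-(K : ℤ)) K, qa k * Eg muZ c T (t + 2 * k / Real.log T) =
      ∫⁻ z, ∑ k ∈ Finset.Icc (-(K : ℤ)) K, qa k *
        (cellInd (Real.log T) z (t + 2 * k / Real.log T) * ENNReal.ofReal (wgt c T z)) ∂muZ := by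
    rw [lintegral_finsetSum _ (fun k _ => (hm k).const_mul _)]
    apply Finset.sum_congr rfl
    intro k _
    rw [lintegral_const_mul _ (hm k)]
    rfl
  have e2 : ENNReal.ofReal (2 / T) * ∫⁻ z, ENNReal.ofReal ((1 + (z.im - t) ^ 2)⁻¹) ∂muZ =
      ∫⁻ z, ENNReal.ofReal (2 / T) * ENNReal.ofReal ((1 + (z.im - t) ^ 2)⁻¹) ∂muZ := by
    rw [lintegral_const_mul' _ _ ENNReal.ofReal_ne_top]
  rw [e1, e2, ← lintegral_add_left (Finset.measurable_fun_sum _ fun k _ => (hm k).const_mul _)]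
  unfold Qs
  apply lintegral_mono_ae
  filter_upwards [muZ_ae_strip] with z hz
  by_cases h : |z.im - t| ≤ T
  · exact (qm_near hL0 hK h).trans le_self_add
  · exact (qm_far hc hc1 hT hL hz (not_le.1 h)).trans le_add_self

theorem Q_moments : ∃ c : ℝ, 0 < c ∧ c ≤ 1 ∧ ∃ C : ℝ, 0 < C ∧ ∃ T₀ : ℝ, Real.exp 1 ≤ T₀ ∧ ∀ T : ℝ, T₀ ≤ T →
    ∀ p : ℕ, p ≤ 4 → ∫⁻ t in Ioc (0:ℝ) T, Qs c T t ^ p ≤ ENNReal.ofReal (C * T) := by
  obtain ⟨c₄, hc₄, C₄, hC₄, T₁, hB⟩ := Pool.Agent.PC10.statementB 4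
  obtain ⟨A, hA, hAF⟩ := qa_sum
  obtain ⟨D, hD, hLD⟩ := muZ_logDens
  have hfar := hLD.lintegral_le hD.le
  set C' : ℝ := 3 * D * ∑' n : ℤ, (1 + (n:ℝ)^2)⁻¹ * (1 + 2 * Real.log (|(n:ℝ)| + 2)) with hC'
  have hC'0 : 0 ≤ C' := by
    have : 0 ≤ ∑' n : ℤ, (1 + (n:ℝ)^2)⁻¹ * (1 + 2 * Real.log (|(n:ℝ)| + 2)) := by
      apply tsum_nonneg
      intro n
      have : 0 ≤ Real.log (|(n:ℝ)| + 2) := Real.log_nonneg (by have := abs_nonneg (n:ℝ); linarith)
      positivity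
    positivity
  set c : ℝ := min c₄ 1 with hc
  have hc0 : 0 < c := lt_min hc₄ one_pos
  refine ⟨c, hc0, min_le_right _ _, 1 + 16 * (8 * A ^ 3 * A * C₄ + (4 * C') ^ 4), by positivity,
    max T₁ (max (Real.exp 1) 8), (le_max_left _ _).trans (le_max_right _ _), fun T hT p hp => ?_⟩
  have hT1' : T₁ ≤ T := (le_max_left _ _).trans hT
  have hTe : Real.exp 1 ≤ T := ((le_max_left _ _).trans (le_max_right _ _)).trans hT
  have hT8 : 8 ≤ T := ((le_max_right _ _).trans (le_max_right _ _)).trans hT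
  have hT0 : 0 < T := by linarith
  have hT1 : 1 ≤ T := by linarith
  have hL1 : 1 ≤ Real.log T := by rw [Real.le_log_iff_exp_le hT0]; exact hTe
  have hL0 : 0 < Real.log T := by linarith
  obtain ⟨h1, h2⟩ := hB T hT1'
  have h3 := lintegral_Eg_pow h1 hT0.le h2
  set L := Real.log T with hLdef
  set K : ℕ := ⌈T * L / 2 + 1 / 2⌉₊ with hKdef
  have hK : T * L / 2 + 1 / 2 ≤ K := Nat.le_ceil _
  have hK2 : (K : ℝ) ≤ T * L / 2 + 3 / 2 := by
    have := Nat.ceil_lt_add_one (show 0 ≤ T * L / 2 + 1 / 2 by positivity)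
    rw [hKdef]
    linarith
  set F : Finset ℤ := Finset.Icc (-(K : ℤ)) K with hF
  have hEmono : ∀ t, Eg muZ c T t ≤ Eg muZ c₄ T t := by
    intro t
    unfold Eg
    apply lintegral_mono
    intro z
    simp only
    gcongr
    unfold wgt
    apply Real.exp_le_exp.mpr
    gcongr
    exact min_le_left _ _
  have hshift : ∀ k ∈ F, ∫⁻ t in Ioc (0:ℝ) T, Eg muZ c T (t + 2 * k / L) ^ 4 ≤
      ENNReal.ofReal (C₄ * T) := by
    intro k hk
    refine le_trans ?_ h3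
    rw [← lintegral_indicator measurableSet_Ioc, ← lintegral_indicator measurableSet_Icc,
      ← lintegral_add_right_eq_self
        (fun t => (Icc (-(3 * T)) (3 * T)).indicator (fun t => Eg muZ c₄ T t ^ 4) t) (2 * k / L)]
    apply lintegral_mono
    intro t
    show (Ioc (0:ℝ) T).indicator (fun t => Eg muZ c T (t + 2 * k / L) ^ 4) t ≤
      (Icc (-(3 * T)) (3 * T)).indicator (fun t => Eg muZ c₄ T t ^ 4) (t + 2 * k / L)
    by_cases ht : t ∈ Ioc (0:ℝ) T
    · have hk2 : |(k : ℝ)| ≤ K := by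
        rw [hF, Finset.mem_Icc] at hk
        rw [abs_le]
        constructor
        · exact_mod_cast hk.1
        · exact_mod_cast hk.2
      have h5 : |2 * k / L| ≤ 2 * T := by
        rw [abs_div, abs_of_pos hL0, abs_mul, abs_of_pos (by norm_num : (0:ℝ) < 2), div_le_iff₀ hL0]
        nlinarith
      rw [abs_le] at h5
      rw [indicator_of_mem ht, indicator_of_mem]
      · exact pow_le_pow_left₀ (zero_le) (hEmono _) 4
      · constructor <;> linarith [ht.1, ht.2, h5.1, h5.2]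
    · rw [indicator_of_notMem ht]
      exact zero_le
  have hlog : Real.log (T + 2) ≤ 2 * T := by
    have := Real.log_le_sub_one_of_pos (show 0 < T + 2 by linarith)
    linarith
  have hpt : ∀ t ∈ Ioc (0:ℝ) T, Qs c T t ≤ (∑ k ∈ F, qa k * Eg muZ c T (t + 2 * k / L)) +
      ENNReal.ofReal (4 * C') := by
    intro t ht
    refine (qm_pointwise hc0.le (min_le_right _ _) hT1 hL1 hK).trans ?_
    apply add_le_add le_rfl
    calc ENNReal.ofReal (2 / T) * ∫⁻ z, ENNReal.ofReal ((1 + (z.im - t) ^ 2)⁻¹) ∂muZ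
        ≤ ENNReal.ofReal (2 / T) * ENNReal.ofReal (C' * Real.log (|t| + 2)) := by
          gcongr
          exact hfar t
      _ = ENNReal.ofReal (2 / T * (C' * Real.log (|t| + 2))) := by
          rw [← ENNReal.ofReal_mul (by positivity)]
      _ ≤ ENNReal.ofReal (4 * C') := by
          apply ENNReal.ofReal_le_ofReal
          have h6 : Real.log (|t| + 2) ≤ 2 * T := by
            refine le_trans (Real.log_le_log (by positivity) ?_) hlog
            rw [abs_of_pos ht.1]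
            linarith [ht.2]
          calc 2 / T * (C' * Real.log (|t| + 2)) ≤ 2 / T * (C' * (2 * T)) := by gcongr
            _ = 4 * C' := by field_simp; ring
  have hEm : ∀ k : ℤ, Measurable fun t => Eg muZ c T (t + 2 * k / L) ^ 4 := by
    intro k
    exact ((measurable_Eg muZ c T).comp (by fun_prop)).pow_const 4
  calc ∫⁻ t in Ioc (0:ℝ) T, Qs c T t ^ p
      ≤ ∫⁻ t in Ioc (0:ℝ) T, (1 + 16 * (8 * ENNReal.ofReal A ^ 3 *
          (∑ k ∈ F, qa k * Eg muZ c T (t + 2 * k / L) ^ 4) + ENNReal.ofReal (4 * C') ^ 4)) := by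
        apply setLIntegral_mono' measurableSet_Ioc
        intro t ht
        refine (qm_pow_le _ hp).trans ?_
        gcongr
        calc Qs c T t ^ 4 ≤ ((∑ k ∈ F, qa k * Eg muZ c T (t + 2 * k / L)) +
              ENNReal.ofReal (4 * C')) ^ 4 := by
              gcongr
              exact hpt t ht
          _ ≤ 16 * ((∑ k ∈ F, qa k * Eg muZ c T (t + 2 * k / L)) ^ 4 +
              ENNReal.ofReal (4 * C') ^ 4) := qm_add_pow _ _
          _ ≤ 16 * (8 * (∑ k ∈ F, qa k) ^ 3 * (∑ k ∈ F, qa k * Eg muZ c T (t + 2 * k / L) ^ 4) +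
              ENNReal.ofReal (4 * C') ^ 4) := by
              gcongr
              exact qm_jensen F qa _
          _ ≤ _ := by
              gcongr
              exact hAF F
    _ = ∫⁻ t in Ioc (0:ℝ) T, ((1 + 16 * ENNReal.ofReal (4 * C') ^ 4) +
          16 * (8 * ENNReal.ofReal A ^ 3) * ∑ k ∈ F, qa k * Eg muZ c T (t + 2 * k / L) ^ 4) := by
        apply lintegral_congr
        intro t
        ring
    _ = (1 + 16 * ENNReal.ofReal (4 * C') ^ 4) * ENNReal.ofReal T +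
          16 * (8 * ENNReal.ofReal A ^ 3) *
            ∑ k ∈ F, qa k * ∫⁻ t in Ioc (0:ℝ) T, Eg muZ c T (t + 2 * k / L) ^ 4 := by
        rw [lintegral_add_left measurable_const, setLIntegral_const, Real.volume_Ioc, sub_zero,
          lintegral_const_mul' _ _ (by
            apply ENNReal.mul_ne_top (by simp)
            apply ENNReal.mul_ne_top (by simp)
            exact ENNReal.pow_ne_top ENNReal.ofReal_ne_top),
          lintegral_finsetSum _ (fun k _ => (hEm k).const_mul _)]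
        congr 2
        apply Finset.sum_congr rfl
        intro k _
        rw [lintegral_const_mul _ (hEm k)]
    _ ≤ (1 + 16 * ENNReal.ofReal (4 * C') ^ 4) * ENNReal.ofReal T +
          16 * (8 * ENNReal.ofReal A ^ 3) * ∑ k ∈ F, qa k * ENNReal.ofReal (C₄ * T) := by
        gcongr with k hk
        exact hshift k hk
    _ ≤ (1 + 16 * ENNReal.ofReal (4 * C') ^ 4) * ENNReal.ofReal T +
          16 * (8 * ENNReal.ofReal A ^ 3) * (ENNReal.ofReal A * ENNReal.ofReal (C₄ * T)) := by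
        rw [← Finset.sum_mul]
        gcongr
        exact hAF F
    _ = ENNReal.ofReal ((1 + 16 * (8 * A ^ 3 * A * C₄ + (4 * C') ^ 4)) * T) := by
        have e16 : (16 : ℝ≥0∞) = ENNReal.ofReal 16 := by simp
        have e8 : (8 : ℝ≥0∞) = ENNReal.ofReal 8 := by simp
        have e1 : (1 : ℝ≥0∞) = ENNReal.ofReal 1 := by simp
        rw [e16, e8, e1, ← ENNReal.ofReal_pow (by positivity), ← ENNReal.ofReal_pow hA,
          ← ENNReal.ofReal_mul (by positivity), ← ENNReal.ofReal_add (by positivity) (by positivity),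
          ← ENNReal.ofReal_mul (by positivity), ← ENNReal.ofReal_mul (by positivity),
          ← ENNReal.ofReal_mul (by positivity), ← ENNReal.ofReal_mul (by positivity),
          ← ENNReal.ofReal_mul (by positivity), ← ENNReal.ofReal_add (by positivity) (by positivity)]
        congr 1
        ring

end Pool.Agent.H12.TP
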