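import Pool.Agent.H12.TP.MeanO
import Pool.Agent.H12.TP.QM

/-!
# If almost all zeros are near the line, the two zero sums are close for most `t`

PROOF.  Put `w = L (z - 1/2 - it) = y + i x`, so `x = L (im z - t)`, `y = L (re z - 1/2)`.
`‖Zs - Zo‖ ≤ ∫ ‖Kc W (y + i x) - Kc W (i x)‖ dmuZ`; fix `ε ∈ (0,1]` (the statement is monotone in `ε`) and
`δ ∈ (0,1]` small.
(1) `|y| ≤ δ`: the difference is `≤ C δ (1+|x|)^{-4}` (mean value inequality, `TF.hasDerivAt_Kc`:
derivative `Kc (v W)`, decay `TF.decay_one_add`), contributing at most `C δ Qs c T t`; by Markov and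
`Q_moments` (p = 1) this is `> ε/2` only for `t` in a set of measure `≤ C' δ T / ε`.
(2) `|y| > δ`: let `u_z(t) = ‖Kc W (y+ix)‖ + ‖Kc W (ix)‖ ≤ C_q e^{b|y|} (1+|x|)^{-q}`.  If the sum
`∫_{|y|>δ} u dmuZ > ε/2` then, as every zero has mass at least one in `muZ`,
`∫_{|y|>δ} min(1,u) dmuZ ≥ ε/2` (if some `u ≥ 1` the integral is already `≥ 1`).  `min(1,u) ≤ u^θ`
for `θ ∈ (0,1]`; with `c` from `Q_moments`, `θ = min(1, c/(2(b+1)))` and `q = ⌈4/θ⌉`:
`min(1,u) ≤ C e^{(c/2)|y|} (1+|x|)^{-4}`.  So the measure of the bad `t` is at most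
`(2C/ε) ∫_{|y|>δ} e^{(c/2)|y|} J(z) dmuZ`, `J(z) = ∫_0^T (1+|L(im z - t)|)^{-4} dt`.  By
Cauchy-Schwarz this is at most `(∫_{|y|>δ} J dmuZ)^{1/2} (∫ e^{c|y|} J dmuZ)^{1/2}`; the second
factor is `≤ (C T)^{1/2}` (`Q_moments`, p = 1, Tonelli).  And `∫_{|y|>δ} J dmuZ = o(T)`: zeros with
`|im z| ≤ 2T`: `J ≤ C/L`, and their number is `≤ 2 muZ (FarW (2T) (δ'))`-like: `|re z - 1/2| > δ/log T`
implies `> δ/log(2T)`... and zeros with negative ordinates are conjugate to those with positive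
ordinates (conjugation invariance of `muZ`: P6_PB), none is real (or: `NearLine` at `2T`, then
`(2T log 2T)` is comparable with `T L`); zeros with `|im z| > 2T`:
`J ≤ T (L |im z|/2)^{-4}`, total `≤ C T * T^{-2} * log` via `muZ_logDens`.  This is `≤ η T` eventually.
-/

set_option autoImplicit false

namespace Pool.Agent.H12.TP

open MeasureTheory Filter Topology Set Real
open Pool.Agent.PairCorr Pool.Agent.PairCorr.P6
open scoped ENNReal ArithmeticFunction.vonMangoldt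

variable {W : ℝ → ℝ} {b : ℝ}

lemma cl_near (h : TF W b) (hb : 0 ≤ b) : ∃ C : ℝ, 0 ≤ C ∧ ∀ y x : ℝ, |y| ≤ 1 →
    ‖Kc W (y + x * Complex.I) - Kc W (x * Complex.I)‖ ≤ C * |y| * ((1 + |x|) ^ 4)⁻¹ := by
  obtain ⟨C, hC0, hC⟩ := h.mul_id.decay_one_add 4
  refine ⟨C * Real.exp b, by positivity, fun y x hy => ?_⟩
  have hx := abs_nonneg x
  have hbound : ∀ w ∈ segment ℝ (x * Complex.I : ℂ) (y + x * Complex.I),
      ‖Kc (fun v => v * W v) w‖ ≤ C * Real.exp b * ((1 + |x|) ^ 4)⁻¹ := by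
    intro w hw
    obtain ⟨α, β, hα, hβ, hαβ, hw'⟩ := hw
    have him : w.im = x := by
      rw [← hw']
      simp
      rw [← add_mul, hαβ, one_mul]
    have hre : w.re = β * y := by
      rw [← hw']
      simp
    have h1 := hC w
    rw [hre] at h1
    have h2 : |β * y| ≤ 1 := by
      rw [abs_mul, abs_of_nonneg hβ]
      nlinarith [abs_nonneg y]
    have h3 : Real.exp (b * |β * y|) ≤ Real.exp b := by
      apply Real.exp_le_exp.2
      nlinarith [abs_nonneg (β * y)]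
    have h4 : |x| ≤ ‖w‖ := by
      rw [← him]
      exact Complex.abs_im_le_norm w
    have h5 : (1 + |x|) ^ 4 ≤ (1 + ‖w‖) ^ 4 := pow_le_pow_left₀ (by positivity) (by linarith) 4
    rw [← div_eq_mul_inv, le_div_iff₀ (by positivity), mul_comm]
    calc (1 + |x|) ^ 4 * ‖Kc (fun v => v * W v) w‖
        ≤ (1 + ‖w‖) ^ 4 * ‖Kc (fun v => v * W v) w‖ :=
          mul_le_mul_of_nonneg_right h5 (norm_nonneg _)
      _ ≤ C * Real.exp (b * |β * y|) := h1
      _ ≤ C * Real.exp b := mul_le_mul_of_nonneg_left h3 hC0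
  have hmv := Convex.norm_image_sub_le_of_norm_hasDerivWithin_le (f := Kc W)
    (f' := Kc (fun v => v * W v)) (s := segment ℝ (x * Complex.I : ℂ) (y + x * Complex.I))
    (fun w _ => (h.hasDerivAt_Kc w).hasDerivWithinAt) hbound (convex_segment _ _)
    (left_mem_segment _ _ _) (right_mem_segment _ _ _)
  rw [add_sub_cancel_right, Complex.norm_real, Real.norm_eq_abs] at hmv
  calc _ ≤ C * Real.exp b * ((1 + |x|) ^ 4)⁻¹ * |y| := hmv
    _ = _ := by ring

lemma cl_far (h : TF W b) (hb : 0 ≤ b) (q : ℕ) : ∃ C : ℝ, 0 ≤ C ∧ ∀ y x : ℝ,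
    ‖Kc W (y + x * Complex.I) - Kc W (x * Complex.I)‖ ≤
      C * Real.exp (b * |y|) * ((1 + |x|) ^ q)⁻¹ := by
  obtain ⟨C, hC0, hC⟩ := h.decay_one_add q
  have key : ∀ y x : ℝ, ‖Kc W (y + x * Complex.I)‖ ≤ C * Real.exp (b * |y|) * ((1 + |x|) ^ q)⁻¹ := by
    intro y x
    have hx := abs_nonneg x
    have h1 := hC (y + x * Complex.I)
    have hre : (y + x * Complex.I : ℂ).re = y := by simp
    have him : (y + x * Complex.I : ℂ).im = x := by simp
    rw [hre] at h1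
    have h4 := Complex.abs_im_le_norm (y + x * Complex.I : ℂ)
    rw [him] at h4
    have h5 : (1 + |x|) ^ q ≤ (1 + ‖(y + x * Complex.I : ℂ)‖) ^ q :=
      pow_le_pow_left₀ (by positivity) (by linarith) q
    rw [← div_eq_mul_inv, le_div_iff₀ (by positivity), mul_comm]
    exact (mul_le_mul_of_nonneg_right h5 (norm_nonneg _)).trans h1
  refine ⟨2 * C, by positivity, fun y x => ?_⟩
  have hx := abs_nonneg x
  have h1 := key y x
  have h2 := key 0 x
  simp only [Complex.ofReal_zero, zero_add, abs_zero, mul_zero, Real.exp_zero] at h2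
  have h3 : 1 ≤ Real.exp (b * |y|) := Real.one_le_exp (by positivity)
  have h4 : C * 1 * ((1 + |x|) ^ q)⁻¹ ≤ C * Real.exp (b * |y|) * ((1 + |x|) ^ q)⁻¹ := by
    gcongr
  calc _ ≤ ‖Kc W (y + x * Complex.I)‖ + ‖Kc W (x * Complex.I)‖ := norm_sub_le _ _
    _ ≤ _ := by linarith

lemma cl_min (h : TF W b) (hb : 0 ≤ b) {c : ℝ} (hc : 0 < c) : ∃ C : ℝ, 0 ≤ C ∧ ∀ y x : ℝ,
    min 1 ‖Kc W (y + x * Complex.I) - Kc W (x * Complex.I)‖ ≤
      C * Real.exp (c / 2 * |y|) * ((1 + |x|) ^ 4)⁻¹ := by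
  set N : ℕ := ⌈2 * b / c⌉₊ + 1 with hN
  have hN1 : 1 ≤ N := by omega
  have hNb : b ≤ N * (c / 2) := by
    have h1 := Nat.le_ceil (2 * b / c)
    have h2 : 2 * b / c ≤ N := by
      rw [hN]; push_cast; linarith
    rw [div_le_iff₀ hc] at h2
    linarith
  obtain ⟨C, hC0, hC⟩ := cl_far h hb (4 * N)
  refine ⟨max 1 C, by positivity, fun y x => ?_⟩
  have hx := abs_nonneg x
  have hy := abs_nonneg y
  set d := ‖Kc W (y + x * Complex.I) - Kc W (x * Complex.I)‖ with hd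
  have hd0 : 0 ≤ d := norm_nonneg _
  have hm0 : 0 ≤ min 1 d := le_min zero_le_one hd0
  have hm1 : min 1 d ≤ 1 := min_le_left _ _
  refine le_of_pow_le_pow_left₀ (by omega : N ≠ 0) (by positivity) ?_
  have h1 : (min 1 d) ^ N ≤ min 1 d := pow_le_of_le_one hm0 hm1 (by omega)
  have h2 : min 1 d ≤ d := min_le_right _ _
  have h3 := hC y x
  have hC1 : C ≤ (max 1 C) ^ N := by
    calc C ≤ max 1 C := le_max_right _ _
      _ ≤ (max 1 C) ^ N := le_self_pow₀ (le_max_left _ _) (by omega)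
  have h4 : Real.exp (b * |y|) ≤ Real.exp (c / 2 * |y|) ^ N := by
    rw [← Real.exp_nat_mul]
    apply Real.exp_le_exp.2
    nlinarith
  have h5 : ((1 + |x|) ^ (4 * N))⁻¹ = (((1 + |x|) ^ 4)⁻¹) ^ N := by
    rw [pow_mul, inv_pow]
  rw [mul_pow, mul_pow, ← h5]
  calc (min 1 d) ^ N ≤ d := h1.trans h2
    _ ≤ C * Real.exp (b * |y|) * ((1 + |x|) ^ (4 * N))⁻¹ := h3
    _ ≤ (max 1 C) ^ N * Real.exp (c / 2 * |y|) ^ N * ((1 + |x|) ^ (4 * N))⁻¹ := by
      apply mul_le_mul_of_nonneg_right _ (by positivity)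
      exact mul_le_mul hC1 h4 (Real.exp_pos _).le (by positivity)

lemma cl_split {f : ℂ → ℝ≥0∞} {N : Set ℂ} (hN : MeasurableSet N) {e : ℝ≥0∞} (he : e ≤ 1)
    (h : e < ∫⁻ z in N, f z ∂muZ) : e ≤ ∫⁻ z in N, min 1 (f z) ∂muZ := by
  by_cases hex : ∃ ρ ∈ NTZ, ρ ∈ N ∧ 1 ≤ f ρ
  · obtain ⟨ρ, hρ, hρN, hf⟩ := hex
    rw [← lintegral_indicator hN, muZ_lintegral]
    refine he.trans (le_trans ?_ (ENNReal.le_tsum (⟨ρ, hρ⟩ : NTZ)))
    rw [indicator_of_mem hρN, min_eq_left hf, mul_one]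
    exact_mod_cast mult_pos hρ
  · push Not at hex
    have h1 : ∫⁻ z in N, f z ∂muZ = ∫⁻ z in N, min 1 (f z) ∂muZ := by
      apply lintegral_congr_ae
      filter_upwards [ae_restrict_of_ae muZ_ae, ae_restrict_mem hN] with z hz hzN
      rw [min_eq_right (hex z hz hzN).le]
    rw [← h1]
    exact h.le

/-- decaying weight -/
noncomputable def clK (L : ℝ) (z : ℂ) (t : ℝ) : ℝ := ((1 + |L * (z.im - t)|) ^ 4)⁻¹

lemma clK_cont (L : ℝ) : Continuous fun p : ℝ × ℂ => clK L p.2 p.1 := by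
  unfold clK
  apply Continuous.inv₀ (by fun_prop)
  intro p
  positivity

lemma clK_meas (L : ℝ) : Measurable fun p : ℝ × ℂ => ENNReal.ofReal (clK L p.2 p.1) :=
  (clK_cont L).measurable.ennreal_ofReal

lemma clK_nonneg (L : ℝ) (z : ℂ) (t : ℝ) : 0 ≤ clK L z t := by
  unfold clK
  positivity

/-- far set -/
def clN (L δ : ℝ) : Set ℂ := {z | δ < |L * (z.re - 1 / 2)|}

lemma clN_meas (L δ : ℝ) : MeasurableSet (clN L δ) := by
  have h1 : Measurable fun z : ℂ => L * (z.re - 1 / 2) := by fun_prop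
  exact measurableSet_lt measurable_const h1.norm

lemma clK_int {L : ℝ} (hL : 1 ≤ L) (z : ℂ) (T : ℝ) :
    ∫⁻ t in Ioc (0:ℝ) T, ENNReal.ofReal (clK L z t) ≤ ENNReal.ofReal (π / L) := by
  have hL0 : 0 < L := by linarith
  have hint : Integrable (fun t : ℝ => (1 + (L * (t - z.im)) ^ 2)⁻¹) :=
    (integrable_inv_one_add_sq.comp_mul_left' hL0.ne').comp_sub_right z.im
  have hval : ∫ t : ℝ, (1 + (L * (t - z.im)) ^ 2)⁻¹ = π / L := by
    rw [integral_sub_right_eq_self (fun t : ℝ => (1 + (L * t) ^ 2)⁻¹) z.im,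
      Measure.integral_comp_mul_left (fun s : ℝ => (1 + s ^ 2)⁻¹) L, integral_univ_inv_one_add_sq,
      abs_of_pos (inv_pos.2 hL0), smul_eq_mul]
    field_simp
  calc ∫⁻ t in Ioc (0:ℝ) T, ENNReal.ofReal (clK L z t)
      ≤ ∫⁻ t : ℝ, ENNReal.ofReal ((1 + (L * (t - z.im)) ^ 2)⁻¹) := by
        refine (setLIntegral_le_lintegral _ _).trans (lintegral_mono fun t => ?_)
        apply ENNReal.ofReal_le_ofReal
        unfold clK
        apply inv_anti₀ (by positivity)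
        have h1 : |L * (z.im - t)| ^ 2 = (L * (t - z.im)) ^ 2 := by
          rw [sq_abs]; ring
        have h2 := abs_nonneg (L * (z.im - t))
        rw [← h1]
        nlinarith [pow_nonneg h2 2, pow_nonneg h2 3, pow_nonneg h2 4]
    _ = ENNReal.ofReal (π / L) := by
        rw [← ofReal_integral_eq_lintegral_ofReal hint
          (Eventually.of_forall fun t => by positivity), hval]

lemma clK_far {L T : ℝ} (hL : 1 ≤ L) (hT : 1 ≤ T) {z : ℂ} (hz : 2 * T < |z.im|) :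
    ∫⁻ t in Ioc (0:ℝ) T, ENNReal.ofReal (clK L z t) ≤
      ENNReal.ofReal (8 / T * (1 + (z.im - 0) ^ 2)⁻¹) := by
  have hT0 : 0 < T := by linarith
  have hy : 2 < |z.im| := by linarith
  have h1 : ∀ t ∈ Ioc (0:ℝ) T, ENNReal.ofReal (clK L z t) ≤
      ENNReal.ofReal (8 / T ^ 2 * (1 + (z.im - 0) ^ 2)⁻¹) := by
    intro t ht
    apply ENNReal.ofReal_le_ofReal
    unfold clK
    have h2 : |z.im| / 2 ≤ |z.im - t| := by
      have h3 := abs_sub_abs_le_abs_sub z.im t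
      have h4 : |t| ≤ T := by rw [abs_of_pos ht.1]; exact ht.2
      linarith
    have h5 : |z.im| / 2 ≤ |L * (z.im - t)| := by
      rw [abs_mul, abs_of_pos (by linarith : 0 < L)]
      nlinarith [abs_nonneg (z.im - t)]
    have h6 : (|z.im| / 2) ^ 4 ≤ (1 + |L * (z.im - t)|) ^ 4 :=
      pow_le_pow_left₀ (by positivity) (by linarith) 4
    have h7 : (z.im - 0) ^ 2 = |z.im| ^ 2 := by rw [sub_zero, sq_abs]
    rw [h7, ← div_eq_mul_inv, div_div, le_div_iff₀ (by positivity), ← div_eq_inv_mul,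
      div_le_iff₀ (by positivity)]
    refine le_trans ?_ (mul_le_mul_of_nonneg_left h6 (by norm_num))
    have h8 : (2 * T) ^ 2 ≤ |z.im| ^ 2 := pow_le_pow_left₀ (by positivity) hz.le 2
    have h9 : 4 ≤ |z.im| ^ 2 := by nlinarith
    nlinarith [mul_le_mul_of_nonneg_right h8 (by positivity : 0 ≤ |z.im| ^ 2)]
  calc ∫⁻ t in Ioc (0:ℝ) T, ENNReal.ofReal (clK L z t)
      ≤ ∫⁻ _t in Ioc (0:ℝ) T, ENNReal.ofReal (8 / T ^ 2 * (1 + (z.im - 0) ^ 2)⁻¹) :=
        setLIntegral_mono' measurableSet_Ioc h1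
    _ = ENNReal.ofReal (8 / T ^ 2 * (1 + (z.im - 0) ^ 2)⁻¹) * ENNReal.ofReal T := by
        rw [setLIntegral_const, Real.volume_Ioc, sub_zero T]
    _ = ENNReal.ofReal (8 / T * (1 + (z.im - 0) ^ 2)⁻¹) := by
        rw [← ENNReal.ofReal_mul (by positivity)]
        congr 1
        field_simp

lemma cl_count {L T δ : ℝ} (hL : L = Real.log T) (hT : 2 ≤ T) (hδ : 0 < δ) :
    muZ (clN L δ ∩ {z : ℂ | |z.im| ≤ 2 * T}) ≤
      2 * muZ (FarW (2 * T) δ) + muZ {z : ℂ | z.im = 0} := by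
  have hT0 : 0 < T := by linarith
  have hL0 : 0 < L := by rw [hL]; exact Real.log_pos (by linarith)
  have hL2 : L ≤ Real.log (2 * T) := by rw [hL]; exact Real.log_le_log hT0 (by linarith)
  have hsub : clN L δ ∩ {z : ℂ | |z.im| ≤ 2 * T} ⊆
      (FarW (2 * T) δ ∪ (fun z : ℂ => (starRingEnd ℂ) z) ⁻¹' FarW (2 * T) δ) ∪
        {z : ℂ | z.im = 0} := by
    rintro z ⟨hz1, hz2⟩
    have h1 : δ / Real.log (2 * T) < |z.re - 1 / 2| := by
      have h2 : δ < L * |z.re - 1 / 2| := by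
        have h3 : δ < |L * (z.re - 1 / 2)| := hz1
        rwa [abs_mul, abs_of_pos hL0] at h3
      rw [div_lt_iff₀ (by linarith)]
      nlinarith [abs_nonneg (z.re - 1 / 2)]
    have hz2' := abs_le.1 (show |z.im| ≤ 2 * T from hz2)
    rcases lt_trichotomy z.im 0 with hz | hz | hz
    · left; right
      refine ⟨⟨?_, ?_⟩, ?_⟩
      · rw [Complex.conj_im]; linarith
      · rw [Complex.conj_im]; linarith [hz2'.1]
      · rw [Complex.conj_re]; exact h1
    · right; exact hz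
    · left; left
      exact ⟨⟨hz, hz2'.2⟩, h1⟩
  refine (measure_mono hsub).trans ((measure_union_le _ _).trans ?_)
  refine add_le_add_left ((measure_union_le _ _).trans ?_) _
  rw [mp_conj.measure_preimage (measurableSet_FarW _ _).nullMeasurableSet,
    two_mul (muZ (FarW (2 * T) δ))]

lemma off_small (hN : NearLine atTop) {δ : ℝ} (hδ : 0 < δ) {η : ℝ} (hη : 0 < η) :
    ∀ᶠ T : ℝ in atTop, ∫⁻ t in Ioc (0:ℝ) T, ∫⁻ z in clN (Real.log T) δ,
      ENNReal.ofReal (clK (Real.log T) z t) ∂muZ ≤ ENNReal.ofReal (η * T) := by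
  obtain ⟨C, hC, hLD⟩ := muZ_logDens
  obtain ⟨C', hC'0, h'⟩ := hLD.integral_le hC.le
  have hfin0 := muZ_im_zero_lt_top
  set Z0 : ℝ := (muZ {z : ℂ | z.im = 0}).toReal with hZ0
  have hZ0n : 0 ≤ Z0 := ENNReal.toReal_nonneg
  have hlim := (hN δ hδ).comp (tendsto_id.const_mul_atTop (two_pos (α := ℝ)))
  have hpi := Real.pi_pos
  have hev := hlim.eventually_lt_const (show (0:ℝ) < η / (32 * π) by positivity)
  filter_upwards [hev, eventually_ge_atTop (Real.exp 1), eventually_ge_atTop 2,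
    eventually_ge_atTop (2 * (π * Z0 + 8 * C') / η)] with T h1 hTe hT2 hTb
  have hT0 : 0 < T := by linarith
  set L := Real.log T with hL
  have hL1 : 1 ≤ L := by rw [hL, Real.le_log_iff_exp_le hT0]; exact hTe
  have hL0 : 0 < L := by linarith
  -- swap
  have hswap : ∫⁻ t in Ioc (0:ℝ) T, ∫⁻ z in clN L δ, ENNReal.ofReal (clK L z t) ∂muZ =
      ∫⁻ z in clN L δ, (∫⁻ t in Ioc (0:ℝ) T, ENNReal.ofReal (clK L z t)) ∂muZ :=
    lintegral_lintegral_swap (clK_meas L).aemeasurable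
  rw [hswap]
  set A : Set ℂ := {z : ℂ | |z.im| ≤ 2 * T} with hA
  have hAm : MeasurableSet A := measurableSet_le Complex.measurable_im.norm measurable_const
  rw [← lintegral_inter_add_diff _ (clN L δ) hAm]
  have hfinF : muZ (FarW (2 * T) δ) < ⊤ := by
    refine lt_of_le_of_lt (measure_mono ?_) (muZ_abs_lt_top (U := 2 * T) (by linarith))
    rintro z ⟨⟨hz1, hz2⟩, _⟩
    show |z.im| ≤ 2 * T
    rw [abs_of_pos hz1]; exact hz2
  have hlog2 : Real.log (2 * T) ≤ 2 * L := by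
    rw [Real.log_mul (by norm_num) hT0.ne', ← hL]
    have : Real.log 2 ≤ L := by rw [hL]; exact Real.log_le_log two_pos hT2
    linarith
  have hF : (muZ (FarW (2 * T) δ)).toReal ≤ η / (32 * π) * (4 * T * L) := by
    have h2 : (muZ (FarW (2 * T) δ)).toReal / (2 * T * Real.log (2 * T)) < η / (32 * π) := h1
    have h3 : 0 < Real.log (2 * T) := Real.log_pos (by linarith)
    rw [div_lt_iff₀ (by positivity)] at h2
    refine h2.le.trans ?_
    apply mul_le_mul_of_nonneg_left _ (by positivity)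
    nlinarith
  have hB1 : ∫⁻ z in clN L δ ∩ A, (∫⁻ t in Ioc (0:ℝ) T, ENNReal.ofReal (clK L z t)) ∂muZ ≤
      ENNReal.ofReal (η / 2 * T + π * Z0) := by
    calc ∫⁻ z in clN L δ ∩ A, (∫⁻ t in Ioc (0:ℝ) T, ENNReal.ofReal (clK L z t)) ∂muZ
        ≤ ∫⁻ _z in clN L δ ∩ A, ENNReal.ofReal (π / L) ∂muZ :=
          lintegral_mono fun z => clK_int hL1 z T
      _ = ENNReal.ofReal (π / L) * muZ (clN L δ ∩ A) := setLIntegral_const _ _
      _ ≤ ENNReal.ofReal (π / L) * (2 * muZ (FarW (2 * T) δ) + muZ {z : ℂ | z.im = 0}) := by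
          gcongr
          exact cl_count hL hT2 hδ
      _ = ENNReal.ofReal (π / L) * ENNReal.ofReal (2 * (muZ (FarW (2 * T) δ)).toReal + Z0) := by
          congr 1
          rw [ENNReal.ofReal_add (by positivity) hZ0n, ENNReal.ofReal_mul (by norm_num),
            ENNReal.ofReal_toReal hfinF.ne, hZ0, ENNReal.ofReal_toReal hfin0.ne]
          simp
      _ = ENNReal.ofReal (π / L * (2 * (muZ (FarW (2 * T) δ)).toReal + Z0)) := by
          rw [ENNReal.ofReal_mul (by positivity)]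
      _ ≤ _ := by
          apply ENNReal.ofReal_le_ofReal
          have h4 : π / L * (2 * (muZ (FarW (2 * T) δ)).toReal) ≤ η / 4 * T := by
            calc π / L * (2 * (muZ (FarW (2 * T) δ)).toReal)
                ≤ π / L * (2 * (η / (32 * π) * (4 * T * L))) := by gcongr
              _ = η / 4 * T := by field_simp; ring
          have h5 : π / L * Z0 ≤ π * Z0 := by
            apply mul_le_mul_of_nonneg_right _ hZ0n
            exact div_le_self hpi.le hL1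
          have h6 : 0 ≤ η * T := by positivity
          rw [mul_add]
          linarith
  have hB2 : ∫⁻ z in clN L δ \ A, (∫⁻ t in Ioc (0:ℝ) T, ENNReal.ofReal (clK L z t)) ∂muZ ≤
      ENNReal.ofReal (8 * C') := by
    have hAc : MeasurableSet (clN L δ \ A) := (clN_meas L δ).diff hAm
    calc ∫⁻ z in clN L δ \ A, (∫⁻ t in Ioc (0:ℝ) T, ENNReal.ofReal (clK L z t)) ∂muZ
        ≤ ∫⁻ z in clN L δ \ A, ENNReal.ofReal (8 / T * (1 + (z.im - 0) ^ 2)⁻¹) ∂muZ := by
          apply setLIntegral_mono' hAc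
          rintro z ⟨_, hz⟩
          exact clK_far hL1 (by linarith) (not_le.1 hz)
      _ ≤ ∫⁻ z, ENNReal.ofReal (8 / T * (1 + (z.im - 0) ^ 2)⁻¹) ∂muZ := setLIntegral_le_lintegral _ _
      _ = ENNReal.ofReal (∫ z, 8 / T * (1 + (z.im - 0) ^ 2)⁻¹ ∂muZ) := by
          rw [ofReal_integral_eq_lintegral_ofReal ((h' 0).1.const_mul _)
            (Eventually.of_forall fun z => by positivity)]
      _ ≤ _ := by
          apply ENNReal.ofReal_le_ofReal
          rw [integral_const_mul]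
          have h7 := (h' 0).2
          have h8 : Real.log (|(0:ℝ)| + 2) ≤ 1 := by
            have := Real.log_two_lt_d9
            rw [abs_zero, zero_add]; linarith
          have h9 : ∫ z : ℂ, (1 + (z.im - 0) ^ 2)⁻¹ ∂muZ ≤ C' :=
            h7.trans (mul_le_of_le_one_right hC'0 h8)
          have h10 : 8 / T ≤ 8 := div_le_self (by norm_num) (by linarith)
          have h11 : 0 ≤ ∫ z : ℂ, (1 + (z.im - 0) ^ 2)⁻¹ ∂muZ :=
            integral_nonneg fun z => by positivity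
          exact mul_le_mul h10 h9 h11 (by norm_num)
  refine (add_le_add hB1 hB2).trans ?_
  rw [← ENNReal.ofReal_add (by positivity) (by positivity)]
  apply ENNReal.ofReal_le_ofReal
  rw [div_le_iff₀ hη] at hTb
  linarith

/-- the difference of the kernels -/
noncomputable def clD (W : ℝ → ℝ) (L : ℝ) (z : ℂ) (t : ℝ) : ℂ :=
  Kc W (L * (z - (1/2 + t * Complex.I))) - Kc W ((L * (z.im - t) : ℝ) * Complex.I)

lemma clD_eq (W : ℝ → ℝ) (L : ℝ) (z : ℂ) (t : ℝ) : clD W L z t =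
    Kc W (((L * (z.re - 1 / 2) : ℝ) : ℂ) + ((L * (z.im - t) : ℝ) : ℂ) * Complex.I) -
      Kc W (((L * (z.im - t) : ℝ) : ℂ) * Complex.I) := by
  unfold clD
  congr 2
  apply Complex.ext <;> simp

lemma cl_norm_le (h : TF W b) (hb : 0 ≤ b) {L : ℝ} (hL : 1 ≤ L) (t : ℝ) :
    ENNReal.ofReal ‖Zs W L t - Zo W L t‖ ≤ ∫⁻ z, ‖clD W L z t‖ₑ ∂muZ := by
  have h1 : Zs W L t - Zo W L t = ∫ z, clD W L z t ∂muZ := by
    unfold Zs Zo clD
    rw [integral_sub (kernel_integrable h hb hL t) (Zo_integrable h hb hL t)]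
  rw [h1, ofReal_norm]
  exact enorm_integral_le_lintegral_enorm _

lemma cl_wgt {c T L : ℝ} (hL : L = Real.log T) (hL0 : 0 ≤ L) (z : ℂ) :
    wgt c T z = Real.exp (c * |L * (z.re - 1 / 2)|) := by
  unfold wgt
  rw [abs_mul, abs_of_nonneg hL0, hL]
  congr 1
  ring

lemma cl_amgm {η s : ℝ} (hη : 0 < η) : s ≤ η⁻¹ + η * s ^ 2 := by
  have h1 : 0 ≤ η * (s - η⁻¹) ^ 2 := by positivity
  have h2 : η * (s - η⁻¹) ^ 2 = η * s ^ 2 - 2 * s + η⁻¹ := by
    field_simp
    ring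
  have h3 : 0 ≤ η⁻¹ := by positivity
  have h4 : 0 ≤ η * s ^ 2 := by positivity
  nlinarith

lemma cl_near_sum {C₁ : ℝ} (hnear : ∀ y x : ℝ, |y| ≤ 1 →
    ‖Kc W (y + x * Complex.I) - Kc W (x * Complex.I)‖ ≤ C₁ * |y| * ((1 + |x|) ^ 4)⁻¹)
    {c T L δ : ℝ} (hL : L = Real.log T) (hL0 : 0 ≤ L) (hδ0 : 0 ≤ δ) (hδ1 : δ ≤ 1)
    (hC₁ : 0 ≤ C₁) (hc : 0 ≤ c) (t : ℝ) :
    ∫⁻ z in (clN L δ)ᶜ, ‖clD W L z t‖ₑ ∂muZ ≤ ENNReal.ofReal (C₁ * δ) * Qs c T t := by
  calc ∫⁻ z in (clN L δ)ᶜ, ‖clD W L z t‖ₑ ∂muZ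
      ≤ ∫⁻ z in (clN L δ)ᶜ, ENNReal.ofReal (C₁ * δ) *
        ENNReal.ofReal (wgt c T z * ((1 + |Real.log T * (z.im - t)|) ^ 4)⁻¹) ∂muZ := by
        apply setLIntegral_mono' (clN_meas L δ).compl
        intro z hz
        have hz' : |L * (z.re - 1 / 2)| ≤ δ := not_lt.1 hz
        rw [← ofReal_norm, ← ENNReal.ofReal_mul (by positivity), ← hL]
        apply ENNReal.ofReal_le_ofReal
        rw [clD_eq]
        refine (hnear _ _ (hz'.trans hδ1)).trans ?_
        have h1 : 1 ≤ wgt c T z := by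
          rw [cl_wgt hL hL0]
          exact Real.one_le_exp (by positivity)
        have h2 : 0 ≤ ((1 + |L * (z.im - t)|) ^ 4)⁻¹ := by positivity
        calc C₁ * |L * (z.re - 1 / 2)| * ((1 + |L * (z.im - t)|) ^ 4)⁻¹
            ≤ C₁ * δ * ((1 + |L * (z.im - t)|) ^ 4)⁻¹ := by gcongr
          _ ≤ C₁ * δ * (wgt c T z * ((1 + |L * (z.im - t)|) ^ 4)⁻¹) := by
              apply mul_le_mul_of_nonneg_left _ (by positivity)
              exact le_mul_of_one_le_left h2 h1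
    _ ≤ ∫⁻ z, ENNReal.ofReal (C₁ * δ) *
        ENNReal.ofReal (wgt c T z * ((1 + |Real.log T * (z.im - t)|) ^ 4)⁻¹) ∂muZ :=
        setLIntegral_le_lintegral _ _
    _ = ENNReal.ofReal (C₁ * δ) * Qs c T t := by
        rw [lintegral_const_mul' _ _ ENNReal.ofReal_ne_top]
        rfl

lemma cl_far_sum {C₂ c : ℝ} (hmin : ∀ y x : ℝ,
    min 1 ‖Kc W (y + x * Complex.I) - Kc W (x * Complex.I)‖ ≤
      C₂ * Real.exp (c / 2 * |y|) * ((1 + |x|) ^ 4)⁻¹)
    {T L δ η : ℝ} (hL : L = Real.log T) (hL0 : 0 ≤ L) (hη0 : 0 < η) (hC₂ : 0 ≤ C₂) (t : ℝ) :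
    ∫⁻ z in clN L δ, min 1 ‖clD W L z t‖ₑ ∂muZ ≤
      ENNReal.ofReal (C₂ * η⁻¹) * (∫⁻ z in clN L δ, ENNReal.ofReal (clK L z t) ∂muZ) +
        ENNReal.ofReal (C₂ * η) * Qs c T t := by
  have hmz : Measurable fun z : ℂ => ENNReal.ofReal (C₂ * η⁻¹) * ENNReal.ofReal (clK L z t) := by
    have h5 : Continuous fun z : ℂ => clK L z t := by
      unfold clK
      apply Continuous.inv₀ (by fun_prop)
      intro z
      positivity
    exact h5.measurable.ennreal_ofReal.const_mul _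
  have hpt : ∀ z : ℂ, min 1 ‖clD W L z t‖ₑ ≤
      ENNReal.ofReal (C₂ * η⁻¹) * ENNReal.ofReal (clK L z t) + ENNReal.ofReal (C₂ * η) *
        ENNReal.ofReal (wgt c T z * ((1 + |Real.log T * (z.im - t)|) ^ 4)⁻¹) := by
    intro z
    have h0 : min 1 ‖clD W L z t‖ₑ = ENNReal.ofReal (min 1 ‖clD W L z t‖) := by
      rw [ENNReal.ofReal_min, ENNReal.ofReal_one, ofReal_norm]
    have h2 : 0 ≤ ((1 + |L * (z.im - t)|) ^ 4)⁻¹ := by positivity
    have hw0 : 0 ≤ wgt c T z := (Real.exp_pos _).le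
    rw [← hL, h0, ← ENNReal.ofReal_mul (by positivity), ← ENNReal.ofReal_mul (by positivity),
      ← ENNReal.ofReal_add (mul_nonneg (by positivity) (clK_nonneg _ _ _)) (by positivity)]
    apply ENNReal.ofReal_le_ofReal
    rw [clD_eq]
    refine (hmin _ _).trans ?_
    unfold clK
    rw [cl_wgt hL hL0]
    have h3 : Real.exp (c / 2 * |L * (z.re - 1 / 2)|) ^ 2 =
        Real.exp (c * |L * (z.re - 1 / 2)|) := by
      rw [← Real.exp_nat_mul]
      congr 1
      push_cast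
      ring
    have h4 := cl_amgm (s := Real.exp (c / 2 * |L * (z.re - 1 / 2)|)) hη0
    rw [h3] at h4
    calc C₂ * Real.exp (c / 2 * |L * (z.re - 1 / 2)|) * ((1 + |L * (z.im - t)|) ^ 4)⁻¹
        ≤ C₂ * (η⁻¹ + η * Real.exp (c * |L * (z.re - 1 / 2)|)) *
          ((1 + |L * (z.im - t)|) ^ 4)⁻¹ := by gcongr
      _ = _ := by ring
  refine (lintegral_mono hpt).trans ?_
  rw [lintegral_add_left hmz, lintegral_const_mul' _ _ ENNReal.ofReal_ne_top,
    lintegral_const_mul' _ _ ENNReal.ofReal_ne_top]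
  gcongr
  exact setLIntegral_le_lintegral _ _

theorem close (hN : NearLine atTop) (h : TF W b) (hb : 0 ≤ b) {ε : ℝ} (hε : 0 < ε) :
    ∀ᶠ T : ℝ in atTop, volume {t : ℝ | t ∈ Ioc 0 T ∧ ε < ‖Zs W (Real.log T) t - Zo W (Real.log T) t‖} ≤
      ENNReal.ofReal (ε * T) := by
  wlog hε1 : ε ≤ 1 generalizing ε with H
  · have h1 := H one_pos le_rfl
    filter_upwards [h1, eventually_ge_atTop 0] with T hT hT0
    have hε1' := not_le.mp hε1
    refine (measure_mono ?_).trans (hT.trans (ENNReal.ofReal_le_ofReal ?_))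
    · rintro t ⟨ht1, ht2⟩
      exact ⟨ht1, by linarith⟩
    · nlinarith
  obtain ⟨C₁, hC₁, hnear⟩ := cl_near h hb
  obtain ⟨c, hc0, hc1, C, hC, T₀, hT₀, hQ⟩ := Q_moments
  obtain ⟨C₂, hC₂, hmin⟩ := cl_min h hb hc0
  set δ : ℝ := min 1 (ε ^ 2 / (8 * (C₁ * C + 1))) with hδ
  set η : ℝ := ε ^ 2 / (8 * (C₂ * C + 1)) with hη
  set η' : ℝ := ε ^ 2 * η / (8 * (C₂ + 1)) with hη'
  have hδ0 : 0 < δ := lt_min one_pos (by positivity)
  have hη0 : 0 < η := by positivity
  have hη'0 : 0 < η' := by positivity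
  have hoff := off_small hN hδ0 hη'0
  filter_upwards [hoff, eventually_ge_atTop T₀] with T hA hTT
  have hTe : Real.exp 1 ≤ T := hT₀.trans hTT
  have hT0 : 0 < T := (Real.exp_pos 1).trans_le hTe
  set L := Real.log T with hL
  have hL1 : 1 ≤ L := by rw [hL, Real.le_log_iff_exp_le hT0]; exact hTe
  have hL0 : 0 ≤ L := by linarith
  have hQ1 := hQ T hTT 1 (by norm_num)
  simp only [pow_one] at hQ1
  set G : ℝ → ℝ≥0∞ := fun t => ∫⁻ z in clN L δ, ENNReal.ofReal (clK L z t) ∂muZ with hG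
  have hGm : Measurable G := (clK_meas L).lintegral_prod_right'
  set R₁ : ℝ → ℝ≥0∞ := fun t => ENNReal.ofReal (C₁ * δ) * Qs c T t with hR₁
  set R₂ : ℝ → ℝ≥0∞ := fun t => ENNReal.ofReal (C₂ * η⁻¹) * G t +
    ENNReal.ofReal (C₂ * η) * Qs c T t with hR₂
  have hQm := Qs_measurable c T
  have hR₁m : Measurable R₁ := hQm.const_mul _
  have hR₂m : Measurable R₂ := (hGm.const_mul _).add (hQm.const_mul _)
  set e : ℝ≥0∞ := ENNReal.ofReal (ε / 2) with he
  have he1 : e ≤ 1 := by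
    rw [he, ← ENNReal.ofReal_one]
    exact ENNReal.ofReal_le_ofReal (by linarith)
  have he0 : e ≠ 0 := by
    rw [he]
    exact (ENNReal.ofReal_pos.2 (by linarith)).ne'
  have het : e ≠ ⊤ := ENNReal.ofReal_ne_top
  have hD1 : ∀ t, ∫⁻ z in (clN L δ)ᶜ, ‖clD W L z t‖ₑ ∂muZ ≤ R₁ t := fun t =>
    cl_near_sum hnear hL hL0 hδ0.le (min_le_left _ _) hC₁ hc0.le t
  have hD2 : ∀ t, ∫⁻ z in clN L δ, min 1 ‖clD W L z t‖ₑ ∂muZ ≤ R₂ t := fun t =>
    cl_far_sum hmin hL hL0 hη0 hC₂ t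
  -- the bad set
  have hsub : {t : ℝ | t ∈ Ioc 0 T ∧ ε < ‖Zs W L t - Zo W L t‖} ⊆
      ({t | e ≤ R₁ t} ∩ Ioc 0 T) ∪ ({t | e ≤ R₂ t} ∩ Ioc 0 T) := by
    rintro t ⟨ht, htε⟩
    by_contra hcon
    rw [mem_union, not_or] at hcon
    have h1 : R₁ t < e := by
      by_contra h2
      exact hcon.1 ⟨not_lt.1 h2, ht⟩
    have h2 : R₂ t < e := by
      by_contra h2
      exact hcon.2 ⟨not_lt.1 h2, ht⟩
    have h3 := cl_norm_le h hb hL1 t
    rw [← lintegral_add_compl _ (clN_meas L δ)] at h3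
    have h4 : ∫⁻ z in clN L δ, ‖clD W L z t‖ₑ ∂muZ ≤ e := by
      by_contra h5
      have h6 := cl_split (clN_meas L δ) he1 (not_le.1 h5)
      exact absurd (h6.trans (hD2 t)) (not_le.2 h2)
    have h7 : ENNReal.ofReal ε < ENNReal.ofReal ‖Zs W L t - Zo W L t‖ :=
      (ENNReal.ofReal_lt_ofReal_iff (hε.trans htε)).2 htε
    have h8 : e + e = ENNReal.ofReal ε := by
      rw [he, ← ENNReal.ofReal_add (by positivity) (by positivity), add_halves]
    have h9 := h3.trans (add_le_add h4 ((hD1 t).trans h1.le))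
    rw [h8] at h9
    exact absurd h9 (not_le.2 h7)
  have hM1 : volume ({t | e ≤ R₁ t} ∩ Ioc 0 T) ≤ ENNReal.ofReal (ε / 4 * T) := by
    rw [← Measure.restrict_apply' measurableSet_Ioc]
    refine (meas_ge_le_lintegral_div hR₁m.aemeasurable he0 het).trans ?_
    rw [hR₁, lintegral_const_mul _ hQm]
    calc ENNReal.ofReal (C₁ * δ) * (∫⁻ t in Ioc 0 T, Qs c T t) / e
        ≤ ENNReal.ofReal (C₁ * δ) * ENNReal.ofReal (C * T) / e := by gcongr
      _ = ENNReal.ofReal (C₁ * δ * (C * T) / (ε / 2)) := by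
          rw [← ENNReal.ofReal_mul (by positivity), he, ← ENNReal.ofReal_div_of_pos (by positivity)]
      _ ≤ _ := by
          apply ENNReal.ofReal_le_ofReal
          rw [div_le_iff₀ (by positivity)]
          have h1 : δ * (8 * (C₁ * C + 1)) ≤ ε ^ 2 := by
            rw [← le_div_iff₀ (by positivity)]
            exact min_le_right _ _
          have h2 : C₁ * C * δ ≤ ε ^ 2 / 8 := by nlinarith [mul_nonneg hC₁ hC.le]
          calc C₁ * δ * (C * T) = C₁ * C * δ * T := by ring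
            _ ≤ ε ^ 2 / 8 * T := by gcongr
            _ = ε / 4 * T * (ε / 2) := by ring
  have hM2 : volume ({t | e ≤ R₂ t} ∩ Ioc 0 T) ≤ ENNReal.ofReal (ε / 2 * T) := by
    rw [← Measure.restrict_apply' measurableSet_Ioc]
    refine (meas_ge_le_lintegral_div hR₂m.aemeasurable he0 het).trans ?_
    rw [hR₂, lintegral_add_left (hGm.const_mul _), lintegral_const_mul _ hGm,
      lintegral_const_mul _ hQm]
    calc (ENNReal.ofReal (C₂ * η⁻¹) * (∫⁻ t in Ioc 0 T, G t) +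
        ENNReal.ofReal (C₂ * η) * (∫⁻ t in Ioc 0 T, Qs c T t)) / e
        ≤ (ENNReal.ofReal (C₂ * η⁻¹) * ENNReal.ofReal (η' * T) +
          ENNReal.ofReal (C₂ * η) * ENNReal.ofReal (C * T)) / e := by gcongr
      _ = ENNReal.ofReal ((C₂ * η⁻¹ * (η' * T) + C₂ * η * (C * T)) / (ε / 2)) := by
          rw [← ENNReal.ofReal_mul (by positivity), ← ENNReal.ofReal_mul (by positivity),
            ← ENNReal.ofReal_add (by positivity) (by positivity), he,
            ← ENNReal.ofReal_div_of_pos (by positivity)]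
      _ ≤ _ := by
          apply ENNReal.ofReal_le_ofReal
          rw [div_le_iff₀ (by positivity)]
          have h1 : C₂ * η⁻¹ * η' ≤ ε ^ 2 / 8 := by
            rw [hη']
            have h3 : C₂ * η⁻¹ * (ε ^ 2 * η / (8 * (C₂ + 1))) = ε ^ 2 / 8 * (C₂ / (C₂ + 1)) := by
              field_simp
            rw [h3]
            apply mul_le_of_le_one_right (by positivity)
            rw [div_le_one (by positivity)]
            linarith
          have h2 : C₂ * η * C ≤ ε ^ 2 / 8 := by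
            rw [hη]
            have h3 : C₂ * (ε ^ 2 / (8 * (C₂ * C + 1))) * C =
                ε ^ 2 / 8 * (C₂ * C / (C₂ * C + 1)) := by
              field_simp
            rw [h3]
            apply mul_le_of_le_one_right (by positivity)
            rw [div_le_one (by positivity)]
            linarith
          calc C₂ * η⁻¹ * (η' * T) + C₂ * η * (C * T)
              = (C₂ * η⁻¹ * η') * T + (C₂ * η * C) * T := by ring
            _ ≤ ε ^ 2 / 8 * T + ε ^ 2 / 8 * T := by gcongr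
            _ = ε / 2 * T * (ε / 2) := by ring
  calc volume {t : ℝ | t ∈ Ioc 0 T ∧ ε < ‖Zs W L t - Zo W L t‖}
      ≤ volume ({t | e ≤ R₁ t} ∩ Ioc 0 T) + volume ({t | e ≤ R₂ t} ∩ Ioc 0 T) :=
        (measure_mono hsub).trans (measure_union_le _ _)
    _ ≤ ENNReal.ofReal (ε / 4 * T) + ENNReal.ofReal (ε / 2 * T) := add_le_add hM1 hM2
    _ = ENNReal.ofReal (ε / 4 * T + ε / 2 * T) := by
        rw [ENNReal.ofReal_add (by positivity) (by positivity)]
    _ ≤ ENNReal.ofReal (ε * T) := by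
        apply ENNReal.ofReal_le_ofReal
        nlinarith

end Pool.Agent.H12.TP
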