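import Pool.Agent.H12.TP.Defs

/-!
# The convolution powers of a bump

PROOF.  `V 1` = a smooth bump, `≥ 0`, supported in `[1,2]`, `∫ V 1 = 1` (e.g. from `ContDiffBump` centred
at `3/2`, normalised), `V (n+1) v = ∫ V n s * V 1 (v - s) ds` (see `kK`, `kK_TF`, `Kc_kK` in PairCorr/P6_Rig
for the technique; `V 0` is irrelevant).  `Kc (V (n+1)) w = Kc (V n) w * Kc (V 1) w` (`integral_convolution`);
support in `[n, 2n]`; `V n ≥ 0`; `∫ V n = 1`; `V n ≤ B := sup V 1` (for `n+1`: `≤ B ∫ V n = B`); hence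
`∫ ρ1 v * V n v ^ 2 ≤ ∫ V n ^ 2 ≤ B` (`ρ1 ≤ 1`).
Last part: for `w = y' + i x'`, `y' ≥ y`, `|x'| ≤ x`:
`‖Kc (V 1) w‖ ≥ re (e^{-(3/2) i x'} Kc (V 1) w) = ∫ V 1 v e^{v y'} cos ((v - 3/2) x') dv ≥ e^{y} cos (x/2)`, which is
`≥ 1 + c` if `x ∈ (0,1]` is small, `c` being e.g. `y/2`: `e^y ≥ 1 + y`, `cos (x/2) ≥ 1 - x^2/8`.
-/

set_option autoImplicit false

namespace Pool.Agent.H12.TP

open MeasureTheory Filter Topology Set Real
open Pool.Agent.PairCorr Pool.Agent.PairCorr.P6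
open scoped ENNReal ArithmeticFunction.vonMangoldt Convolution

/-- the bump before normalisation -/
noncomputable def bpB : ContDiffBump (3 / 2 : ℝ) := ⟨1 / 4, 1 / 2, by norm_num, by norm_num⟩

/-- a smooth bump of mass 1, supported in `[1,2]` -/
noncomputable def bp (v : ℝ) : ℝ := bpB.normed volume v

lemma bp_smooth : ContDiff ℝ (⊤ : ℕ∞) bp := bpB.contDiff_normed

lemma bp_nonneg (v : ℝ) : 0 ≤ bp v := bpB.nonneg_normed v

lemma bp_int : ∫ v, bp v = 1 := bpB.integral_normed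

lemma bp_supp {v : ℝ} (hv : v ∉ Icc (1 : ℝ) 2) : bp v = 0 := by
  by_contra h
  have h1 : v ∈ Function.support (bpB.normed volume) := h
  rw [bpB.support_normed_eq, Metric.mem_ball, Real.dist_eq] at h1
  have h2 := abs_lt.1 h1
  have e : bpB.rOut = 1 / 2 := rfl
  rw [e] at h2
  exact hv ⟨by linarith [h2.1], by linarith [h2.2]⟩

lemma bp_PT : PT bp 1 2 := ⟨bp_smooth, one_pos, fun _ hv => bp_supp hv⟩

/-- the convolution powers -/
noncomputable def VV : ℕ → ℝ → ℝ
  | 0 => fun _ => 0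
  | 1 => bp
  | (n + 2) => fun v => ∫ s, VV (n + 1) s * bp (v - s)

lemma VV_succ (n : ℕ) (v : ℝ) : VV (n + 2) v = ∫ s, VV (n + 1) s * bp (v - s) := rfl

lemma VV_one : VV 1 = bp := rfl

lemma conv_PT {W : ℝ → ℝ} {a b : ℝ} (h : PT W a b) :
    PT (fun v => ∫ s, W s * bp (v - s)) (a + 1) (b + 2) := by
  refine ⟨?_, by linarith [h.pos], ?_⟩
  · exact bp_PT.tf.hasCompactSupport.contDiff_convolution_right (n := (⊤ : ℕ∞)) (μ := volume)
      (ContinuousLinearMap.mul ℝ ℝ) h.tf.integrable.locallyIntegrable bp_smooth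
  · intro v hv
    have hz : ∀ s, W s * bp (v - s) = 0 := by
      intro s
      by_cases hs : s ∈ Icc a b
      · have : v - s ∉ Icc (1 : ℝ) 2 := fun hm =>
          hv ⟨by linarith [hs.1, hm.1], by linarith [hs.2, hm.2]⟩
        rw [bp_supp this, mul_zero]
      · rw [h.supp s hs, zero_mul]
    simp_rw [hz]
    simp

lemma conv_Kc {W : ℝ → ℝ} {a b : ℝ} (hW : PT W a b) (w : ℂ) :
    Kc (fun v => ∫ s, W s * bp (v - s)) w = Kc W w * Kc bp w := by
  have i1 := hW.tf.integrable_exp w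
  have i2 := bp_PT.tf.integrable_exp w
  have h := integral_convolution (μ := volume) (ν := volume) (ContinuousLinearMap.mul ℂ ℂ) i1 i2
  simp only [ContinuousLinearMap.mul_apply'] at h
  unfold Kc
  rw [← h]
  congr 1
  ext x
  rw [convolution_def]
  simp only [ContinuousLinearMap.mul_apply']
  rw [← integral_complex_ofReal, ← integral_mul_const]
  congr 1
  ext t
  have e : Complex.exp (x * w) = Complex.exp (t * w) * Complex.exp (((x - t : ℝ) : ℂ) * w) := by
    rw [← Complex.exp_add]; congr 1; push_cast; ring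
  rw [e]
  push_cast; ring

lemma Kc_zero_ofReal (φ : ℝ → ℝ) : Kc φ 0 = ((∫ v, φ v : ℝ) : ℂ) := by
  unfold Kc
  simp only [mul_zero, Complex.exp_zero, mul_one]
  exact integral_complex_ofReal

lemma VV_PT (k : ℕ) : PT (VV (k + 1)) ((k + 1 : ℕ) : ℝ) (2 * ((k + 1 : ℕ) : ℝ)) := by
  induction k with
  | zero => simpa [VV_one] using bp_PT
  | succ k ih =>
    have := conv_PT ih
    refine this.mono ?_ (by positivity) ?_
    · push_cast; linarith
    · push_cast; linarith

lemma VV_nonneg (k : ℕ) (v : ℝ) : 0 ≤ VV (k + 1) v := by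
  induction k generalizing v with
  | zero => exact bp_nonneg v
  | succ k ih =>
    rw [VV_succ]
    exact integral_nonneg fun s => mul_nonneg (ih s) (bp_nonneg _)

lemma VV_Kc (k : ℕ) (w : ℂ) : Kc (VV (k + 1)) w = Kc bp w ^ (k + 1) := by
  induction k with
  | zero => simp [VV_one]
  | succ k ih =>
    have h := conv_Kc (VV_PT k) w
    rw [pow_succ, ← ih, ← h]
    rfl

lemma VV_int (k : ℕ) : ∫ v, VV (k + 1) v = 1 := by
  have h := VV_Kc k 0
  rw [Kc_zero_ofReal, Kc_zero_ofReal, bp_int] at h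
  simp only [Complex.ofReal_one, one_pow] at h
  exact_mod_cast h

lemma bp_bdd : ∃ B : ℝ, 0 < B ∧ ∀ v, bp v ≤ B := by
  obtain ⟨C, hC⟩ := bp_PT.tf.hasCompactSupport.exists_bound_of_continuous bp_PT.tf.cont
  refine ⟨|C| + 1, by positivity, fun v => ?_⟩
  have h1 := hC v
  rw [Real.norm_eq_abs] at h1
  linarith [le_abs_self (bp v), le_abs_self C]

lemma VV_le {B : ℝ} (hB : ∀ v, bp v ≤ B) (k : ℕ) (v : ℝ) : VV (k + 1) v ≤ B := by
  cases k with
  | zero => exact hB v
  | succ k =>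
    rw [VV_succ]
    calc ∫ s, VV (k + 1) s * bp (v - s) ≤ ∫ s, VV (k + 1) s * B := by
          apply integral_mono_of_nonneg
          · exact Eventually.of_forall fun s => mul_nonneg (VV_nonneg k s) (bp_nonneg _)
          · exact (VV_PT k).tf.integrable.mul_const _
          · exact Eventually.of_forall fun s => mul_le_mul_of_nonneg_left (hB _) (VV_nonneg k s)
      _ = B := by rw [integral_mul_const, VV_int, one_mul]

lemma rho1_le_one (v : ℝ) : ρ1 v ≤ 1 := min_le_right _ _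

lemma rho1_nonneg (v : ℝ) : 0 ≤ ρ1 v := le_min (abs_nonneg _) zero_le_one

lemma bp_norm {y : ℝ} (hy : 0 < y) {w : ℂ} (hi : |w.im| ≤ y / (1 + y)) (hr : y ≤ w.re) :
    1 + y / 2 ≤ ‖Kc bp w‖ := by
  have hx1 : y / (1 + y) ≤ 1 := by rw [div_le_one (by linarith)]; linarith
  have hx0 : 0 ≤ y / (1 + y) := by positivity
  have hu : ‖Complex.exp (((-(3 / 2) * w.im : ℝ) : ℂ) * Complex.I)‖ = 1 :=
    Complex.norm_exp_ofReal_mul_I _
  have h1 : ‖Kc bp w‖ = ‖Complex.exp (((-(3 / 2) * w.im : ℝ) : ℂ) * Complex.I) * Kc bp w‖ := by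
    rw [norm_mul, hu, one_mul]
  rw [h1]
  refine le_trans ?_ (Complex.re_le_norm _)
  have hI := bp_PT.tf.integrable_exp w
  have h2 : (Complex.exp (((-(3 / 2) * w.im : ℝ) : ℂ) * Complex.I) * Kc bp w).re =
      ∫ v : ℝ, bp v * (Real.exp (v * w.re) * Real.cos ((v - 3 / 2) * w.im)) := by
    unfold Kc
    rw [← integral_const_mul]
    have h3 := integral_re (hI.const_mul (Complex.exp (((-(3 / 2) * w.im : ℝ) : ℂ) * Complex.I)))
    simp only [RCLike.re_to_complex] at h3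
    rw [← h3]
    congr 1
    ext v
    have e : Complex.exp (((-(3 / 2) * w.im : ℝ) : ℂ) * Complex.I) * ((bp v : ℂ) * Complex.exp (v * w))
        = (bp v : ℂ) * Complex.exp (((v * w.re : ℝ) : ℂ) + (((v - 3 / 2) * w.im : ℝ) : ℂ) * Complex.I) := by
      have : ((v * w.re : ℝ) : ℂ) + (((v - 3 / 2) * w.im : ℝ) : ℂ) * Complex.I =
          (((-(3 / 2) * w.im : ℝ) : ℂ) * Complex.I) + v * w := by
        conv_rhs => rw [← Complex.re_add_im w]
        push_cast
        simp only [Complex.add_re, Complex.add_im, Complex.mul_re, Complex.mul_im, Complex.ofReal_re,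
          Complex.ofReal_im, Complex.I_re, Complex.I_im]
        push_cast
        ring
      rw [this, Complex.exp_add]
      ring
    rw [e, Complex.re_ofReal_mul, Complex.exp_re]
    congr 1
    simp
  rw [h2]
  have h4 : (1 + y / 2 : ℝ) = ∫ v : ℝ, bp v * (1 + y / 2) := by
    rw [integral_mul_const, bp_int, one_mul]
  rw [h4]
  apply integral_mono (bp_PT.tf.integrable.mul_const _)
  · apply Continuous.integrable_of_hasCompactSupport
    · have := bp_PT.tf.cont
      fun_prop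
    · exact bp_PT.tf.hasCompactSupport.mul_right
  · intro v
    show bp v * (1 + y / 2) ≤ bp v * (Real.exp (v * w.re) * Real.cos ((v - 3 / 2) * w.im))
    by_cases hv : v ∈ Icc (1 : ℝ) 2
    · apply mul_le_mul_of_nonneg_left _ (bp_nonneg v)
      have e1 : 1 + y ≤ Real.exp (v * w.re) := by
        have : y ≤ v * w.re := by nlinarith [hv.1]
        linarith [Real.add_one_le_exp (v * w.re)]
      have e2 : 1 - ((v - 3 / 2) * w.im) ^ 2 / 2 ≤ Real.cos ((v - 3 / 2) * w.im) :=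
        Real.one_sub_sq_div_two_le_cos
      have e3 : ((v - 3 / 2) * w.im) ^ 2 ≤ 1 / 4 * (y / (1 + y)) := by
        rw [mul_pow]
        have f1 : (v - 3 / 2) ^ 2 ≤ 1 / 4 := by nlinarith [hv.1, hv.2]
        have f2 : w.im ^ 2 ≤ y / (1 + y) := by
          rw [← sq_abs]
          nlinarith [abs_nonneg w.im]
        exact mul_le_mul f1 f2 (sq_nonneg _) (by norm_num)
      have e4 : 1 - 1 / 8 * (y / (1 + y)) ≤ Real.cos ((v - 3 / 2) * w.im) := by linarith
      have e5 : 0 ≤ 1 - 1 / 8 * (y / (1 + y)) := by linarith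
      have e6 : (1 + y) * (1 - 1 / 8 * (y / (1 + y))) ≤
          Real.exp (v * w.re) * Real.cos ((v - 3 / 2) * w.im) :=
        mul_le_mul e1 e4 e5 (Real.exp_pos _).le
      have e7 : (1 + y) * (1 - 1 / 8 * (y / (1 + y))) = 1 + y - 1 / 8 * y := by
        have : (1 + y) ≠ 0 := by positivity
        field_simp
      rw [e7] at e6
      linarith
    · rw [bp_supp hv]; simp

theorem exists_family : ∃ (V : ℕ → ℝ → ℝ) (B : ℝ), 0 < B ∧
    (∀ n : ℕ, 1 ≤ n → PT (V n) n (2 * n) ∧ (∀ v, 0 ≤ V n v) ∧ (∫ v, ρ1 v * V n v ^ 2) ≤ B ∧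
      ∀ w : ℂ, Kc (V n) w = Kc (V 1) w ^ n) ∧
    (∀ y : ℝ, 0 < y → ∃ x : ℝ, 0 < x ∧ x ≤ 1 ∧ ∃ c : ℝ, 0 < c ∧ ∀ w : ℂ, |w.im| ≤ x → y ≤ w.re →
      1 + c ≤ ‖Kc (V 1) w‖) := by
  obtain ⟨B, hB0, hB⟩ := bp_bdd
  refine ⟨VV, B, hB0, ?_, ?_⟩
  · intro n hn
    obtain ⟨k, rfl⟩ : ∃ k, n = k + 1 := ⟨n - 1, by omega⟩
    refine ⟨VV_PT k, VV_nonneg k, ?_, VV_Kc k⟩
    calc ∫ v, ρ1 v * VV (k + 1) v ^ 2 ≤ ∫ v, VV (k + 1) v * B := by
          apply integral_mono_of_nonneg
          · exact Eventually.of_forall fun v => mul_nonneg (rho1_nonneg v) (sq_nonneg _)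
          · exact (VV_PT k).tf.integrable.mul_const _
          · refine Eventually.of_forall fun v => ?_
            have h0 := VV_nonneg k v
            have h1 := VV_le hB k v
            show ρ1 v * VV (k + 1) v ^ 2 ≤ VV (k + 1) v * B
            calc ρ1 v * VV (k + 1) v ^ 2 ≤ 1 * VV (k + 1) v ^ 2 :=
                  mul_le_mul_of_nonneg_right (rho1_le_one v) (sq_nonneg _)
              _ = VV (k + 1) v * VV (k + 1) v := by ring
              _ ≤ VV (k + 1) v * B := mul_le_mul_of_nonneg_left h1 h0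
      _ = B := by rw [integral_mul_const, VV_int, one_mul]
  · intro y hy
    refine ⟨y / (1 + y), by positivity, ?_, y / 2, by positivity, fun w hi hr => bp_norm hy hi hr⟩
    rw [div_le_one (by linarith)]; linarith

end Pool.Agent.H12.TP
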