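import Mathlib
import Pool.Agent.PairCorr.P6_Main
import Pool.Agent.PairCorr.A_SignMain2
import Pool.Agent.PairCorr.A_Sym

/-!
Truncated mean squares of prime sums and the pair correlation of zeros (MP_f58427_nt):
shared definitions.

`L = log T`.  For a zero `z` and a height `t` put `w = L (z - (1/2 + i t))`; its real part is
`L (Re z - 1/2)`, its imaginary part `L (Im z - t)`.
-/

set_option autoImplicit false

namespace Pool.Agent.H12.TP

open MeasureTheory Filter Topology Set Real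
open Pool.Agent.PairCorr Pool.Agent.PairCorr.P6
open scoped ENNReal ArithmeticFunction.vonMangoldt

/-- `W` is smooth and vanishes outside `[a,b]`, where `0 < a`. -/
structure PT (W : ℝ → ℝ) (a b : ℝ) : Prop where
  smooth : ContDiff ℝ (⊤ : ℕ∞) W
  pos : 0 < a
  supp : ∀ v, v ∉ Icc a b → W v = 0

/-- The normalised prime sum `(1/log T) ∑ Λ(n) n^{-1/2-it} W(log n / log T)`. -/
noncomputable def PS (W : ℝ → ℝ) (T t : ℝ) : ℂ :=
  (∑' n : ℕ, (Λ n : ℂ) * (n : ℂ) ^ (-(1 / 2 + t * Complex.I)) *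
    (W (Real.log n / Real.log T) : ℂ)) / Real.log T

/-- The truncated mean square of the prime sum. -/
noncomputable def TM (W : ℝ → ℝ) (M T : ℝ) : ℝ :=
  T⁻¹ * ∫ t in (0 : ℝ)..T, min (‖PS W T t‖ ^ 2) M

/-- (2) of the theorem: the upper bound. -/
def TrimUB : Prop := ∀ (W : ℝ → ℝ) (a b : ℝ), PT W a b → (∀ v, 0 ≤ W v) → ∀ M : ℝ, 0 < M →
  ∀ ε : ℝ, 0 < ε → ∀ᶠ T : ℝ in atTop, TM W M T ≤ (∫ v, ρ1 v * W v ^ 2) + ε

/-- (3) of the theorem: the asymptotic formula. -/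
def TrimLim : Prop := ∀ (W : ℝ → ℝ) (a b : ℝ), PT W a b → ∀ ε : ℝ, 0 < ε → ∃ M₀ : ℝ, ∀ M : ℝ, M₀ ≤ M →
  ∀ᶠ T : ℝ in atTop, |TM W M T - ∫ v, ρ1 v * W v ^ 2| ≤ ε

/-- The zero sum over the ordinates: the zeros are moved horizontally to the critical line. -/
noncomputable def Zo (ψ : ℝ → ℝ) (L t : ℝ) : ℂ :=
  ∫ z, Kc ψ ((L * (z.im - t) : ℝ) * Complex.I) ∂muZ

/-- The normalised pair sum over ordinates. -/
noncomputable def S0 (k : ℝ → ℝ) (T : ℝ) : ℝ := (Spair0 k T).re / NT T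

/-- The smooth weighted local count of zeros near height `t`. -/
noncomputable def Qs (c T t : ℝ) : ℝ≥0∞ :=
  ∫⁻ z, ENNReal.ofReal (wgt c T z * ((1 + |Real.log T * (z.im - t)|) ^ 4)⁻¹) ∂muZ

/-- The zeros far off the line near height `t` -/
def OffAt (x y T t : ℝ) : Prop :=
  ∃ z ∈ NTZ, |Real.log T * (z.im - t)| ≤ x ∧ y ≤ Real.log T * (z.re - 1 / 2)

variable {W : ℝ → ℝ} {a b : ℝ}

lemma PT.tf (h : PT W a b) : TF W b where
  smooth := h.smooth
  supp := by
    intro v hv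
    apply h.supp
    intro hm
    have h1 := h.pos
    rw [abs_of_nonneg (by linarith [hm.1])] at hv
    linarith [hm.2]

lemma PT.mono {a' b' : ℝ} (h : PT W a b) (ha : a' ≤ a) (ha' : 0 < a') (hb : b ≤ b') : PT W a' b' where
  smooth := h.smooth
  pos := ha'
  supp := fun v hv => h.supp v fun hm => hv ⟨ha.trans hm.1, hm.2.trans hb⟩

lemma PT.zero_of_nonpos (h : PT W a b) {v : ℝ} (hv : v ≤ 0) : W v = 0 :=
  h.supp v fun hm => by linarith [hm.1, h.pos]

end Pool.Agent.H12.TP
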