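import Pool.Agent.H12.TP.Basic

/-!
# Pointwise explicit formula for test functions supported in `(0,∞)`

PROOF.  Take a cutoff (`exists_cutoff : ∃ η η1 η2 M, Cutoff1 η η1 η2 M`) and apply `explicit_formula`
(PairCorr/C_EF2) to `φ v = W (v / L) / L` (`TF.scale`), `L = log T`; see the proof of
`approx_formula` (PairCorr/C_Approx) for the same manipulation.  The prime terms are
`tsum_primeTerm`, `tsum_primeTerm_neg` (Basic).  Hence exactly
`Zs W L t + PS W T t = Kc W (L (1/2 - i t)) + (2π)⁻¹ * Arch φ η1 η2 t`.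
(1) Pole term: by `TF.decay_one_add` with exponent `j > b + 1`, `‖Kc W w‖ ≤ C e^{b |re w|} (1+‖w‖)^{-j}`,
with `re w = L/2`, `‖w‖ ≥ L t ≥ t ≥ √T`: at most `C T^{b/2} T^{-j/2} → 0`.
(2) `Arch φ η1 η2 t = ∫_{re z < 0} Xi z * Lap (kS φ t) η1 η2 z`; `Lap k = 2 k' η1(re z) + k η2(re z)`
vanishes unless `-1 < re z < -1/2` (`Cutoff.z1, z2`, `Cutoff1.one1, one2`).  There, since `W` is
supported in `[a,b]`, `a > 0`: `‖Kc W w‖ ≤ C_j e^{a re w} (1+‖w‖)^{-j}` for `re w ≤ 0` (write
`w^j Kc W w = ± Kc (W^{(j)}) w`, `TF.mul_Kc`; the derivatives are supported in `[a,b]` too, and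
`‖Kc V w‖ ≤ ∫ |V v| e^{v re w} dv ≤ e^{a re w} ∫ |V|`).  With `w = L (z - 1/2 - it)`, `re w ≤ - L`, so
`‖kS φ t z‖ ≤ C T^{-a} (1+|im z - t|)^{-4}`; and `deriv (kS φ t) = kS (v φ v) t` (`kS_deriv`), where
`v φ v = (v/L) W(v/L)`, costs only a factor `L` more.  `|Xi z| ≤ 2 log((1+|t|)/2π) + C (1+|im z - t|)^2 + C`
on the strip (`Xi_uniform`).  The integral over the strip (width `1/2`) is `≤ C T^{-a} L (log T + C) → 0`
uniformly in `0 ≤ t ≤ T`.
-/

set_option autoImplicit false

namespace Pool.Agent.H12.TP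

open MeasureTheory Filter Topology Set Real
open Pool.Agent.PairCorr Pool.Agent.PairCorr.P6
open scoped ENNReal ArithmeticFunction.vonMangoldt

variable {W : ℝ → ℝ} {a b : ℝ}

lemma PT.deriv (h : PT W a b) : PT (_root_.deriv W) a b where
  smooth := (contDiff_infty_iff_deriv.1 h.smooth).2
  pos := h.pos
  supp := by
    intro v hv
    have hopen : IsOpen (Icc a b)ᶜ := isClosed_Icc.isOpen_compl
    have : W =ᶠ[𝓝 v] fun _ => 0 := by
      filter_upwards [hopen.mem_nhds hv] with x hx using h.supp x hx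
    rw [this.deriv_eq]; simp

lemma PT.mul_id (h : PT W a b) : PT (fun v => v * W v) a b where
  smooth := contDiff_id.mul h.smooth
  pos := h.pos
  supp := by intro v hv; simp [h.supp v hv]

lemma PT.norm_Kc_left (h : PT W a b) {w : ℂ} (hw : w.re ≤ 0) :
    ‖Kc W w‖ ≤ Real.exp (a * w.re) * ∫ v, |W v| := by
  unfold Kc
  refine (norm_integral_le_integral_norm _).trans ?_
  rw [← integral_const_mul]
  refine integral_mono (h.tf.integrable_exp w).norm (h.tf.integrable.abs.const_mul _) (fun v => ?_)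
  simp only
  rw [norm_mul, Complex.norm_real, Real.norm_eq_abs, Complex.norm_exp, mul_comm]
  by_cases hv : v ∈ Icc a b
  · apply mul_le_mul_of_nonneg_right _ (abs_nonneg _)
    apply Real.exp_le_exp.2
    simp only [Complex.mul_re, Complex.ofReal_re, Complex.ofReal_im, zero_mul, sub_zero]
    exact mul_le_mul_of_nonpos_right hv.1 hw
  · rw [h.supp v hv]; simp

lemma PT.decay_left (h : PT W a b) (j : ℕ) : ∃ C : ℝ, 0 ≤ C ∧ ∀ w : ℂ, w.re ≤ 0 →
    ‖w‖ ^ j * ‖Kc W w‖ ≤ C * Real.exp (a * w.re) := by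
  induction j generalizing W with
  | zero =>
    refine ⟨∫ v, |W v|, integral_nonneg fun _ => abs_nonneg _, fun w hw => ?_⟩
    have := h.norm_Kc_left hw
    simp only [pow_zero, one_mul]
    linarith [mul_comm (∫ v, |W v|) (Real.exp (a * w.re))]
  | succ j ih =>
    obtain ⟨C, hC0, hC⟩ := ih h.deriv
    refine ⟨C, hC0, fun w hw => ?_⟩
    have h1 := hC w hw
    have h2 : ‖w‖ * ‖Kc W w‖ = ‖Kc (_root_.deriv W) w‖ := by
      rw [← norm_mul, h.tf.mul_Kc, norm_neg]
    rw [pow_succ, mul_assoc, h2]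
    exact h1

lemma PT.decay_one_add_left (h : PT W a b) (j : ℕ) : ∃ C : ℝ, 0 ≤ C ∧ ∀ w : ℂ, w.re ≤ 0 →
    (1 + ‖w‖) ^ j * ‖Kc W w‖ ≤ C * Real.exp (a * w.re) := by
  obtain ⟨C0, hC0, h0⟩ := h.decay_left 0
  obtain ⟨C1, hC1, h1⟩ := h.decay_left j
  refine ⟨2 ^ j * (C0 + C1), by positivity, fun w hw => ?_⟩
  have hK := norm_nonneg (Kc W w)
  have e : (1 + ‖w‖) ^ j ≤ 2 ^ j * (1 + ‖w‖ ^ j) := by
    rcases le_total ‖w‖ 1 with hw | hw
    · calc (1 + ‖w‖) ^ j ≤ 2 ^ j := by
            apply pow_le_pow_left₀ (by positivity); linarith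
        _ ≤ 2 ^ j * (1 + ‖w‖ ^ j) := by
            apply le_mul_of_one_le_right (by positivity)
            linarith [pow_nonneg (norm_nonneg w) j]
    · calc (1 + ‖w‖) ^ j ≤ (2 * ‖w‖) ^ j := by
            apply pow_le_pow_left₀ (by positivity); linarith
        _ = 2 ^ j * ‖w‖ ^ j := mul_pow _ _ _
        _ ≤ 2 ^ j * (1 + ‖w‖ ^ j) := by
            apply mul_le_mul_of_nonneg_left _ (by positivity)
            linarith
  have h0' := h0 w hw
  have h1' := h1 w hw
  simp only [pow_zero, one_mul] at h0'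
  calc (1 + ‖w‖) ^ j * ‖Kc W w‖ ≤ 2 ^ j * (1 + ‖w‖ ^ j) * ‖Kc W w‖ :=
        mul_le_mul_of_nonneg_right e hK
    _ = 2 ^ j * (‖Kc W w‖ + ‖w‖ ^ j * ‖Kc W w‖) := by ring
    _ ≤ 2 ^ j * (C0 * Real.exp (a * w.re) + C1 * Real.exp (a * w.re)) := by
        apply mul_le_mul_of_nonneg_left _ (by positivity)
        linarith
    _ = _ := by ring

/-- the scaled kernel far to the left -/
lemma PT.scaled_left (h : PT W a b) : ∃ C : ℝ, 0 ≤ C ∧ ∀ L : ℝ, 1 ≤ L → ∀ (t : ℝ) (z : ℂ),
    z.re ≤ -1/2 →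
    ‖Kc W (L * (z - (1/2 + t * Complex.I)))‖ * (1 + |z.im - t|) ^ 4 ≤ C * Real.exp (-(a * L)) := by
  obtain ⟨C, hC0, hC⟩ := h.decay_one_add_left 4
  refine ⟨C, hC0, fun L hL t z hz => ?_⟩
  have hL0 : 0 < L := by linarith
  have hre : (L * (z - (1/2 + t * Complex.I)) : ℂ).re = L * (z.re - 1/2) := by simp
  have him : (L * (z - (1/2 + t * Complex.I)) : ℂ).im = L * (z.im - t) := by simp
  have hre0 : (L * (z - (1/2 + t * Complex.I)) : ℂ).re ≤ -L := by rw [hre]; nlinarith
  have h1 := hC (L * (z - (1/2 + t * Complex.I))) (by linarith)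
  refine le_trans ?_ (h1.trans ?_)
  · rw [mul_comm]
    apply mul_le_mul_of_nonneg_right _ (norm_nonneg _)
    apply pow_le_pow_left₀ (by positivity)
    have := Complex.abs_im_le_norm (L * (z - (1/2 + t * Complex.I)) : ℂ)
    rw [him, abs_mul, abs_of_pos hL0] at this
    nlinarith [abs_nonneg (z.im - t)]
  · apply mul_le_mul_of_nonneg_left _ hC0
    apply Real.exp_le_exp.2
    have := mul_le_mul_of_nonneg_left hre0 h.pos.le
    linarith

variable {η η1 η2 : ℝ → ℝ} {M : ℝ}

/-- the archimedean term is exponentially small in `L` -/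
lemma arch_small (h : PT W a b) (hc : Cutoff1 η η1 η2 M) : ∃ C : ℝ, 0 ≤ C ∧ ∀ L : ℝ, 1 ≤ L →
    ∀ t : ℝ, |Real.log ((1 + |t|) / (2 * π))| ≤ L →
      ‖Arch (fun v => W (v / L) / L) η1 η2 t‖ ≤ C * (L ^ 2 * Real.exp (-(a * L))) := by
  obtain ⟨CX, hCX0, hCX⟩ := Xi_uniform
  obtain ⟨C1, hC1, h1⟩ := h.scaled_left
  obtain ⟨C2, hC2, h2⟩ := h.mul_id.scaled_left
  have hM := hc.M_nonneg
  refine ⟨(3/2 + CX) * (2 * M * C2 + M * C1) * π, by positivity, fun L hL t hlog => ?_⟩
  have hL0 : 0 < L := by linarith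
  have hm2 : MeasurableSet {z : ℂ | z.re < 0} := measurableSet_lt Complex.measurable_re measurable_const
  have hφ := h.tf.scale hL0
  set φ : ℝ → ℝ := fun v => W (v / L) / L with hφdef
  set ℓ : ℝ := Real.log ((1 + |t|) / (2 * π)) with hℓ
  have ht := abs_nonneg t
  have hk : ∀ z : ℂ, ‖kS φ t z‖ = ‖Kc W (L * (z - (1/2 + t * Complex.I)))‖ := by
    intro z
    unfold kS
    rw [hφdef, Kc_scale W hL0]
  have hk' : ∀ z : ℂ, ‖_root_.deriv (kS φ t) z‖ = L * ‖Kc (fun v => v * W v) (L * (z - (1/2 + t * Complex.I)))‖ := by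
    intro z
    rw [kS_deriv hφ]
    unfold kS
    rw [← Kc_scale (fun v => v * W v) hL0]
    have : (fun v => v * φ v) = fun v => L * ((fun v => v * W v) (v / L) / L) := by
      funext v
      simp only [hφdef]
      field_simp
    rw [this]
    have e : Kc (fun v => L * ((fun v => v * W v) (v / L) / L)) (z - (1/2 + t * Complex.I)) =
        L * Kc (fun v => (fun v => v * W v) (v / L) / L) (z - (1/2 + t * Complex.I)) := by
      unfold Kc
      rw [← integral_const_mul]
      congr 1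
      ext v
      push_cast; ring
    rw [e, norm_mul, Complex.norm_real, Real.norm_of_nonneg hL0.le]
  set A : ℝ := (3/2 + CX) * (2 * M * C2 + M * C1) * (L ^ 2 * Real.exp (-(a * L))) with hA
  have hA0 : 0 ≤ A := by positivity
  have hpt : ∀ z : ℂ, ‖{z : ℂ | z.re < 0}.indicator (fun z => (Xi z : ℂ) *
      Lap (kS φ t) η1 η2 z) z‖ ≤
      A * ((Icc (-1:ℝ) 0).indicator (fun _ => (1:ℝ)) z.re * (1 + (z.im - t) ^ 2)⁻¹) := by
    intro z
    by_cases hz : z ∈ {z : ℂ | z.re < 0}
    · rw [indicator_of_mem hz]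
      have hz' : z.re < 0 := hz
      by_cases hz1 : z.re < -1
      · rw [Lap_out hc (Or.inl hz1.le), mul_zero, norm_zero]
        rw [indicator_of_notMem (by intro h; linarith [h.1])]
        simp
      · push Not at hz1
        by_cases hz2 : z.re ≤ -1/2
        · rw [indicator_of_mem (by exact ⟨hz1, hz'.le⟩), one_mul, norm_mul, Complex.norm_real, Real.norm_eq_abs]
          have hx := hCX z.re z.im t hz1 hz2
          have hzz : (z.re : ℂ) + z.im * Complex.I = z := Complex.re_add_im z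
          rw [hzz] at hx
          have e1 := h1 L hL t z hz2
          have e2 := h2 L hL t z hz2
          set s := |z.im - t| with hs
          have hs0 : 0 ≤ s := abs_nonneg _
          have hXi : |Xi z| ≤ (3/2 + CX) * (L * (1 + s) ^ 2) := by
            have g1 : |(1/2 - z.re) * ℓ| ≤ 3/2 * L := by
              rw [abs_mul]
              apply mul_le_mul _ hlog (abs_nonneg _) (by norm_num)
              rw [abs_le]; constructor <;> linarith
            have g2 : CX * (1 + s) ^ 2 / (1 + |t|) ≤ CX * (1 + s) ^ 2 := by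
              apply div_le_self (by positivity); linarith
            have g3 : |Xi z| ≤ |Xi z - (1/2 - z.re) * ℓ| + |(1/2 - z.re) * ℓ| := by
              have := abs_add_le (Xi z - (1/2 - z.re) * ℓ) ((1/2 - z.re) * ℓ)
              simpa using this
            have g4 : 1 ≤ (1 + s) ^ 2 := by nlinarith
            have g5 : CX * (1 + s) ^ 2 ≤ CX * (L * (1 + s) ^ 2) := by
              apply mul_le_mul_of_nonneg_left _ hCX0
              exact le_mul_of_one_le_left (by positivity) hL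
            have g6 : L ≤ L * (1 + s) ^ 2 := le_mul_of_one_le_right hL0.le g4
            nlinarith
          have hLap : ‖Lap (kS φ t) η1 η2 z‖ * (1 + s) ^ 4 ≤
              (2 * M * C2 + M * C1) * (L * Real.exp (-(a * L))) := by
            have l1 : ‖Lap (kS φ t) η1 η2 z‖ ≤ 2 * M * (L * ‖Kc (fun v => v * W v) (L * (z - (1/2 + t * Complex.I)))‖) +
                M * ‖Kc W (L * (z - (1/2 + t * Complex.I)))‖ := by
              unfold Lap
              refine (norm_add_le _ _).trans ?_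
              rw [norm_mul, norm_mul, norm_mul, Complex.norm_real, Complex.norm_real, Real.norm_eq_abs,
                Real.norm_eq_abs, Complex.norm_ofNat, hk', hk]
              have b1 := hc.b1 z.re
              have b2 := hc.b2 z.re
              apply add_le_add
              · calc 2 * (L * ‖Kc (fun v => v * W v) (L * (z - (1/2 + t * Complex.I)))‖) * |η1 z.re|
                    ≤ 2 * (L * ‖Kc (fun v => v * W v) (L * (z - (1/2 + t * Complex.I)))‖) * M :=
                      mul_le_mul_of_nonneg_left b1 (by positivity)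
                  _ = _ := by ring
              · rw [mul_comm]
                exact mul_le_mul_of_nonneg_right b2 (norm_nonneg _)
            calc ‖Lap (kS φ t) η1 η2 z‖ * (1 + s) ^ 4 ≤
                (2 * M * (L * ‖Kc (fun v => v * W v) (L * (z - (1/2 + t * Complex.I)))‖) +
                M * ‖Kc W (L * (z - (1/2 + t * Complex.I)))‖) * (1 + s) ^ 4 :=
                  mul_le_mul_of_nonneg_right l1 (by positivity)
              _ = 2 * M * L * (‖Kc (fun v => v * W v) (L * (z - (1/2 + t * Complex.I)))‖ * (1 + s) ^ 4) +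
                M * (‖Kc W (L * (z - (1/2 + t * Complex.I)))‖ * (1 + s) ^ 4) := by ring
              _ ≤ 2 * M * L * (C2 * Real.exp (-(a * L))) + M * (C1 * Real.exp (-(a * L))) := by
                  gcongr
              _ ≤ 2 * M * L * (C2 * Real.exp (-(a * L))) + M * (C1 * (L * Real.exp (-(a * L)))) := by
                  have g4 : Real.exp (-(a * L)) ≤ L * Real.exp (-(a * L)) :=
                    le_mul_of_one_le_left (Real.exp_pos _).le hL
                  gcongr
              _ = _ := by ring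
          have hD : (1 + s ^ 2) ≤ (1 + s) ^ 2 := by nlinarith
          have hs2 : (z.im - t) ^ 2 = s ^ 2 := by rw [hs, sq_abs]
          rw [hs2, ← div_eq_mul_inv, le_div_iff₀ (by positivity)]
          calc |Xi z| * ‖Lap (kS φ t) η1 η2 z‖ * (1 + s ^ 2)
              ≤ ((3/2 + CX) * (L * (1 + s) ^ 2)) * ‖Lap (kS φ t) η1 η2 z‖ * (1 + s) ^ 2 := by
                gcongr
            _ = (3/2 + CX) * L * (‖Lap (kS φ t) η1 η2 z‖ * (1 + s) ^ 4) := by ring
            _ ≤ (3/2 + CX) * L * ((2 * M * C2 + M * C1) * (L * Real.exp (-(a * L)))) := by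
                gcongr
            _ = A := by rw [hA]; ring
        · push Not at hz2
          rw [Lap_mid hc hz2.le (by linarith), mul_zero, norm_zero]
          apply mul_nonneg hA0
          apply mul_nonneg _ (by positivity)
          exact indicator_nonneg (fun _ _ => zero_le_one) _
    · rw [indicator_of_notMem hz, norm_zero]
      apply mul_nonneg hA0
      apply mul_nonneg _ (by positivity)
      exact indicator_nonneg (fun _ _ => zero_le_one) _
  obtain ⟨hsi, hsv⟩ := integral_half_strip t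
  unfold Arch
  rw [← integral_indicator hm2]
  have hb : ‖∫ z : ℂ, {z : ℂ | z.re < 0}.indicator (fun z => (Xi z : ℂ) * Lap (kS φ t) η1 η2 z) z‖ ≤
      ∫ z : ℂ, A * ((Icc (-1:ℝ) 0).indicator (fun _ => (1:ℝ)) z.re * (1 + (z.im - t) ^ 2)⁻¹) :=
    norm_integral_le_of_norm_le (hsi.const_mul A) (Eventually.of_forall hpt)
  rw [integral_const_mul, hsv] at hb
  refine hb.trans (le_of_eq ?_)
  rw [hA]; ring

lemma sqexp_tendsto {a : ℝ} (ha : 0 < a) (C : ℝ) :
    Tendsto (fun T : ℝ => C * ((Real.log T) ^ 2 * Real.exp (-(a * Real.log T)))) atTop (𝓝 0) := by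
  have h1 : Tendsto (fun x : ℝ => x ^ 2 * Real.exp (-(a * x))) atTop (𝓝 0) := by
    have h2 := Real.tendsto_pow_mul_exp_neg_atTop_nhds_zero 2
    have h3 : Tendsto (fun x : ℝ => a * x) atTop atTop := tendsto_id.const_mul_atTop ha
    have h4 := (h2.comp h3).const_mul (a ^ 2)⁻¹
    rw [mul_zero] at h4
    refine h4.congr fun x => ?_
    simp only [Function.comp]
    field_simp
  have h5 := (h1.comp Real.tendsto_log_atTop).const_mul C
  rw [mul_zero] at h5
  exact h5

theorem explicit_pos (h : PT W a b) {ε : ℝ} (hε : 0 < ε) :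
    ∀ᶠ T : ℝ in atTop, ∀ t ∈ Icc (√T) T, ‖Zs W (Real.log T) t + PS W T t‖ ≤ ε := by
  obtain ⟨η, η1, η2, M, hc⟩ := exists_cutoff
  obtain ⟨C1, hC1, h1⟩ := arch_small h hc
  obtain ⟨j, hj⟩ := exists_nat_gt (b + 1)
  obtain ⟨C2, hC2, h2⟩ := h.tf.decay_one_add j
  have e1 := (sqexp_tendsto h.pos C1).eventually_lt_const (show (0:ℝ) < ε / 2 by linarith)
  have e2 : Tendsto (fun T : ℝ => C2 * T ^ (-(1/2) : ℝ)) atTop (𝓝 0) := by
    have := (tendsto_rpow_neg_atTop (y := 1/2) (by norm_num)).const_mul C2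
    rwa [mul_zero] at this
  have e3 := e2.eventually_lt_const (show (0:ℝ) < ε / 2 by linarith)
  have hpi := Real.pi_gt_three
  have hpi4 := Real.pi_lt_four
  filter_upwards [e1, e3, eventually_ge_atTop (Real.exp 1), eventually_ge_atTop (64 : ℝ)]
    with T hT1 hT2 hTe hT64 t ht
  have hT0 : 0 < T := by linarith
  have hL1 : 1 ≤ Real.log T := by rw [Real.le_log_iff_exp_le hT0]; exact hTe
  have hL0 : 0 < Real.log T := by linarith
  set L := Real.log T with hL
  have hsq8 : 8 ≤ √T := by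
    rw [show (8:ℝ) = √64 by rw [show (64:ℝ) = 8 ^ 2 by norm_num, Real.sqrt_sq (by norm_num)]]
    exact Real.sqrt_le_sqrt hT64
  have ht8 : 8 ≤ t := hsq8.trans ht.1
  have ht0 : 0 < t := by linarith
  have habs : |t| = t := abs_of_pos ht0
  have hlog : |Real.log ((1 + |t|) / (2 * π))| ≤ L := by
    rw [habs]
    have g1 : 1 ≤ (1 + t) / (2 * π) := by
      rw [le_div_iff₀ (by positivity)]; linarith
    rw [abs_of_nonneg (Real.log_nonneg g1), hL]
    apply Real.log_le_log (by positivity)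
    rw [div_le_iff₀ (by positivity)]
    nlinarith [ht.2]
  have hA := h1 L hL1 t hlog
  have hφ := h.tf.scale hL0
  have hef := explicit_formula hφ hc t
  have hZ : ∫ z, kS (fun v => W (v / L) / L) t z ∂muZ = Zs W L t := by
    unfold Zs kS
    simp_rw [Kc_scale W hL0]
  have hP1 := tsum_primeTerm h hL0 t
  have hP2 := tsum_primeTerm_neg h hL0 (-t)
  have hPS : PS W T t = ∑' n : ℕ, primeTerm (fun v => W (v / L) / L) t n := by
    rw [hP1]; rfl
  have hk1 : kS (fun v => W (v / L) / L) t 1 = Kc W (L * (1 - (1/2 + t * Complex.I))) := by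
    unfold kS
    rw [Kc_scale W hL0]
  rw [hZ, hP2, hk1, ← hPS] at hef
  have hkey : Zs W L t + PS W T t = Kc W (L * (1 - (1/2 + t * Complex.I))) +
      (2 * π : ℂ)⁻¹ * Arch (fun v => W (v / L) / L) η1 η2 t := by
    rw [hef]; push_cast; ring
  rw [hkey]
  refine (norm_add_le _ _).trans ?_
  have b2 : ‖(2 * π : ℂ)⁻¹ * Arch (fun v => W (v / L) / L) η1 η2 t‖ ≤ ε / 2 := by
    rw [norm_mul]
    refine le_trans ?_ hT1.le
    refine le_trans ?_ hA
    apply mul_le_of_le_one_left (norm_nonneg _)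
    rw [norm_inv]
    apply inv_le_one_of_one_le₀
    rw [norm_mul, Complex.norm_ofNat, Complex.norm_real, Real.norm_of_nonneg (by linarith)]
    linarith
  have b1 : ‖Kc W (L * (1 - (1/2 + t * Complex.I)))‖ ≤ ε / 2 := by
    have g1 := h2 (L * (1 - (1/2 + t * Complex.I)))
    set w : ℂ := (L * (1 - (1/2 + t * Complex.I)) : ℂ) with hw
    have hre : w.re = L / 2 := by rw [hw]; simp; ring
    have him : w.im = -(L * t) := by rw [hw]; simp
    have hnorm : √T ≤ 1 + ‖w‖ := by
      have := Complex.abs_im_le_norm w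
      rw [him, abs_neg, abs_of_pos (mul_pos hL0 ht0)] at this
      have h5 : t ≤ L * t := le_mul_of_one_le_left ht0.le hL1
      linarith [ht.1]
    have hexp : Real.exp (b * |w.re|) = T ^ (b / 2 : ℝ) := by
      rw [hre, abs_of_pos (by positivity), Real.rpow_def_of_pos hT0]
      congr 1; rw [← hL]; ring
    rw [hexp] at g1
    have hsqj : T ^ ((j : ℝ) / 2) ≤ (1 + ‖w‖) ^ j := by
      calc T ^ ((j : ℝ) / 2) = (√T) ^ j := by
            rw [Real.sqrt_eq_rpow, ← Real.rpow_natCast, ← Real.rpow_mul hT0.le]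
            congr 1; ring
        _ ≤ _ := pow_le_pow_left₀ (by positivity) hnorm j
    have g2 : T ^ ((j : ℝ) / 2) * ‖Kc W w‖ ≤ C2 * T ^ (b / 2 : ℝ) :=
      (mul_le_mul_of_nonneg_right hsqj (norm_nonneg _)).trans g1
    have g3 : ‖Kc W w‖ ≤ C2 * T ^ (b / 2 - (j : ℝ) / 2) := by
      rw [Real.rpow_sub hT0, ← mul_div_assoc, le_div_iff₀ (by positivity), mul_comm]
      exact g2
    have g4 : T ^ (b / 2 - (j : ℝ) / 2) ≤ T ^ (-(1/2) : ℝ) := by
      apply Real.rpow_le_rpow_of_exponent_le (by linarith)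
      linarith
    calc ‖Kc W w‖ ≤ C2 * T ^ (b / 2 - (j : ℝ) / 2) := g3
      _ ≤ C2 * T ^ (-(1/2) : ℝ) := mul_le_mul_of_nonneg_left g4 hC2
      _ ≤ ε / 2 := hT2.le
  linarith

end Pool.Agent.H12.TP
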