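import Pool.Agent.H12.TP.MeanO
import Pool.Agent.H12.TP.QM

/-!
# Fourth moment of the zero sum over ordinates

PROOF.  `‖Kc W (i x)‖ ≤ C (1+|x|)^{-4}` (`TF.decay_one_add`), `wgt ≥ 1`, so `‖Zo W L t‖ ≤ C Qs c T t`
(norm of the integral ≤ lintegral of the norm).  Then `Q_moments` with `p = 4` and
`Zo_continuous`.
-/

set_option autoImplicit false

namespace Pool.Agent.H12.TP

open MeasureTheory Filter Topology Set Real
open Pool.Agent.PairCorr Pool.Agent.PairCorr.P6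
open scoped ENNReal ArithmeticFunction.vonMangoldt

variable {W : ℝ → ℝ} {b : ℝ}

theorem Zo_le_Q (h : TF W b) : ∃ C : ℝ, 0 < C ∧ ∀ c : ℝ, 0 ≤ c → ∀ T : ℝ, Real.exp 1 ≤ T →
    ∀ t : ℝ, ENNReal.ofReal ‖Zo W (Real.log T) t‖ ≤ ENNReal.ofReal C * Qs c T t := by
  obtain ⟨C, hC, hb⟩ := h.decay_one_add 4
  refine ⟨C + 1, by linarith, ?_⟩
  intro c hc T hT t
  have hT1 : 1 ≤ T := by
    have := Real.add_one_le_exp (1 : ℝ)
    linarith
  have hL : 0 ≤ Real.log T := Real.log_nonneg hT1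
  rw [ofReal_norm]
  unfold Zo Qs
  refine (enorm_integral_le_lintegral_enorm _).trans ?_
  rw [← lintegral_const_mul' _ _ ENNReal.ofReal_ne_top]
  refine lintegral_mono fun z => ?_
  rw [← ofReal_norm, ← ENNReal.ofReal_mul (by linarith)]
  apply ENNReal.ofReal_le_ofReal
  have h1 := hb (((Real.log T * (z.im - t) : ℝ) : ℂ) * Complex.I)
  have hre : (((Real.log T * (z.im - t) : ℝ) : ℂ) * Complex.I).re = 0 := by
    rw [Complex.re_ofReal_mul, Complex.I_re, mul_zero]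
  have hn : ‖((Real.log T * (z.im - t) : ℝ) : ℂ) * Complex.I‖ = |Real.log T * (z.im - t)| := by
    rw [norm_mul, Complex.norm_I, mul_one, Complex.norm_real, Real.norm_eq_abs]
  rw [hre, hn, abs_zero, mul_zero, Real.exp_zero, mul_one] at h1
  have hpos : 0 < (1 + |Real.log T * (z.im - t)|) ^ 4 := by positivity
  have h2 : ‖Kc W (((Real.log T * (z.im - t) : ℝ) : ℂ) * Complex.I)‖ ≤
      C * ((1 + |Real.log T * (z.im - t)|) ^ 4)⁻¹ := by
    rw [← div_eq_mul_inv, le_div_iff₀ hpos, mul_comm]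
    exact h1
  have h3 : 1 ≤ wgt c T z := by
    unfold wgt
    rw [← Real.exp_zero]
    exact Real.exp_le_exp.2 (by positivity)
  have h4 : 0 ≤ ((1 + |Real.log T * (z.im - t)|) ^ 4)⁻¹ := by positivity
  calc ‖Kc W (((Real.log T * (z.im - t) : ℝ) : ℂ) * Complex.I)‖
      ≤ C * ((1 + |Real.log T * (z.im - t)|) ^ 4)⁻¹ := h2
    _ ≤ (C + 1) * (wgt c T z * ((1 + |Real.log T * (z.im - t)|) ^ 4)⁻¹) := by
        apply mul_le_mul (by linarith) _ h4 (by linarith)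
        exact le_mul_of_one_le_left h4 h3

theorem Zo_fourth (h : TF W b) (hb : 0 ≤ b) : ∃ C : ℝ, 0 < C ∧ ∃ T₀ : ℝ, Real.exp 1 ≤ T₀ ∧ ∀ T : ℝ, T₀ ≤ T →
    ∫ t in (0:ℝ)..T, ‖Zo W (Real.log T) t‖ ^ 4 ≤ C * T := by
  obtain ⟨C₁, hC₁, hZ⟩ := Zo_le_Q h
  obtain ⟨c, hc, hc1, C₂, hC₂, T₀, hT₀, hQ⟩ := Q_moments
  refine ⟨C₁ ^ 4 * C₂, by positivity, T₀, hT₀, ?_⟩
  intro T hT
  have hTe : Real.exp 1 ≤ T := hT₀.trans hT
  have hT1 : 1 ≤ T := by
    have := Real.add_one_le_exp (1 : ℝ)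
    linarith
  have hL : 1 ≤ Real.log T := by
    rw [Real.le_log_iff_exp_le (by linarith)]
    exact hTe
  have hcont : Continuous (Zo W (Real.log T)) := Zo_continuous h hb hL
  have hc4 : Continuous fun t : ℝ => ‖Zo W (Real.log T) t‖ ^ 4 := hcont.norm.pow 4
  rw [intervalIntegral.integral_of_le (by linarith),
    integral_eq_lintegral_of_nonneg_ae (Filter.Eventually.of_forall fun t => by positivity)
      hc4.aestronglyMeasurable]
  apply ENNReal.toReal_le_of_le_ofReal (by positivity)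
  calc ∫⁻ t in Ioc (0:ℝ) T, ENNReal.ofReal (‖Zo W (Real.log T) t‖ ^ 4)
      ≤ ∫⁻ t in Ioc (0:ℝ) T, ENNReal.ofReal C₁ ^ 4 * Qs c T t ^ 4 := by
        refine lintegral_mono fun t => ?_
        rw [ENNReal.ofReal_pow (norm_nonneg _), ← mul_pow]
        exact pow_le_pow_left' (hZ c hc.le T hTe t) 4
    _ = ENNReal.ofReal C₁ ^ 4 * ∫⁻ t in Ioc (0:ℝ) T, Qs c T t ^ 4 := by
        rw [lintegral_const_mul' _ _ (ENNReal.pow_ne_top ENNReal.ofReal_ne_top)]
    _ ≤ ENNReal.ofReal C₁ ^ 4 * ENNReal.ofReal (C₂ * T) := by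
        gcongr
        exact hQ T hT 4 le_rfl
    _ = ENNReal.ofReal (C₁ ^ 4 * C₂ * T) := by
        rw [← ENNReal.ofReal_pow hC₁.le, ← ENNReal.ofReal_mul (by positivity), mul_assoc]

end Pool.Agent.H12.TP
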