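import Pool.Agent.H12.TP.MeanO

/-!
# The pair sum as a positive functional

PROOF.  `S0` is linear (`Kc_add`, `Kc_smul`, integrability of the `Spair0` integrand) and bounded for each
fixed test function: `|Kc k (i x)| ≤ C (1+|x|)^{-4}` and the pair bound (`StatementPB` with `δ = 1`, see
PairCorr/PB_All, or PairCorr/P6_Tools; `L |im p.1 - im p.2|`), `NT T = T log T/(2π)`.
`S0_sq_nonneg`: from `mean_Zo`, as mean squares are `≥ 0`.
For `g ≥ 0`, `PT g a b`: let `χ` be smooth, `0 ≤ χ ≤ 1`, `χ = 1` on `[a,b]`, supported in `[a/2, b+1]`, `η ∈ (0,1]`,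
`W = χ √(g+η)` (smooth as `g + η > 0`; `PT W (a/2) (b+1)`, `W ≥ 0`).  `g = W² - η χ²` pointwise (on `[a,b]`,
`χ = 1`; off `[a,b]`, `g = 0`).  So `S0 g = S0 (W²) - η S0 (χ²)`:
lower bound: `≥ -ε - η C`; upper bound: `≤ ∫ ρ1 W² + ε + η ε`, `∫ ρ1 W² = ∫ ρ1 χ² (g+η) = ∫ ρ1 g + η ∫ ρ1 χ²`.
(If `[a,b]` is empty, `g = 0`.)
-/

set_option autoImplicit false

namespace Pool.Agent.H12.TP

open MeasureTheory Filter Topology Set Real
open Pool.Agent.PairCorr Pool.Agent.PairCorr.P6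
open Pool.Agent.PairCorr.P1 (q4 q4_pos)
open scoped ENNReal ArithmeticFunction.vonMangoldt

variable {k g : ℝ → ℝ} {a b : ℝ}

/-- integrability of the pair integrand and the pair bound -/
lemma Spair0_int (h : TF k b) : ∃ C : ℝ, 0 < C ∧ ∃ U₀ : ℝ, Real.exp 1 ≤ U₀ ∧ ∀ U : ℝ, U₀ ≤ U →
    Integrable (fun p : ℂ × ℂ => Kc k (((Real.log U * (p.1.im - p.2.im) : ℝ) : ℂ) * Complex.I))
      ((muW U).prod muZ) ∧ ‖Spair0 k U‖ ≤ C * (U * Real.log U) := by
  obtain ⟨C, hC, U₀, hU₀, hPB⟩ := PB_real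
  obtain ⟨C1, hC1, h1⟩ := line_decay h 4
  refine ⟨(C1 + 1) * C, by positivity, U₀, hU₀, fun U hU => ?_⟩
  have hUe : Real.exp 1 ≤ U := hU₀.trans hU
  have hU0 : 0 < U := (Real.exp_pos 1).trans_le hUe
  have hL1 : 1 ≤ Real.log U := by rw [Real.le_log_iff_exp_le hU0]; exact hUe
  obtain ⟨h2, h3⟩ := hPB U hU (Real.log U) hL1 (by linarith)
  have hset : {p : ℂ × ℂ | 0 < p.1.im ∧ p.1.im ≤ U} = WT U ×ˢ univ := by
    ext p; simp [WT]
  have hsub : {p : ℂ × ℂ | 0 < p.1.im ∧ p.1.im ≤ U} ⊆ {p : ℂ × ℂ | |p.1.im| ≤ U} := by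
    rintro p ⟨a, b⟩
    show |p.1.im| ≤ U
    rw [abs_of_pos a]; exact b
  have hdom : Integrable (fun p : ℂ × ℂ => C1 * q4 (Real.log U * (p.1.im - p.2.im)))
      ((muZ.prod muZ).restrict {p : ℂ × ℂ | 0 < p.1.im ∧ p.1.im ≤ U}) := by
    have : IntegrableOn (fun p : ℂ × ℂ => C1 * q4 (Real.log U * (p.1.im - p.2.im)))
        {p : ℂ × ℂ | 0 < p.1.im ∧ p.1.im ≤ U} (muZ.prod muZ) :=
      IntegrableOn.mono_set (h2.const_mul C1) hsub
    exact this
  rw [muW_prod_restrict, ← hset]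
  refine ⟨?_, ?_⟩
  · refine Integrable.mono' hdom ?_ (Eventually.of_forall fun p => h1 _)
    exact (h.differentiable_Kc.continuous.comp (by fun_prop)).aestronglyMeasurable
  · unfold Spair0
    rw [muW_prod_restrict, ← hset]
    calc ‖∫ p : ℂ × ℂ, Kc k ((Real.log U * (p.1.im - p.2.im) : ℝ) * Complex.I)
          ∂((muZ.prod muZ).restrict {p : ℂ × ℂ | 0 < p.1.im ∧ p.1.im ≤ U})‖
        ≤ ∫ p : ℂ × ℂ, C1 * q4 (Real.log U * (p.1.im - p.2.im))
          ∂((muZ.prod muZ).restrict {p : ℂ × ℂ | 0 < p.1.im ∧ p.1.im ≤ U}) :=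
          norm_integral_le_of_norm_le hdom (Eventually.of_forall fun p => h1 _)
      _ = C1 * ∫ p : ℂ × ℂ, q4 (Real.log U * (p.1.im - p.2.im))
          ∂((muZ.prod muZ).restrict {p : ℂ × ℂ | 0 < p.1.im ∧ p.1.im ≤ U}) := integral_const_mul _ _
      _ ≤ C1 * ∫ p in {p : ℂ × ℂ | |p.1.im| ≤ U}, q4 (Real.log U * (p.1.im - p.2.im))
            ∂(muZ.prod muZ) := by
          apply mul_le_mul_of_nonneg_left _ hC1
          apply setIntegral_mono_set h2
          · exact Eventually.of_forall fun p => (q4_pos _).le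
          · exact Eventually.of_forall hsub
      _ ≤ C1 * (C * (U * Real.log U)) := mul_le_mul_of_nonneg_left h3 hC1
      _ ≤ (C1 + 1) * C * (U * Real.log U) := by
          have h4 : 0 ≤ C * (U * Real.log U) := by positivity
          nlinarith

/-- `S0` is additive -/
theorem S0_add {k' : ℝ → ℝ} (h : TF k b) (h' : TF k' b) (hb : 0 ≤ b) :
    ∀ᶠ T : ℝ in atTop, S0 (fun v => k v + k' v) T = S0 k T + S0 k' T := by
  obtain ⟨_, _, U₀, _, h1⟩ := Spair0_int h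
  obtain ⟨_, _, U₁, _, h2⟩ := Spair0_int h'
  filter_upwards [eventually_ge_atTop U₀, eventually_ge_atTop U₁] with T hT₀ hT₁
  unfold S0
  rw [← add_div, ← Complex.add_re]
  congr 2
  unfold Spair0
  rw [← integral_add (h1 T hT₀).1 (h2 T hT₁).1]
  congr 1; ext p
  exact Kc_add h h' _

theorem S0_smul (c : ℝ) (k : ℝ → ℝ) (T : ℝ) : S0 (fun v => c * k v) T = c * S0 k T := by
  unfold S0
  rw [← mul_div_assoc, ← Complex.re_ofReal_mul]
  congr 2
  unfold Spair0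
  rw [← integral_const_mul]
  congr 1; ext p
  exact Kc_smul c k _

/-- reflecting the test function does not change `S0` -/
theorem S0_reflect (k : ℝ → ℝ) (T : ℝ) : S0 (fun v => k (-v)) T = S0 k T := by
  unfold S0
  rw [← Complex.conj_re (Spair0 k T)]
  congr 2
  unfold Spair0
  rw [← integral_conj]
  congr 1; ext p
  exact (Kc_conj_line' k _).symm

theorem S0_bdd (h : TF k b) (hb : 0 ≤ b) : ∃ C : ℝ, 0 < C ∧ ∀ᶠ T : ℝ in atTop, |S0 k T| ≤ C := by
  obtain ⟨C, hC, U₀, hU₀, h1⟩ := Spair0_int h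
  refine ⟨C * (2 * π), by positivity, ?_⟩
  filter_upwards [eventually_ge_atTop U₀] with T hT
  have hTe : Real.exp 1 ≤ T := hU₀.trans hT
  have hT0 : 0 < T := (Real.exp_pos 1).trans_le hTe
  have hL1 : 1 ≤ Real.log T := by rw [Real.le_log_iff_exp_le hT0]; exact hTe
  have hTL : 0 < T * Real.log T := by positivity
  have hpi := Real.pi_pos
  unfold S0 NT
  rw [abs_div, abs_of_pos (show 0 < T * Real.log T / (2 * π) by positivity), div_le_iff₀ (by positivity)]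
  calc |(Spair0 k T).re| ≤ ‖Spair0 k T‖ := Complex.abs_re_le_norm _
    _ ≤ C * (T * Real.log T) := (h1 T hT).2
    _ = C * (2 * π) * (T * Real.log T / (2 * π)) := by field_simp

theorem S0_sq_nonneg (h : TF k b) (hb : 0 ≤ b) {ε : ℝ} (hε : 0 < ε) :
    ∀ᶠ T : ℝ in atTop, -ε ≤ S0 (fun v => k v ^ 2) T := by
  have h1 := (mean_Zo h hb).eventually (gt_mem_nhds hε)
  filter_upwards [h1, eventually_gt_atTop 0] with T hT hT0
  have h2 : 0 ≤ T⁻¹ * (∫ t in (0:ℝ)..T, ‖Zo k (Real.log T) t‖ ^ 2) := by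
    apply mul_nonneg (by positivity)
    apply intervalIntegral.integral_nonneg hT0.le
    intro t _; positivity
  linarith

/-- the smooth cut-off -/
lemma exists_cutoff (ha : 0 < a) (hab : a ≤ b) : ∃ χ : ℝ → ℝ, PT χ (a / 2) (b + a / 2) ∧
    (∀ v, 0 ≤ χ v) ∧ ∀ v ∈ Icc a b, χ v = 1 := by
  let f : ContDiffBump ((a + b) / 2) := ⟨(b - a) / 2 + a / 4, (b - a) / 2 + a / 2, by linarith, by linarith⟩
  refine ⟨f, ⟨f.contDiff, by linarith, ?_⟩, fun v => f.nonneg, ?_⟩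
  · intro v hv
    apply f.zero_of_le_dist
    show (b - a) / 2 + a / 2 ≤ dist v ((a + b) / 2)
    rw [Real.dist_eq]
    by_contra hc
    push Not at hc
    rw [abs_lt] at hc
    exact hv ⟨by linarith [hc.1], by linarith [hc.2]⟩
  · intro v hv
    apply f.one_of_mem_closedBall
    show dist v ((a + b) / 2) ≤ (b - a) / 2 + a / 4
    rw [Real.dist_eq, abs_le]
    constructor <;> linarith [hv.1, hv.2]

/-- the decomposition of a nonnegative function as a difference of squares -/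
lemma decomp (h : PT g a b) (h0 : ∀ v, 0 ≤ g v) (hab : a ≤ b) : ∃ χ : ℝ → ℝ,
    PT χ (a / 2) (b + a / 2) ∧ ∀ η : ℝ, 0 < η → ∃ W : ℝ → ℝ, PT W (a / 2) (b + a / 2) ∧ (∀ v, 0 ≤ W v) ∧
      ∀ v, W v ^ 2 = g v + η * χ v ^ 2 := by
  obtain ⟨χ, h1, h2, h3⟩ := exists_cutoff h.pos hab
  refine ⟨χ, h1, fun η hη => ⟨fun v => χ v * √(g v + η), ⟨?_, h1.pos, ?_⟩, ?_, ?_⟩⟩
  · apply h1.smooth.mul
    apply ContDiff.sqrt (h.smooth.add contDiff_const)
    intro v
    have := h0 v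
    positivity
  · intro v hv
    simp [h1.supp v hv]
  · intro v
    exact mul_nonneg (h2 v) (Real.sqrt_nonneg _)
  · intro v
    have := h0 v
    rw [mul_pow, Real.sq_sqrt (by positivity)]
    by_cases hv : v ∈ Icc a b
    · rw [h3 v hv]; ring
    · rw [h.supp v hv]; ring

lemma PT.sq (h : PT g a b) : PT (fun v => g v ^ 2) a b where
  smooth := h.smooth.pow 2
  pos := h.pos
  supp := fun v hv => by simp [h.supp v hv]

lemma TF.const_mul' (h : TF g b) (c : ℝ) : TF (fun v => c * g v) b where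
  smooth := contDiff_const.mul h.smooth
  supp := fun v hv => by simp [h.supp v hv]

lemma S0_decomp {χ W : ℝ → ℝ} {a' b' η : ℝ} (hχ : PT χ a' b') (hW : PT W a' b') (hb' : 0 ≤ b')
    (h : ∀ v, W v ^ 2 = g v + η * χ v ^ 2) :
    ∀ᶠ T : ℝ in atTop, S0 g T = S0 (fun v => W v ^ 2) T - η * S0 (fun v => χ v ^ 2) T := by
  have e : g = fun v => W v ^ 2 + (-η) * χ v ^ 2 := by
    funext v; rw [h v]; ring
  have h1 := S0_add hW.sq.tf (TF.const_mul' hχ.sq.tf (-η)) hb'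
  filter_upwards [h1] with T hT
  rw [e, hT, S0_smul (-η) (fun v => χ v ^ 2) T]
  ring

theorem S0_lower (h : PT g a b) (h0 : ∀ v, 0 ≤ g v) {ε : ℝ} (hε : 0 < ε) :
    ∀ᶠ T : ℝ in atTop, -ε ≤ S0 g T := by
  have h' : PT g a (max a b) := h.mono le_rfl h.pos (le_max_right _ _)
  have ha := h.pos
  set b' := max a b with hb'
  have hab : a ≤ b' := le_max_left _ _
  obtain ⟨χ, hχ, hd⟩ := decomp h' h0 hab
  have hb0 : 0 ≤ b' + a / 2 := by linarith
  obtain ⟨C, hC, hbd⟩ := S0_bdd hχ.sq.tf hb0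
  obtain ⟨W, hW, hW0, hWe⟩ := hd (ε / (2 * C)) (by positivity)
  filter_upwards [hbd, S0_decomp hχ hW hb0 hWe, S0_sq_nonneg hW.tf hb0 (half_pos hε)] with T h1 h2 h3
  rw [h2]
  have h4 : ε / (2 * C) * S0 (fun v => χ v ^ 2) T ≤ ε / (2 * C) * C := by
    apply mul_le_mul_of_nonneg_left ((le_abs_self _).trans h1) (by positivity)
  have h5 : ε / (2 * C) * C = ε / 2 := by field_simp
  linarith

theorem S0_upper_of_squares
    (hsq : ∀ (W : ℝ → ℝ) (a b : ℝ), PT W a b → (∀ v, 0 ≤ W v) → ∀ ε : ℝ, 0 < ε →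
      ∀ᶠ T : ℝ in atTop, S0 (fun v => W v ^ 2) T ≤ (∫ v, ρ1 v * W v ^ 2) + ε)
    (h : PT g a b) (h0 : ∀ v, 0 ≤ g v) {ε : ℝ} (hε : 0 < ε) :
    ∀ᶠ T : ℝ in atTop, S0 g T ≤ (∫ v, ρ1 v * g v) + ε := by
  have h' : PT g a (max a b) := h.mono le_rfl h.pos (le_max_right _ _)
  have ha := h.pos
  set b' := max a b with hb'
  have hab : a ≤ b' := le_max_left _ _
  obtain ⟨χ, hχ, hd⟩ := decomp h' h0 hab
  have hb0 : 0 ≤ b' + a / 2 := by linarith
  obtain ⟨C, hC, hbd⟩ := S0_bdd hχ.sq.tf hb0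
  set I := ∫ v, ρ1 v * χ v ^ 2 with hI
  have hcont : Continuous ρ1 := by unfold ρ1; fun_prop
  have hint : ∀ {f : ℝ → ℝ} {c d : ℝ}, PT f c d → Integrable (fun v => ρ1 v * f v) := by
    intro f c d hf
    apply (hcont.mul hf.smooth.continuous).integrable_of_hasCompactSupport
    exact hf.tf.hasCompactSupport.mul_left
  have hI0 : 0 ≤ I := by
    apply integral_nonneg
    intro v
    show 0 ≤ ρ1 v * χ v ^ 2
    have : 0 ≤ ρ1 v := by unfold ρ1; positivity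
    positivity
  set η : ℝ := ε / (2 * (C + I + 1)) with hη
  have hη0 : 0 < η := by positivity
  obtain ⟨W, hW, hW0, hWe⟩ := hd η hη0
  filter_upwards [hbd, S0_decomp hχ hW hb0 hWe, hsq W _ _ hW hW0 (ε / 2) (half_pos hε)] with T h1 h2 h3
  rw [h2]
  have e1 : ∫ v, ρ1 v * W v ^ 2 = (∫ v, ρ1 v * g v) + η * I := by
    rw [hI, ← integral_const_mul, ← integral_add (hint h) ((hint hχ.sq).const_mul η)]
    congr 1; ext v
    rw [hWe v]; ring
  rw [e1] at h3
  have h4 : -(η * S0 (fun v => χ v ^ 2) T) ≤ η * C := by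
    rw [← mul_neg]
    apply mul_le_mul_of_nonneg_left _ hη0.le
    exact (neg_le_abs _).trans h1
  have h5 : η * (C + I + 1) = ε / 2 := by
    rw [hη]; field_simp
  nlinarith

end Pool.Agent.H12.TP
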