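import Pool.Agent.H12.TP.EF
import Pool.Agent.H12.TP.Fourth
import Pool.Agent.H12.TP.Close
import Pool.Agent.H12.TP.Squares

/-!
# From the pair sums to the truncated mean squares of the primes

PROOF.  `P, Z, Y` as in Upper.lean.  `k v = W v ^ 2 + W (-v) ^ 2` is even, `TF k b`, `k 0 = 0`, so
`ck k = ∫ ρ1 k = 2 ∫ ρ1 W²` and `S0 k = 2 S0 (W²)` (`S0_add`, `S0_reflect`); by `mean_Zo`
`T⁻¹ ∫_0^T ‖Y‖² → ∫ ρ1 W²`.  Remains: for `M` large, eventually `|TM W M T - T⁻¹ ∫ ‖Y‖²| ≤ ε`.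
For `t ≥ √T` with `‖Z - Y‖ ≤ δ`: `‖P + Y‖ ≤ 2 δ`, and `s ↦ min (s²) M` is `2√M`-Lipschitz on `[0,∞)`, so
`|min(‖P‖²,M) - min(‖Y‖²,M)| ≤ 4 δ √M`; the other `t` have total measure `≤ 2 δ T` and contribute
`≤ 2 δ M T`; finally `0 ≤ ‖Y‖² - min(‖Y‖²,M) ≤ ‖Y‖⁴/M`, total `≤ C T/M` (`Zo_fourth`).  Given `ε` take
`M₀ = 4 C/ε`, then for `M ≥ M₀` take `δ` small.
-/

set_option autoImplicit false

namespace Pool.Agent.H12.TP

open MeasureTheory Filter Topology Set Real
open Pool.Agent.PairCorr Pool.Agent.PairCorr.P6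
open scoped ENNReal ArithmeticFunction.vonMangoldt

/-- pointwise comparison of the truncated squares -/
lemma trunc_compare {p y M : ℝ} (hp : 0 ≤ p) (hy : 0 ≤ y) (hM : 0 < M) :
    |min (p ^ 2) M - min (y ^ 2) M| ≤ 2 * √M * |p - y| := by
  have hs : 0 ≤ √M := Real.sqrt_nonneg M
  have hsq : √M ^ 2 = M := Real.sq_sqrt hM.le
  have key : ∀ x : ℝ, 0 ≤ x → min (x ^ 2) M = (min x √M) ^ 2 := by
    intro x hx
    rcases le_total x √M with h | h
    · rw [min_eq_left h, min_eq_left]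
      nlinarith
    · rw [min_eq_right h, min_eq_right, hsq]
      nlinarith
  rw [key p hp, key y hy]
  have e : (min p √M) ^ 2 - (min y √M) ^ 2 = (min p √M + min y √M) * (min p √M - min y √M) := by ring
  rw [e, abs_mul]
  have h1 : |min p √M + min y √M| ≤ 2 * √M := by
    rw [abs_of_nonneg (add_nonneg (le_min hp hs) (le_min hy hs))]
    have := min_le_right p √M
    have := min_le_right y √M
    linarith
  have h2 : |min p √M - min y √M| ≤ |p - y| := by
    have := abs_min_sub_min_le_max p (√M) y (√M)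
    simpa using this
  exact mul_le_mul h1 h2 (abs_nonneg _) (by positivity)

lemma trunc_tail {y M : ℝ} (hM : 0 < M) : |min (y ^ 2) M - y ^ 2| ≤ y ^ 4 / M := by
  rcases le_total (y ^ 2) M with h | h
  · rw [min_eq_left h]; simp only [sub_self, abs_zero]; positivity
  · rw [min_eq_right h, abs_of_nonpos (by linarith), le_div_iff₀ hM]
    nlinarith [sq_nonneg y]

lemma trunc_point {P Y : ℂ} {M δ : ℝ} (hM : 0 < M) (hδ : 0 ≤ δ) :
    |min (‖P‖ ^ 2) M - ‖Y‖ ^ 2| ≤
      4 * δ * √M + (if 2 * δ < ‖P + Y‖ then M else 0) + ‖Y‖ ^ 4 / M := by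
  have h2 := trunc_tail (y := ‖Y‖) hM
  have h3 : |min (‖P‖ ^ 2) M - min (‖Y‖ ^ 2) M| ≤ 4 * δ * √M + (if 2 * δ < ‖P + Y‖ then M else 0) := by
    split_ifs with hc
    · have a1 : 0 ≤ min (‖P‖ ^ 2) M := le_min (by positivity) hM.le
      have a2 : 0 ≤ min (‖Y‖ ^ 2) M := le_min (by positivity) hM.le
      have a3 := min_le_right (‖P‖ ^ 2) M
      have a4 := min_le_right (‖Y‖ ^ 2) M
      have a5 : 0 ≤ 4 * δ * √M := by positivity
      rw [abs_le]; constructor <;> linarith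
    · push Not at hc
      have h4 := trunc_compare (p := ‖P‖) (y := ‖Y‖) (norm_nonneg _) (norm_nonneg _) hM
      have h5 : |‖P‖ - ‖Y‖| ≤ ‖P + Y‖ := by
        have := abs_norm_sub_norm_le P (-Y)
        rwa [norm_neg, sub_neg_eq_add] at this
      have h6 : 2 * √M * |‖P‖ - ‖Y‖| ≤ 2 * √M * (2 * δ) :=
        mul_le_mul_of_nonneg_left (h5.trans hc) (by positivity)
      linarith
  calc |min (‖P‖ ^ 2) M - ‖Y‖ ^ 2|
      = |(min (‖P‖ ^ 2) M - min (‖Y‖ ^ 2) M) + (min (‖Y‖ ^ 2) M - ‖Y‖ ^ 2)| := by ring_nf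
    _ ≤ |min (‖P‖ ^ 2) M - min (‖Y‖ ^ 2) M| + |min (‖Y‖ ^ 2) M - ‖Y‖ ^ 2| := abs_add_le _ _
    _ ≤ _ := by linarith

/-- the set of bad heights -/
def BadT (W : ℝ → ℝ) (δ T : ℝ) : Set ℝ :=
  {t : ℝ | 2 * δ < ‖PS W T t + Zo W (Real.log T) t‖}

variable {W : ℝ → ℝ} {a b : ℝ}

lemma BadT_meas (h : PT W a b) (hb : 0 ≤ b) (δ : ℝ) {T : ℝ} (hT : 1 ≤ Real.log T) :
    MeasurableSet (BadT W δ T) := by
  have h1 := PS_continuous h (T := T) (by linarith)
  have h2 := Zo_continuous h.tf hb (L := Real.log T) hT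
  have : Continuous fun t => ‖PS W T t + Zo W (Real.log T) t‖ := (h1.add h2).norm
  exact measurableSet_lt measurable_const this.measurable

lemma BadT_vol (hN : NearLine atTop) (h : PT W a b) (hb : 0 ≤ b) {δ : ℝ} (hδ : 0 < δ) :
    ∀ᶠ T : ℝ in atTop, volume (BadT W δ T ∩ Ioc 0 T) ≤ ENNReal.ofReal (2 * δ * T) := by
  have hs : ∀ᶠ T : ℝ in atTop, √T ≤ δ * T := by
    filter_upwards [eventually_ge_atTop (1 / δ ^ 2)] with T hT
    have h0 : 0 < 1 / δ ^ 2 := by positivity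
    have hT0 : 0 < T := lt_of_lt_of_le h0 hT
    rw [Real.sqrt_le_left (by positivity)]
    rw [div_le_iff₀ (by positivity)] at hT
    nlinarith
  filter_upwards [explicit_pos h hδ, close hN h.tf hb hδ, hs, eventually_gt_atTop 0] with T h1 h2 h3 hT0
  have hsub : BadT W δ T ∩ Ioc 0 T ⊆ Ioc 0 (√T) ∪
      {t : ℝ | t ∈ Ioc 0 T ∧ δ < ‖Zs W (Real.log T) t - Zo W (Real.log T) t‖} := by
    rintro t ⟨hb, ht⟩
    by_cases hc : t ≤ √T
    · left; exact ⟨ht.1, hc⟩
    · right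
      push Not at hc
      refine ⟨ht, ?_⟩
      by_contra hcc
      push Not at hcc
      have h4 := h1 t ⟨hc.le, ht.2⟩
      have h5 : PS W T t + Zo W (Real.log T) t =
          (Zs W (Real.log T) t + PS W T t) - (Zs W (Real.log T) t - Zo W (Real.log T) t) := by ring
      have h6 : ‖PS W T t + Zo W (Real.log T) t‖ ≤ 2 * δ := by
        rw [h5]
        exact (norm_sub_le _ _).trans (by linarith)
      exact absurd hb (not_lt.2 h6)
  calc volume (BadT W δ T ∩ Ioc 0 T) ≤ volume (Ioc 0 (√T)) +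
        volume {t : ℝ | t ∈ Ioc 0 T ∧ δ < ‖Zs W (Real.log T) t - Zo W (Real.log T) t‖} :=
        (measure_mono hsub).trans (measure_union_le _ _)
    _ ≤ ENNReal.ofReal (√T) + ENNReal.ofReal (δ * T) := by
        gcongr
        · rw [Real.volume_Ioc]; simp
    _ ≤ ENNReal.ofReal (2 * δ * T) := by
        rw [← ENNReal.ofReal_add (by positivity) (by positivity)]
        apply ENNReal.ofReal_le_ofReal
        linarith

/-- comparison of the truncated mean square of the primes with the mean square of the zero sum -/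
lemma TM_near (hN : NearLine atTop) (h : PT W a b) (hb : 0 ≤ b) :
    ∃ C : ℝ, 0 < C ∧ ∀ M : ℝ, 0 < M → ∀ δ : ℝ, 0 < δ → ∀ᶠ T : ℝ in atTop,
      |TM W M T - T⁻¹ * (∫ t in (0:ℝ)..T, ‖Zo W (Real.log T) t‖ ^ 2)| ≤
        4 * δ * √M + 2 * δ * M + C / M := by
  obtain ⟨C, hC, T₀, hT₀, hF⟩ := Zo_fourth h.tf hb
  refine ⟨C, hC, fun M hM δ hδ => ?_⟩
  filter_upwards [BadT_vol hN h hb hδ, eventually_ge_atTop T₀, eventually_ge_atTop (Real.exp 1)]
    with T hvol hT hTe
  have hT0 : 0 < T := lt_of_lt_of_le (Real.exp_pos 1) hTe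
  have hL : 1 ≤ Real.log T := by rwa [Real.le_log_iff_exp_le hT0]
  have hL0 : 0 < Real.log T := by linarith
  have cP := PS_continuous h hL0
  have cY := Zo_continuous h.tf hb hL
  have hbm := BadT_meas h hb δ (T := T) hL
  have i1 : IntervalIntegrable (fun t => min (‖PS W T t‖ ^ 2) M) volume 0 T := TM_ii h hL0 M 0 T
  have i2 : IntervalIntegrable (fun t => ‖Zo W (Real.log T) t‖ ^ 2) volume 0 T :=
    (by fun_prop : Continuous fun t => ‖Zo W (Real.log T) t‖ ^ 2).intervalIntegrable _ _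
  have i4 : IntervalIntegrable (fun t => ‖Zo W (Real.log T) t‖ ^ 4) volume 0 T :=
    (by fun_prop : Continuous fun t => ‖Zo W (Real.log T) t‖ ^ 4).intervalIntegrable _ _
  have i3 : IntervalIntegrable ((BadT W δ T).indicator fun _ => M) volume 0 T := by
    rw [intervalIntegrable_iff, uIoc_of_le hT0.le]
    have hc : IntegrableOn (fun _ : ℝ => M) (Ioc 0 T) volume :=
      integrableOn_const (by simp) (by simp)
    exact hc.indicator hbm
  have e3 : ∫ t in (0:ℝ)..T, (BadT W δ T).indicator (fun _ => M) t ≤ 2 * δ * T * M := by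
    rw [intervalIntegral.integral_of_le hT0.le, integral_indicator hbm, setIntegral_const,
      smul_eq_mul, Measure.real, Measure.restrict_apply hbm]
    apply mul_le_mul_of_nonneg_right _ hM.le
    exact ENNReal.toReal_le_of_le_ofReal (by positivity) hvol
  have hpt : ∀ t, |min (‖PS W T t‖ ^ 2) M - ‖Zo W (Real.log T) t‖ ^ 2| ≤
      4 * δ * √M + (BadT W δ T).indicator (fun _ => M) t + ‖Zo W (Real.log T) t‖ ^ 4 / M := by
    intro t
    have := trunc_point (P := PS W T t) (Y := Zo W (Real.log T) t) hM hδ.le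
    simpa only [BadT, indicator, mem_ofPred_eq] using this
  have e1 : TM W M T - T⁻¹ * (∫ t in (0:ℝ)..T, ‖Zo W (Real.log T) t‖ ^ 2) =
      T⁻¹ * ∫ t in (0:ℝ)..T, (min (‖PS W T t‖ ^ 2) M - ‖Zo W (Real.log T) t‖ ^ 2) := by
    rw [intervalIntegral.integral_sub i1 i2, mul_sub]; rfl
  rw [e1, abs_mul, abs_of_pos (inv_pos.2 hT0)]
  have e2 : |∫ t in (0:ℝ)..T, (min (‖PS W T t‖ ^ 2) M - ‖Zo W (Real.log T) t‖ ^ 2)| ≤
      ∫ t in (0:ℝ)..T, (4 * δ * √M + (BadT W δ T).indicator (fun _ => M) t +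
        ‖Zo W (Real.log T) t‖ ^ 4 / M) := by
    refine (intervalIntegral.abs_integral_le_integral_abs hT0.le).trans ?_
    apply intervalIntegral.integral_mono_on hT0.le (i1.sub i2).abs
      ((intervalIntegrable_const.add i3).add (i4.div_const M))
    intro t _
    exact hpt t
  have e4 : ∫ t in (0:ℝ)..T, (4 * δ * √M + (BadT W δ T).indicator (fun _ => M) t +
        ‖Zo W (Real.log T) t‖ ^ 4 / M) =
      T * (4 * δ * √M) + (∫ t in (0:ℝ)..T, (BadT W δ T).indicator (fun _ => M) t) +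
        (∫ t in (0:ℝ)..T, ‖Zo W (Real.log T) t‖ ^ 4) / M := by
    rw [intervalIntegral.integral_add (intervalIntegrable_const.add i3) (i4.div_const M),
      intervalIntegral.integral_add intervalIntegrable_const i3,
      intervalIntegral.integral_const, intervalIntegral.integral_div]
    simp
  have e5 : (∫ t in (0:ℝ)..T, ‖Zo W (Real.log T) t‖ ^ 4) / M ≤ C * T / M :=
    div_le_div_of_nonneg_right (hF T hT) hM.le
  rw [e4] at e2
  calc T⁻¹ * |∫ t in (0:ℝ)..T, (min (‖PS W T t‖ ^ 2) M - ‖Zo W (Real.log T) t‖ ^ 2)|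
      ≤ T⁻¹ * (T * (4 * δ * √M) + 2 * δ * T * M + C * T / M) := by
        apply mul_le_mul_of_nonneg_left _ (by positivity)
        linarith
    _ = 4 * δ * √M + 2 * δ * M + C / M := by
        field_simp

lemma sq_tf (h : TF W b) : TF (fun v => W v ^ 2) b where
  smooth := h.smooth.pow 2
  supp := by intro v hv; simp [h.supp v hv]

lemma sq_neg_tf (h : TF W b) : TF (fun v => W (-v) ^ 2) b where
  smooth := (h.smooth.comp contDiff_neg).pow 2
  supp := by
    intro v hv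
    have : W (-v) = 0 := h.supp (-v) (by rwa [abs_neg])
    simp [this]

lemma S0_sq_lim (hS : ∀ (k : ℝ → ℝ) (b : ℝ), TF k b → (∀ v, k (-v) = k v) → Tendsto (S0 k) atTop (𝓝 (ck k)))
    (h : PT W a b) (hb : 0 ≤ b) :
    Tendsto (S0 (fun v => W v ^ 2)) atTop (𝓝 (∫ v, ρ1 v * W v ^ 2)) := by
  have t1 := sq_tf h.tf
  have t2 := sq_neg_tf h.tf
  have hk : TF (fun v => W v ^ 2 + W (-v) ^ 2) b := by
    refine ⟨t1.smooth.add t2.smooth, fun v hv => ?_⟩
    have e1 := t1.supp v hv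
    have e2 := t2.supp v hv
    change W v ^ 2 + W (-v) ^ 2 = 0
    change W v ^ 2 = 0 at e1
    change W (-v) ^ 2 = 0 at e2
    rw [e1, e2, add_zero]
  have hev : ∀ v, (fun v => W v ^ 2 + W (-v) ^ 2) (-v) = (fun v => W v ^ 2 + W (-v) ^ 2) v := by
    intro v; simp only [neg_neg]; ring
  have h1 := hS _ b hk hev
  have i1 : Integrable (fun v => ρ1 v * W v ^ 2) := by
    apply Continuous.integrable_of_hasCompactSupport
    · have := ρ1_cont
      have := h.tf.cont
      fun_prop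
    · exact t1.hasCompactSupport.mul_left
  have i2 : Integrable (fun v => ρ1 v * W (-v) ^ 2) := by
    apply Continuous.integrable_of_hasCompactSupport
    · have := ρ1_cont
      have := h.tf.cont
      fun_prop
    · exact t2.hasCompactSupport.mul_left
  have e1 : ∫ v, ρ1 v * W (-v) ^ 2 = ∫ v, ρ1 v * W v ^ 2 := by
    have := integral_neg_eq_self (fun v => ρ1 v * W v ^ 2) (volume : Measure ℝ)
    rw [← this]
    congr 1
    ext v
    simp [ρ1]
  have e2 : ck (fun v => W v ^ 2 + W (-v) ^ 2) = 2 * ∫ v, ρ1 v * W v ^ 2 := by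
    unfold ck
    have w0 : W 0 = 0 := h.zero_of_nonpos le_rfl
    simp only [neg_zero, w0]
    rw [show (fun v => ρ1 v * (W v ^ 2 + W (-v) ^ 2)) = fun v => ρ1 v * W v ^ 2 + ρ1 v * W (-v) ^ 2 by
      ext v; ring]
    rw [integral_add i1 i2, e1]
    ring
  rw [e2] at h1
  have h2 := h1.const_mul (1 / 2)
  rw [show (1 / 2 : ℝ) * (2 * ∫ v, ρ1 v * W v ^ 2) = ∫ v, ρ1 v * W v ^ 2 by ring] at h2
  refine h2.congr' ?_
  filter_upwards [S0_add t1 t2 hb] with T hT
  have h3 : S0 (fun v => W (-v) ^ 2) T = S0 (fun v => W v ^ 2) T := S0_reflect (fun v => W v ^ 2) T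
  rw [hT, h3]
  ring

theorem trimLim_of (hN : NearLine atTop)
    (hS : ∀ (k : ℝ → ℝ) (b : ℝ), TF k b → (∀ v, k (-v) = k v) → Tendsto (S0 k) atTop (𝓝 (ck k))) :
    TrimLim := by
  intro W a b h ε hε
  wlog hb : 0 ≤ b generalizing b with H
  · exact H (max b 0) (h.mono le_rfl h.pos (le_max_left _ _)) (le_max_right _ _)
  obtain ⟨C, hC, hnear⟩ := TM_near hN h hb
  refine ⟨4 * C / ε, fun M hM => ?_⟩
  have hM0 : 0 < M := lt_of_lt_of_le (by positivity) hM
  have hCM : C / M ≤ ε / 4 := by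
    rw [div_le_iff₀ hε] at hM
    rw [div_le_iff₀ hM0]
    linarith
  have hden : 0 < 4 * √M + 2 * M := by positivity
  have hδ : 0 < ε / (4 * (4 * √M + 2 * M)) := by positivity
  have hδ2 : 4 * (ε / (4 * (4 * √M + 2 * M))) * √M + 2 * (ε / (4 * (4 * √M + 2 * M))) * M = ε / 4 := by
    field_simp
  have l1 := mean_Zo h.tf hb
  have l2 := S0_sq_lim hS h hb
  have n1 := (Metric.tendsto_nhds.1 l1) (ε / 4) (by positivity)
  have n2 := (Metric.tendsto_nhds.1 l2) (ε / 4) (by positivity)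
  filter_upwards [hnear M hM0 _ hδ, n1, n2] with T k1 k2 k3
  rw [Real.dist_eq, sub_zero] at k2
  rw [Real.dist_eq] at k3
  rw [abs_lt] at k2 k3
  rw [abs_le] at k1 ⊢
  constructor <;> linarith [k1.1, k1.2, k2.1, k2.2, k3.1, k3.2]

end Pool.Agent.H12.TP
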