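import Pool.Agent.H12.TP.QM

/-!
# From times to zeros

PROOF.  Fix `ε > 0` (the `ε` of `NearLine`), `y = ε`, and let `x` be from the hypothesis.  Let
`Off = {z : ε ≤ L (re z - 1/2)}` and `m(t) = muZ (Off ∩ {|L (im z - t)| ≤ x})`.  Each `z` with
`0 < im z ≤ T` has `volume {t ∈ (0,T] : |L(im z - t)| ≤ x} ≥ x/L` (if `x/L ≤ T/2`), so by Tonelli
`(x/L) muZ (Off ∩ WT T) ≤ ∫⁻_0^T m(t) dt`.  `m(t) = 0` unless `OffAt x ε T t` (`muZ` lives on `NTZ`), and
`m(t) ≤ 16 Qs c T t` as `x ≤ 1`.  So for `t` in the rare set `R`, `volume R ≤ η T`, Cauchy-Schwarz gives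
`∫⁻_R m ≤ (volume R)^{1/2} (∫⁻ m^2)^{1/2} ≤ (η T)^{1/2} (256 C T)^{1/2}` (`Q_moments`, p = 2; alternatively
`m ≤ λ⁻¹ ... `: `m ≤ A 1_R + m^2/A` for every `A > 0`, which avoids roots).  Hence
`muZ (Off ∩ WT T) ≤ C' √η T L / x` eventually, for every `η`.
`FarW T ε = {z ∈ WT T : ε/L < |re z - 1/2|}` is contained in `Off ∪ (reflection of Off)`, the reflection
`z ↦ 1 - conj z` preserves `muZ`, `im z` (see PairCorr/OD: Reflection invariance).
`NearLine l = ∀ ε > 0, Tendsto (fun T => (muZ (FarW T ε)).toReal / (T * log T)) l (𝓝 0)`.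
-/

set_option autoImplicit false

namespace Pool.Agent.H12.TP

open MeasureTheory Filter Topology Set Real
open Pool.Agent.PairCorr Pool.Agent.PairCorr.P6
open scoped ENNReal ArithmeticFunction.vonMangoldt

/-- The zeros with ordinate in `(0,T]` at distance at least `y / log T` to the right of the line. -/
def OffW (T y : ℝ) : Set ℂ := {z | z ∈ WT T ∧ y ≤ Real.log T * (z.re - 1 / 2)}

lemma measurableSet_OffW (T y : ℝ) : MeasurableSet (OffW T y) := by
  have h1 : Measurable fun z : ℂ => Real.log T * (z.re - 1 / 2) := by fun_prop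
  have h2 : MeasurableSet {z : ℂ | y ≤ Real.log T * (z.re - 1 / 2)} :=
    measurableSet_le measurable_const h1
  exact (measurableSet_WT_od T).inter h2

/-- The mass of the off-line zeros near height `t`. -/
noncomputable def offMass (x y T t : ℝ) : ℝ≥0∞ :=
  ∫⁻ z, ({p : ℝ × ℂ | p.2 ∈ OffW T y ∧ |Real.log T * (p.2.im - p.1)| ≤ x}).indicator
    (fun _ => (1 : ℝ≥0∞)) (t, z) ∂muZ

lemma measurableSet_offE (x y T : ℝ) :
    MeasurableSet {p : ℝ × ℂ | p.2 ∈ OffW T y ∧ |Real.log T * (p.2.im - p.1)| ≤ x} := by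
  have h : Measurable fun p : ℝ × ℂ => Real.log T * (p.2.im - p.1) := by fun_prop
  have h2 : MeasurableSet {p : ℝ × ℂ | |Real.log T * (p.2.im - p.1)| ≤ x} :=
    measurableSet_le h.norm measurable_const
  exact (measurable_snd (measurableSet_OffW T y)).inter h2

/-- Tonelli: the mass of the off-line zeros is controlled by the local masses. -/
lemma tonelli_off {x y T : ℝ} (hx : 0 < x) (hL : 0 < Real.log T) (hT : x / Real.log T ≤ T / 2) :
    ENNReal.ofReal (x / Real.log T) * muZ (OffW T y) ≤ ∫⁻ t in Ioc (0:ℝ) T, offMass x y T t := by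
  unfold offMass
  have hme : AEMeasurable (Function.uncurry fun (t : ℝ) (z : ℂ) =>
      ({p : ℝ × ℂ | p.2 ∈ OffW T y ∧ |Real.log T * (p.2.im - p.1)| ≤ x}).indicator
        (fun _ => (1 : ℝ≥0∞)) (t, z)) ((volume.restrict (Ioc (0:ℝ) T)).prod muZ) :=
    (measurable_const.indicator (measurableSet_offE x y T)).aemeasurable
  rw [lintegral_lintegral_swap hme]
  have h1 : ENNReal.ofReal (x / Real.log T) * muZ (OffW T y) =
      ∫⁻ z, (OffW T y).indicator (fun _ => ENNReal.ofReal (x / Real.log T)) z ∂muZ := by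
    rw [lintegral_indicator (measurableSet_OffW T y), setLIntegral_const]
  rw [h1]
  apply lintegral_mono
  intro z
  by_cases hz : z ∈ OffW T y
  · rw [indicator_of_mem hz]
    have hzW : 0 < z.im ∧ z.im ≤ T := hz.1
    -- an interval of length `x / L` inside
    have h2 : ∀ a : ℝ, 0 ≤ a → a + x / Real.log T ≤ T → |a - z.im| ≤ x / Real.log T →
        |a + x / Real.log T - z.im| ≤ x / Real.log T →
        ENNReal.ofReal (x / Real.log T) ≤ ∫⁻ t in Ioc (0:ℝ) T,
          ({p : ℝ × ℂ | p.2 ∈ OffW T y ∧ |Real.log T * (p.2.im - p.1)| ≤ x}).indicator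
            (fun _ => (1 : ℝ≥0∞)) (t, z) := by
      intro a ha haT h3 h4
      have h5 : ENNReal.ofReal (x / Real.log T) =
          ∫⁻ t in Ioc a (a + x / Real.log T), (1 : ℝ≥0∞) := by
        rw [setLIntegral_const, Real.volume_Ioc, one_mul]
        congr 1; ring
      rw [h5, ← lintegral_indicator measurableSet_Ioc, ← lintegral_indicator measurableSet_Ioc]
      apply lintegral_mono
      intro t
      by_cases ht : t ∈ Ioc a (a + x / Real.log T)
      · have ht2 : t ∈ Ioc (0:ℝ) T := ⟨by linarith [ht.1], by linarith [ht.2]⟩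
        rw [indicator_of_mem ht, indicator_of_mem ht2, indicator_of_mem]
        refine ⟨hz, ?_⟩
        show |Real.log T * (z.im - t)| ≤ x
        rw [abs_mul, abs_of_pos hL]
        have h6 : |z.im - t| ≤ x / Real.log T := by
          rw [abs_le] at h3 h4 ⊢
          constructor
          · linarith [ht.2, h4.2]
          · linarith [ht.1, h3.1]
        calc Real.log T * |z.im - t| ≤ Real.log T * (x / Real.log T) :=
              mul_le_mul_of_nonneg_left h6 hL.le
          _ = x := by field_simp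
      · rw [indicator_of_notMem ht]
        exact zero_le
    have hxL : 0 < x / Real.log T := by positivity
    rcases le_or_gt z.im (T / 2) with h | h
    · apply h2 z.im hzW.1.le (by linarith)
      · simp only [sub_self, abs_zero]; exact hxL.le
      · rw [add_sub_cancel_left, abs_of_pos hxL]
    · apply h2 (z.im - x / Real.log T) (by linarith) (by linarith)
      · rw [sub_sub_cancel_left, abs_neg, abs_of_pos hxL]
      · rw [sub_add_cancel, sub_self, abs_zero]; exact hxL.le
  · rw [indicator_of_notMem hz]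
    exact zero_le

lemma offMass_le {x y T c : ℝ} (hx1 : x ≤ 1) (hL : 0 < Real.log T) (hc : 0 < c) (t : ℝ) :
    offMass x y T t ≤ 16 * Qs c T t := by
  unfold offMass Qs
  rw [← lintegral_const_mul' _ _ (by norm_num)]
  apply lintegral_mono
  intro z
  show ({p : ℝ × ℂ | p.2 ∈ OffW T y ∧ |Real.log T * (p.2.im - p.1)| ≤ x}).indicator
    (fun _ => (1 : ℝ≥0∞)) (t, z) ≤
    16 * ENNReal.ofReal (wgt c T z * ((1 + |Real.log T * (z.im - t)|) ^ 4)⁻¹)
  by_cases hz : (t, z) ∈ {p : ℝ × ℂ | p.2 ∈ OffW T y ∧ |Real.log T * (p.2.im - p.1)| ≤ x}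
  · rw [indicator_of_mem hz]
    have h1 : |Real.log T * (z.im - t)| ≤ x := hz.2
    have h2 : (1 + |Real.log T * (z.im - t)|) ^ 4 ≤ 16 := by
      calc (1 + |Real.log T * (z.im - t)|) ^ 4 ≤ 2 ^ 4 :=
            pow_le_pow_left₀ (by positivity) (by linarith) 4
        _ = 16 := by norm_num
    have h3 : (1:ℝ) ≤ wgt c T z := by
      unfold wgt
      apply Real.one_le_exp
      positivity
    have h4 : (1:ℝ) ≤ 16 * (wgt c T z * ((1 + |Real.log T * (z.im - t)|) ^ 4)⁻¹) := by
      have h5 : (1:ℝ) / 16 ≤ ((1 + |Real.log T * (z.im - t)|) ^ 4)⁻¹ := by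
        rw [one_div]
        exact inv_anti₀ (by positivity) h2
      have h6 : 1 * (1 / 16 : ℝ) ≤ wgt c T z * ((1 + |Real.log T * (z.im - t)|) ^ 4)⁻¹ :=
        mul_le_mul h3 h5 (by norm_num) (by linarith)
      linarith
    calc (1 : ℝ≥0∞) = ENNReal.ofReal 1 := by simp
      _ ≤ ENNReal.ofReal (16 * (wgt c T z * ((1 + |Real.log T * (z.im - t)|) ^ 4)⁻¹)) :=
          ENNReal.ofReal_le_ofReal h4
      _ = _ := by
          rw [ENNReal.ofReal_mul (by norm_num)]
          norm_num
  · rw [indicator_of_notMem hz]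
    exact zero_le

lemma offMass_eq_zero {x y T t : ℝ} (h : ¬ OffAt x y T t) : offMass x y T t = 0 := by
  unfold offMass
  have hme : Measurable fun z : ℂ =>
      ({p : ℝ × ℂ | p.2 ∈ OffW T y ∧ |Real.log T * (p.2.im - p.1)| ≤ x}).indicator
        (fun _ => (1 : ℝ≥0∞)) (t, z) :=
    (measurable_const.indicator (measurableSet_offE x y T)).comp measurable_prodMk_left
  rw [lintegral_eq_zero_iff hme]
  filter_upwards [muZ_ae] with z hz
  simp only [Pi.zero_apply]
  apply indicator_of_notMem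
  intro hz2
  exact h ⟨z, hz, hz2.2, hz2.1.2⟩

/-- Pointwise bound which replaces Cauchy-Schwarz. -/
lemma le_add_sq_div (m : ℝ≥0∞) {A : ℝ} (hA : 0 < A) :
    m ≤ ENNReal.ofReal A + ENNReal.ofReal A⁻¹ * m ^ 2 := by
  rcases le_or_gt m (ENNReal.ofReal A) with h | h
  · exact h.trans le_self_add
  · refine le_trans ?_ le_add_self
    calc m = 1 * m := (one_mul m).symm
      _ = (ENNReal.ofReal A⁻¹ * ENNReal.ofReal A) * m := by
          rw [← ENNReal.ofReal_mul (by positivity), inv_mul_cancel₀ hA.ne']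
          simp
      _ ≤ (ENNReal.ofReal A⁻¹ * m) * m := by gcongr
      _ = ENNReal.ofReal A⁻¹ * m ^ 2 := by ring

lemma off_count {x y T c C A η : ℝ} (hx : 0 < x) (hx1 : x ≤ 1) (hL : 0 < Real.log T) (hT0 : 0 < T)
    (hT : x / Real.log T ≤ T / 2) (hc : 0 < c) (hC : 0 < C) (hA : 0 < A)
    (hη : 0 < η)
    (hQ : ∫⁻ t in Ioc (0:ℝ) T, Qs c T t ^ 2 ≤ ENNReal.ofReal (C * T))
    (hR : volume {t : ℝ | t ∈ Ioc 0 T ∧ OffAt x y T t} ≤ ENNReal.ofReal (η * T)) :
    ENNReal.ofReal (x / Real.log T) * muZ (OffW T y) ≤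
      ENNReal.ofReal ((A * η + 256 * C / A) * T) := by
  refine (tonelli_off hx hL hT).trans ?_
  set R : Set ℝ := {t : ℝ | t ∈ Ioc 0 T ∧ OffAt x y T t} with hRdef
  have h1 : ∫⁻ t in Ioc (0:ℝ) T, offMass x y T t ≤ ∫⁻ t in Ioc (0:ℝ) T,
      (ENNReal.ofReal A * R.indicator 1 t + ENNReal.ofReal (256 / A) * Qs c T t ^ 2) := by
    apply setLIntegral_mono' measurableSet_Ioc
    intro t ht
    by_cases hO : OffAt x y T t
    · have htR : t ∈ R := ⟨ht, hO⟩
      rw [indicator_of_mem htR]
      refine (le_add_sq_div _ hA).trans ?_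
      simp only [Pi.one_apply, mul_one]
      refine add_le_add le_rfl ?_
      calc ENNReal.ofReal A⁻¹ * offMass x y T t ^ 2 ≤ ENNReal.ofReal A⁻¹ * (16 * Qs c T t) ^ 2 := by
            gcongr
            exact offMass_le hx1 hL hc t
        _ = ENNReal.ofReal (256 / A) * Qs c T t ^ 2 := by
            rw [mul_pow, ← mul_assoc]
            congr 1
            rw [div_eq_mul_inv, ENNReal.ofReal_mul (by norm_num), mul_comm]
            congr 1
            norm_num
    · rw [offMass_eq_zero hO]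
      exact zero_le
  refine h1.trans ?_
  rw [lintegral_add_right _ (((Qs_measurable c T).pow_const 2).const_mul _),
    lintegral_const_mul' _ _ ENNReal.ofReal_ne_top,
    lintegral_const_mul' _ _ ENNReal.ofReal_ne_top]
  have h2 : ∫⁻ t in Ioc (0:ℝ) T, R.indicator 1 t ≤ ENNReal.ofReal (η * T) := by
    refine (lintegral_indicator_one_le R).trans ?_
    exact (Measure.restrict_apply_le _ _).trans hR
  calc _ ≤ ENNReal.ofReal A * ENNReal.ofReal (η * T) +
        ENNReal.ofReal (256 / A) * ENNReal.ofReal (C * T) := by gcongr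
    _ = _ := by
        rw [← ENNReal.ofReal_mul (by positivity), ← ENNReal.ofReal_mul (by positivity),
          ← ENNReal.ofReal_add (by positivity) (by positivity)]
        congr 1
        field_simp

lemma FarW_le {T ε : ℝ} (hL : 0 < Real.log T) : muZ (FarW T ε) ≤ 2 * muZ (OffW T ε) := by
  have h1 : FarW T ε ⊆ OffW T ε ∪ sg ⁻¹' (OffW T ε) := by
    rintro z ⟨hz, hz2⟩
    rw [div_lt_iff₀ hL] at hz2
    rcases le_or_gt 0 (z.re - 1 / 2) with h | h
    · left
      rw [abs_of_nonneg h] at hz2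
      exact ⟨hz, by linarith⟩
    · right
      rw [abs_of_neg h] at hz2
      refine ⟨?_, ?_⟩
      · show 0 < (sg z).im ∧ (sg z).im ≤ T
        rw [sg_im]; exact hz
      · rw [sg_re]; nlinarith
  calc muZ (FarW T ε) ≤ muZ (OffW T ε ∪ sg ⁻¹' (OffW T ε)) := measure_mono h1
    _ ≤ muZ (OffW T ε) + muZ (sg ⁻¹' (OffW T ε)) := measure_union_le _ _
    _ = 2 * muZ (OffW T ε) := by
        rw [mp_sg.measure_preimage (measurableSet_OffW T ε).nullMeasurableSet, two_mul]

theorem nearLine_of_off (h : ∀ y : ℝ, 0 < y → ∃ x : ℝ, 0 < x ∧ x ≤ 1 ∧ ∀ η : ℝ, 0 < η →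
    ∀ᶠ T : ℝ in atTop, volume {t : ℝ | t ∈ Ioc 0 T ∧ OffAt x y T t} ≤ ENNReal.ofReal (η * T)) :
    NearLine atTop := by
  intro ε hε
  obtain ⟨x, hx, hx1, hη⟩ := h ε hε
  obtain ⟨c, hc, hc1, C, hC, T₀, hT₀, hQ⟩ := Q_moments
  rw [Metric.tendsto_nhds]
  intro δ hδ
  -- choice of the parameters
  set A : ℝ := 4 * 256 * C / (δ * x) + 1 with hAdef
  have hA : 0 < A := by positivity
  set η : ℝ := δ * x / (8 * A) with hηdef
  have hη0 : 0 < η := by positivity
  have hbnd : A * η + 256 * C / A ≤ 3 * δ * x / 8 := by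
    have h1 : A * η = δ * x / 8 := by rw [hηdef]; field_simp
    have h2 : 256 * C / A ≤ δ * x / 4 := by
      rw [div_le_iff₀ hA, hAdef]
      have h3 : δ * x / 4 * (4 * 256 * C / (δ * x) + 1) = 256 * C + δ * x / 4 := by
        field_simp
      rw [h3]
      have : 0 < δ * x := by positivity
      linarith
    rw [h1]
    have : 3 * δ * x / 8 = δ * x / 8 + δ * x / 4 := by ring
    linarith
  filter_upwards [hη η hη0, eventually_ge_atTop T₀, eventually_ge_atTop (Real.exp 1),
    eventually_ge_atTop (2 : ℝ)] with T h1 h2 h3 h4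
  have hT0 : 0 < T := by linarith
  have hL1 : 1 ≤ Real.log T := by rw [Real.le_log_iff_exp_le hT0]; exact h3
  have hL : 0 < Real.log T := by linarith
  have hxT : x / Real.log T ≤ T / 2 := by
    have : x / Real.log T ≤ 1 := by
      rw [div_le_one hL]; linarith
    linarith
  have h5 := off_count hx hx1 hL hT0 hxT hc hC hA hη0 (hQ T h2 2 (by norm_num)) h1
  have h6 : muZ (OffW T ε) ≤ ENNReal.ofReal (3 * δ / 8 * (T * Real.log T)) := by
    have hpos : ENNReal.ofReal (x / Real.log T) ≠ 0 := by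
      rw [ne_eq, ENNReal.ofReal_eq_zero, not_le]; positivity
    have h7 : ENNReal.ofReal (x / Real.log T) * muZ (OffW T ε) ≤
        ENNReal.ofReal (x / Real.log T) * ENNReal.ofReal (3 * δ / 8 * (T * Real.log T)) := by
      refine h5.trans ?_
      rw [← ENNReal.ofReal_mul (by positivity)]
      apply ENNReal.ofReal_le_ofReal
      calc (A * η + 256 * C / A) * T ≤ 3 * δ * x / 8 * T := by gcongr
        _ = x / Real.log T * (3 * δ / 8 * (T * Real.log T)) := by field_simp
    exact (ENNReal.mul_le_mul_iff_right hpos ENNReal.ofReal_ne_top).1 h7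
  have h8 : muZ (FarW T ε) ≤ ENNReal.ofReal (3 * δ / 4 * (T * Real.log T)) := by
    refine (FarW_le hL).trans ?_
    calc 2 * muZ (OffW T ε) ≤ 2 * ENNReal.ofReal (3 * δ / 8 * (T * Real.log T)) := by gcongr
      _ = _ := by
          have : (2 : ℝ≥0∞) = ENNReal.ofReal 2 := by norm_num
          rw [this, ← ENNReal.ofReal_mul (by norm_num)]
          congr 1; ring
  have h9 : (muZ (FarW T ε)).toReal ≤ 3 * δ / 4 * (T * Real.log T) :=
    ENNReal.toReal_le_of_le_ofReal (by positivity) h8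
  rw [Real.dist_eq, sub_zero, abs_of_nonneg (by positivity), div_lt_iff₀ (by positivity)]
  refine h9.trans_lt ?_
  have : 0 < T * Real.log T := by positivity
  nlinarith

end Pool.Agent.H12.TP
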