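import Pool.Agent.H12.TP.Squares

/-!
# Rigidity

PROOF.  Notation: for `g` with `PT g a b`, `λ_T(g) = ∫ ρ1 g - S0 g T`.  For `g ≥ 0`: `-ε ≤ λ_T(g)` (by `hU`), and
`S0 g T ≥ -ε` (`S0_lower`).
(N) small band: there is `b₀ > 0` with `S0 k T → ck k` for even `k`, `TF k b₀`: `statementS'`
(`Spair k T/NT → k 0 + ∫ |v| k v`, and `|v| = ρ1 v` on the support as `b₀ ≤ 1`) and `statementOD2_near
Pool.Agent.PC10.statementB` (`‖Spair k T - Spair0 k T‖/(T log T) → 0` under `NearLine`), `l = atTop`.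
(P) `kA A` (P6_Rig): `TF (kA A) (2A)`, even, `≥ 0`, `rr (kA A) ≥ 0`, `rr (kA A) 0 = A`, so
`S0 (kA A) T ≥ A * Mr T ≥ A (1 - ε)` eventually (drop all pairs with different ordinates; `Mr_ge_ratio`,
`NCount_NT`); `ck (kA A) ≤ A + C/A` (`deficit`).
(D) Let `g ≥ 0`, `PT g e B`.  Let `χ` be even, smooth, `0 ≤ χ ≤ 1`, `χ = 1` near `0`, `χ v = 0` for `|v| ≥ min(e, b₀)`.
`kA A = χ kA A + G(v) + G(-v)`, `G v = (1 - χ v) kA A v` for `v > 0`, `0` for `v ≤ 0`; `PT G e' (2A)`, `G ≥ 0`.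
So `2 λ_T(G) = ck (kA A) - ck (χ kA A) - (S0 (kA A) T - S0 (χ kA A) T) ≤ C/A + o(1)` by (N), (P)
(note `ck (kA A) - ck (χ kA A) = 2 ∫ ρ1 G`, as `χ 0 = 1`).
For `A` large, `G ≥ kK 0/2 > 0` on `[e,B]` (`kK_lip`), so with `κ = 2 sup g/kK 0`, `κ G - g ≥ 0` and
`λ_T(g) = κ λ_T(G) - λ_T(κ G - g) ≤ κ (C/A + o(1)) + ε`.  Hence `S0 g T → ∫ ρ1 g` for `g ≥ 0`, and for all
`g` with `PT g e B` by `g = (g + K φ) - K φ`, `φ ≥ 0` a smooth bump equal to 1 on `[e,B]`.
Finally an even `k` is `χ k + g(v) + g(-v)` with `PT g ..`: `S0 k T → ck (χ k) + 2 ∫ ρ1 g = ck k`.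
-/

set_option autoImplicit false

namespace Pool.Agent.H12.TP

open MeasureTheory Filter Topology Set Real
open Pool.Agent.PairCorr Pool.Agent.PairCorr.P6
open scoped ENNReal ArithmeticFunction.vonMangoldt

variable {k g : ℝ → ℝ} {a b : ℝ}

/-- (N) the small band -/
lemma near_S0 (hN : NearLine atTop) : ∃ b₀ : ℝ, 0 < b₀ ∧ b₀ ≤ 1 ∧ ∀ k : ℝ → ℝ, TF k b₀ →
    (∀ v, k (-v) = k v) → Tendsto (S0 k) atTop (𝓝 (ck k)) := by
  obtain ⟨b₀, hb₀, h⟩ := statementS'
  obtain ⟨b₁, hb₁, hOD⟩ := statementOD2_near Pool.Agent.PC10.statementB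
  refine ⟨min (min b₀ b₁) 1, lt_min (lt_min hb₀ hb₁) one_pos, min_le_right _ _, fun k hk hev => ?_⟩
  have hb0' : min (min b₀ b₁) 1 ≤ b₀ := (min_le_left _ _).trans (min_le_left _ _)
  have hb1' : min (min b₀ b₁) 1 ≤ b₁ := (min_le_left _ _).trans (min_le_right _ _)
  have h1 := h k (hk.mono hb0') hev
  have h2 := (Complex.continuous_re.tendsto _).comp h1
  have h3 : k 0 + ∫ v, |v| * k v = ck k := by
    unfold ck
    congr 2
    ext v
    by_cases hv : 1 < |v|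
    · rw [hk.supp v (lt_of_le_of_lt (min_le_right _ _) hv)]; ring
    · rw [ρ1, min_eq_left (not_lt.1 hv)]
  rw [Complex.ofReal_re, h3] at h2
  have h4 := (hOD k (hk.mono hb1') atTop le_rfl hN).const_mul (2 * π)
  rw [mul_zero] at h4
  have h5 : Tendsto (fun T => S0 k T - (Spair k T / ((T * Real.log T / (2 * Real.pi) : ℝ) : ℂ)).re) atTop
      (𝓝 0) := by
    apply squeeze_zero_norm' _ h4
    filter_upwards [eventually_gt_atTop (1 : ℝ)] with T hT
    have hL := Real.log_pos hT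
    have hT0 : 0 < T := by linarith
    have hpi := Real.pi_pos
    unfold S0 NT
    rw [Complex.div_ofReal_re, ← sub_div, Real.norm_eq_abs, abs_div,
      abs_of_pos (by positivity : 0 < T * Real.log T / (2 * π))]
    have h6 : |(Spair0 k T).re - (Spair k T).re| ≤ ‖Spair k T - Spair0 k T‖ := by
      rw [abs_sub_comm, ← Complex.sub_re]
      exact Complex.abs_re_le_norm _
    calc |(Spair0 k T).re - (Spair k T).re| / (T * Real.log T / (2 * π)) ≤
        ‖Spair k T - Spair0 k T‖ / (T * Real.log T / (2 * π)) := by gcongr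
      _ = _ := by field_simp
  have h6 := h5.add h2
  rw [zero_add] at h6
  refine h6.congr fun T => ?_
  simp only [Function.comp]
  ring

/-- the real pair sum of the positive definite test function -/
lemma kA_line {A : ℝ} (hA : 0 < A) (x : ℝ) : Kc (kA A) ((x : ℂ) * Complex.I) = (rr (kA A) x : ℂ) := by
  have h := Kc_even_real (kA_TF hA) (kA_even A) x
  unfold rr
  rw [h, Complex.ofReal_re]

/-- (P) the diagonal lower bound -/
lemma kA_lower {A : ℝ} (hA : 0 < A) : ∀ᶠ T : ℝ in atTop, A * Mr T ≤ S0 (kA A) T := by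
  obtain ⟨C, hC, U₀, hU₀, hPB⟩ := PB_real
  obtain ⟨C1, hC1, hq⟩ := rr_q4 (kA_TF hA)
  filter_upwards [eventually_ge_atTop U₀, eventually_ge_atTop (Real.exp 1)] with T hT hTe
  have hT0 : 0 < T := (Real.exp_pos 1).trans_le hTe
  have hL1 : 1 ≤ Real.log T := by rw [Real.le_log_iff_exp_le hT0]; exact hTe
  have hNT := NT_pos hL1 hT0
  have h2 := (hPB T hT (Real.log T) hL1 (by linarith)).1
  have hset : {p : ℂ × ℂ | 0 < p.1.im ∧ p.1.im ≤ T} = WT T ×ˢ univ := by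
    ext p; simp [WT]
  have hnu : nu T = (muZ.prod muZ).restrict {p : ℂ × ℂ | 0 < p.1.im ∧ p.1.im ≤ T} := by
    unfold nu
    rw [hset, muW_prod_restrict]
  have hi : Integrable (fun p : ℂ × ℂ => rr (kA A) (Real.log T * (p.1.im - p.2.im))) (nu T) := by
    rw [hnu]
    have h3 : IntegrableOn (fun p : ℂ × ℂ => C1 * Pool.Agent.PairCorr.P1.q4 (Real.log T * (p.1.im - p.2.im)))
        {p : ℂ × ℂ | 0 < p.1.im ∧ p.1.im ≤ T} (muZ.prod muZ) := by
      apply IntegrableOn.mono_set (h2.const_mul C1)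
      rintro p ⟨a, b⟩
      show |p.1.im| ≤ T
      rw [abs_of_pos a]; exact b
    refine Integrable.mono' h3 ?_ (Eventually.of_forall fun p => ?_)
    · exact ((rr_cont (kA_TF hA)).comp (by fun_prop)).aestronglyMeasurable
    · rw [Real.norm_eq_abs]; exact hq _
  have hre : (Spair0 (kA A) T).re = ∫ p, rr (kA A) (Real.log T * (p.1.im - p.2.im)) ∂(nu T) := by
    unfold Spair0
    have e : ∀ p : ℂ × ℂ, Kc (kA A) (((Real.log T * (p.1.im - p.2.im) : ℝ) : ℂ) * Complex.I) =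
        ((rr (kA A) (Real.log T * (p.1.im - p.2.im)) : ℝ) : ℂ) := fun p => kA_line hA _
    simp_rw [e]
    rw [integral_complex_ofReal, Complex.ofReal_re]
    rfl
  have hmeas : MeasurableSet {p : ℂ × ℂ | p.1.im = p.2.im} :=
    measurableSet_eq_fun (by fun_prop) (by fun_prop)
  have h5 : A * ((nu T) {p | p.1.im = p.2.im}).toReal ≤ (Spair0 (kA A) T).re := by
    rw [hre]
    have h6 : ∫ p in {p : ℂ × ℂ | p.1.im = p.2.im}, rr (kA A) (Real.log T * (p.1.im - p.2.im)) ∂(nu T) =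
        A * ((nu T) {p | p.1.im = p.2.im}).toReal := by
      rw [setIntegral_congr_fun (g := fun _ => A) hmeas, setIntegral_const]
      · rw [smul_eq_mul, mul_comm]; rfl
      · intro p hp
        have hp' : p.1.im = p.2.im := hp
        simp only
        rw [hp', sub_self, mul_zero, rr_kA_zero hA]
    rw [← h6]
    exact setIntegral_le_integral hi (Eventually.of_forall fun p => rr_kA_nonneg hA _)
  unfold Mr S0
  rw [← mul_div_assoc]
  exact div_le_div_of_nonneg_right h5 hNT.le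

/-- splitting of an even test function -/
lemma split_even (hk : TF k b) (hev : ∀ v, k (-v) = k v) {b₀ : ℝ} (hb₀ : 0 < b₀) :
    ∃ (kn kf : ℝ → ℝ) (B : ℝ), TF kn b₀ ∧ (∀ v, kn (-v) = kn v) ∧ PT kf (b₀ / 2) B ∧
      ((∀ v, 0 ≤ k v) → ∀ v, 0 ≤ kf v) ∧ (∀ v, b₀ < v → kf v = k v) ∧
      ck k = ck kn + 2 * (∫ v, ρ1 v * kf v) ∧ ∀ᶠ T : ℝ in atTop, S0 k T = S0 kn T + 2 * S0 kf T := by
  obtain ⟨kn, kf, B, hB, t1, ev1, t2, hpos, hsum, hnn, hfar⟩ := Pool.Agent.PairCorr.P6.decomp hb₀ hk hev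
  have hB0 : 0 ≤ B := by linarith
  have hPT : PT kf (b₀ / 2) B := by
    refine ⟨t2.smooth, by positivity, fun v hv => ?_⟩
    rw [mem_Icc, not_and_or, not_le, not_le] at hv
    rcases hv with h | h
    · exact hpos v h
    · exact t2.supp v (lt_of_lt_of_le h (le_abs_self v))
  refine ⟨kn, kf, B, t1, ev1, hPT, hnn, hfar, ?_, ?_⟩
  · have e0 : kf 0 = 0 := hpos 0 (by positivity)
    have e1 : k 0 = kn 0 := by have := hsum 0; rw [neg_zero, e0] at this; linarith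
    have e3 : ∫ v, ρ1 v * kf (-v) = ∫ v, ρ1 v * kf v := by
      rw [← integral_neg_eq_self]
      congr 1; ext v
      rw [neg_neg, ρ1_even]
    have e4 : ∫ v, ρ1 v * k v = ∫ v, (ρ1 v * kn v + (ρ1 v * kf v + ρ1 v * kf (-v))) := by
      congr 1; ext v; rw [hsum v]; ring
    have t3 : TF (fun v => kf (-v)) B := t2.reflect
    have i2 : Integrable (fun v => ρ1 v * kf v + ρ1 v * kf (-v)) := (ρ1k_int t2).add (ρ1k_int t3)
    unfold ck
    rw [e1, e4, integral_add (ρ1k_int t1) i2, integral_add (ρ1k_int t2) (ρ1k_int t3), e3]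
    ring
  · have tn : TF kn (max b₀ B) := t1.mono (le_max_left _ _)
    have tf : TF kf (max b₀ B) := t2.mono (le_max_right _ _)
    have tr : TF (fun v => kf (-v)) (max b₀ B) := tf.reflect
    have hmx : 0 ≤ max b₀ B := hb₀.le.trans (le_max_left _ _)
    filter_upwards [S0_add tn (tf.add tr) hmx, S0_add tf tr hmx] with T h1 h2
    have h4 : k = fun v => kn v + (kf v + kf (-v)) := funext hsum
    conv_lhs => rw [h4]
    rw [h1, h2, S0_reflect]
    ring

lemma Mr_ev {ε : ℝ} (hε : 0 < ε) : ∀ᶠ T : ℝ in atTop, 1 - ε ≤ Mr T := by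
  filter_upwards [NCount_NT.eventually_const_lt (show 1 - ε < 1 by linarith),
    eventually_ge_atTop (Real.exp 1)] with T h1 h2
  exact h1.le.trans (Mr_ge_ratio h2)

/-- (D) the lower bound -/
lemma lower_g (hN : NearLine atTop)
    (hU : ∀ (g : ℝ → ℝ) (a b : ℝ), PT g a b → (∀ v, 0 ≤ g v) → ∀ ε : ℝ, 0 < ε →
      ∀ᶠ T : ℝ in atTop, S0 g T ≤ (∫ v, ρ1 v * g v) + ε) (hg : PT g a b) (_h0 : ∀ v, 0 ≤ g v) {ε : ℝ}
    (hε : 0 < ε) : ∀ᶠ T : ℝ in atTop, (∫ v, ρ1 v * g v) - ε ≤ S0 g T := by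
  obtain ⟨b₀, hb₀, hb₀1, hnear⟩ := near_S0 hN
  obtain ⟨C, hC, hdef⟩ := deficit
  obtain ⟨D, hD, hlip⟩ := kK_lip
  have hk0 := kK_zero
  have ha := hg.pos
  obtain ⟨M, hM⟩ : ∃ M, ∀ v, ‖g v‖ ≤ M := hg.tf.hasCompactSupport.exists_bound_of_continuous hg.tf.cont
  have hM0 : 0 ≤ M := (norm_nonneg _).trans (hM 0)
  set κ : ℝ := 2 * M / kK 0 with hκ
  have hκ0 : 0 ≤ κ := by positivity
  set b₁ : ℝ := min b₀ (a / 2) with hb₁
  have hb₁0 : 0 < b₁ := lt_min hb₀ (by positivity)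
  have hb₁a : b₁ < a := lt_of_le_of_lt (min_le_right _ _) (by linarith)
  -- choice of A
  obtain ⟨A, hA1, hAd, hAC⟩ : ∃ A : ℝ, 1 ≤ A ∧ D * (|b| / A) ≤ kK 0 / 2 ∧ κ * (C / A) ≤ ε / 2 := by
    have h1 : Tendsto (fun A : ℝ => D * (|b| / A)) atTop (𝓝 (D * 0)) :=
      (tendsto_const_nhds.div_atTop tendsto_id).const_mul D
    have h2 : Tendsto (fun A : ℝ => κ * (C / A)) atTop (𝓝 (κ * 0)) :=
      (tendsto_const_nhds.div_atTop tendsto_id).const_mul κ
    rw [mul_zero] at h1 h2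
    obtain ⟨A, g1, g2, g3⟩ := ((h1.eventually_lt_const (show 0 < kK 0 / 2 by positivity)).and
      ((h2.eventually_lt_const (show 0 < ε / 2 by positivity)).and (eventually_ge_atTop 1))).exists
    exact ⟨A, g3, g1.le, g2.le⟩
  have hA0 : 0 < A := by linarith
  obtain ⟨kn, kf, B, t1, ev1, hPT, hnn, hfar, hck, hS⟩ := split_even (kA_TF hA0) (kA_even A) hb₁0
  have hkf0 := hnn (kA_nonneg A)
  set B' := max B b with hB'
  have p1 : PT kf (b₁ / 2) B' := hPT.mono le_rfl (by positivity) (le_max_left _ _)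
  have p2 : PT g (b₁ / 2) B' := hg.mono (by linarith) (by positivity) (le_max_right _ _)
  have hB0 : 0 ≤ |B'| := abs_nonneg _
  have ph : PT (fun v => κ * kf v + (-1) * g v) (b₁ / 2) B' := by
    refine ⟨(contDiff_const.mul p1.smooth).add (contDiff_const.mul p2.smooth), p1.pos, fun v hv => ?_⟩
    rw [p1.supp v hv, p2.supp v hv]; ring
  have hh0 : ∀ v, 0 ≤ κ * kf v + (-1) * g v := by
    intro v
    by_cases hv : v ∈ Icc a b
    · have h1 : kf v = kA A v := hfar v (by linarith [hv.1])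
      have h2 : kK 0 / 2 ≤ kA A v := by
        have h3 := (abs_le.1 (hlip (v / A))).1
        have h4 : D * |v / A| ≤ D * (|b| / A) := by
          have hvb : |v| ≤ |b| := by
            rw [abs_of_nonneg (by linarith [hv.1] : 0 ≤ v)]
            exact hv.2.trans (le_abs_self b)
          rw [abs_div, abs_of_pos hA0]
          exact mul_le_mul_of_nonneg_left (div_le_div_of_nonneg_right hvb hA0.le) hD
        unfold kA
        linarith
      have h5 : g v ≤ M := (le_abs_self _).trans (hM v)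
      have h6 : M ≤ κ * kA A v := by
        calc M = κ * (kK 0 / 2) := by rw [hκ]; field_simp
          _ ≤ _ := by gcongr
      rw [h1]; linarith
    · rw [hg.supp v hv]
      have := mul_nonneg hκ0 (hkf0 v)
      linarith
  -- the limits
  have hkn := hnear kn (t1.mono (min_le_left _ _)) ev1
  set δ : ℝ := ε / (4 * (κ * (A + 1) + 1)) with hδ
  have hδ0 : 0 < δ := by positivity
  have hadd := S0_add ((p1.tf.mono (le_abs_self B')).const_mul κ) ((p2.tf.mono (le_abs_self B')).const_mul (-1)) hB0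
  filter_upwards [hS, hadd, kA_lower hA0, Mr_ev hδ0, hU _ _ _ ph hh0 (ε / 4) (by positivity),
    hkn.eventually_lt_const (show ck kn < ck kn + δ by linarith)] with T g1 g2 g3 g4 g5 g6
  rw [S0_smul, S0_smul] at g2
  have hint : ∫ v, ρ1 v * (κ * kf v + (-1) * g v) = κ * (∫ v, ρ1 v * kf v) - ∫ v, ρ1 v * g v := by
    rw [← integral_const_mul, ← integral_sub ((ρ1k_int hPT.tf).const_mul κ) (ρ1k_int hg.tf)]
    congr 1; ext v; ring
  rw [g2, hint] at g5
  have hd := hdef A hA1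
  have h7 : A * (1 - δ) ≤ S0 (kA A) T := (mul_le_mul_of_nonneg_left g4 hA0.le).trans g3
  -- ∫ρ1 kf ≤ S0 kf + C/A + (A+1) δ
  have h8 : (∫ v, ρ1 v * kf v) - S0 kf T ≤ C / A + (A + 1) * δ := by
    have h9 : 0 ≤ C / A := by positivity
    nlinarith
  have h10 : κ * ((∫ v, ρ1 v * kf v) - S0 kf T) ≤ κ * (C / A) + κ * ((A + 1) * δ) := by
    rw [← mul_add]; exact mul_le_mul_of_nonneg_left h8 hκ0
  have h11 : κ * ((A + 1) * δ) ≤ ε / 4 := by
    rw [hδ]
    have : κ * ((A + 1) * (ε / (4 * (κ * (A + 1) + 1)))) = ε / 4 * (κ * (A + 1) / (κ * (A + 1) + 1)) := by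
      field_simp
    rw [this]
    have h12 : κ * (A + 1) / (κ * (A + 1) + 1) ≤ 1 := by
      rw [div_le_one (by positivity)]; linarith
    nlinarith
  nlinarith

lemma lim_nonneg (hN : NearLine atTop)
    (hU : ∀ (g : ℝ → ℝ) (a b : ℝ), PT g a b → (∀ v, 0 ≤ g v) → ∀ ε : ℝ, 0 < ε →
      ∀ᶠ T : ℝ in atTop, S0 g T ≤ (∫ v, ρ1 v * g v) + ε) (hg : PT g a b) (h0 : ∀ v, 0 ≤ g v) :
    Tendsto (S0 g) atTop (𝓝 (∫ v, ρ1 v * g v)) := by
  rw [Metric.tendsto_nhds]
  intro ε hε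
  filter_upwards [lower_g hN hU hg h0 (show 0 < ε / 2 by positivity), hU g a b hg h0 (ε / 2) (by positivity)]
    with T h1 h2
  rw [Real.dist_eq, abs_lt]
  constructor <;> linarith

lemma lim_signed (hN : NearLine atTop)
    (hU : ∀ (g : ℝ → ℝ) (a b : ℝ), PT g a b → (∀ v, 0 ≤ g v) → ∀ ε : ℝ, 0 < ε →
      ∀ᶠ T : ℝ in atTop, S0 g T ≤ (∫ v, ρ1 v * g v) + ε) (hg : PT g a b) :
    Tendsto (S0 g) atTop (𝓝 (∫ v, ρ1 v * g v)) := by
  have ha := hg.pos
  obtain ⟨M, hM⟩ : ∃ M, ∀ v, ‖g v‖ ≤ M := hg.tf.hasCompactSupport.exists_bound_of_continuous hg.tf.cont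
  have hM0 : 0 ≤ M := (norm_nonneg _).trans (hM 0)
  obtain ⟨p, hp, hp0, hp1, hpa, hpb, hpp⟩ := exists_plateau (a := a / 2) (a' := a) (b' := b) (b := b + 1)
    (by linarith) (by linarith)
  have P1 : PT p (a / 2) (b + 1) := by
    refine ⟨hp.smooth, by positivity, fun v hv => ?_⟩
    rw [mem_Icc, not_and_or, not_le, not_le] at hv
    rcases hv with h | h
    · exact hpa v h.le
    · exact hpb v h.le
  have P2 : PT g (a / 2) (b + 1) := hg.mono (by linarith) (by positivity) (by linarith)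
  have PM : PT (fun v => M * p v) (a / 2) (b + 1) := by
    refine ⟨contDiff_const.mul P1.smooth, P1.pos, fun v hv => ?_⟩
    rw [P1.supp v hv]; ring
  have PS' : PT (fun v => g v + M * p v) (a / 2) (b + 1) := by
    refine ⟨P2.smooth.add PM.smooth, P1.pos, fun v hv => ?_⟩
    rw [P1.supp v hv, P2.supp v hv]; ring
  have hsum0 : ∀ v, 0 ≤ g v + M * p v := by
    intro v
    by_cases hv : v ∈ Icc a b
    · rw [hpp v hv.1 hv.2]
      have := (abs_le.1 (hM v)).1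
      linarith
    · rw [hg.supp v hv]
      have := mul_nonneg hM0 (hp0 v)
      linarith
  have h1 := lim_nonneg hN hU PS' hsum0
  have h2 := lim_nonneg hN hU PM fun v => mul_nonneg hM0 (hp0 v)
  have h3 := h1.sub h2
  have hint : (∫ v, ρ1 v * (g v + M * p v)) - (∫ v, ρ1 v * (M * p v)) = ∫ v, ρ1 v * g v := by
    rw [← integral_sub (ρ1k_int PS'.tf) (ρ1k_int PM.tf)]
    congr 1; ext v; ring
  rw [hint] at h3
  refine h3.congr' ?_
  filter_upwards [S0_add (P2.tf.mono (le_abs_self (b + 1))) (PM.tf.mono (le_abs_self (b + 1))) (abs_nonneg _)]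
    with T h
  rw [h]; ring

theorem rigid (hN : NearLine atTop)
    (hU : ∀ (g : ℝ → ℝ) (a b : ℝ), PT g a b → (∀ v, 0 ≤ g v) → ∀ ε : ℝ, 0 < ε →
      ∀ᶠ T : ℝ in atTop, S0 g T ≤ (∫ v, ρ1 v * g v) + ε) :
    ∀ (k : ℝ → ℝ) (b : ℝ), TF k b → (∀ v, k (-v) = k v) → Tendsto (S0 k) atTop (𝓝 (ck k)) := by
  intro k b hk hev
  obtain ⟨b₀, hb₀, hb₀1, hnear⟩ := near_S0 hN
  obtain ⟨kn, kf, B, t1, ev1, hPT, hnn, hfar, hck, hS⟩ := split_even hk hev hb₀
  have h1 := (hnear kn t1 ev1).add ((lim_signed hN hU hPT).const_mul 2)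
  rw [hck]
  refine h1.congr' ?_
  filter_upwards [hS] with T hT
  rw [hT]

end Pool.Agent.H12.TP
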