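import Pool.Agent.H12.TP.EF
import Pool.Agent.H12.TP.Fourth
import Pool.Agent.H12.TP.Close

/-!
# Removing the truncation on the zero side

PROOF.  Write `P = PS W T t`, `Z = Zs W L t`, `Y = Zo W L t`.  By `mean_Zo` it is enough to bound
`T⁻¹ ∫_0^T ‖Y‖²` from above by `∫ ρ1 W² + ε`.  Let `M ≥ 4` be large, `δ ∈ (0,1]` small (depending on `M`).
For every `t ∈ (0,T]`:
`‖Y‖² ≤ min(‖P‖², 4M) + ‖Y‖⁴/M + M 1_B(t) + 6 δ √M`, where `B` is the union of `(0,√T]` and of a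
measurable superset of the set of the `t` with `‖Z - Y‖ > δ` (`close`).  Outside `B`:
`‖P + Y‖ ≤ 2 δ` (`explicit_pos` with `δ`: `‖Z + P‖ ≤ δ`).
-/

set_option autoImplicit false

namespace Pool.Agent.H12.TP

open MeasureTheory Filter Topology Set Real
open Pool.Agent.PairCorr Pool.Agent.PairCorr.P6
open scoped ENNReal ArithmeticFunction.vonMangoldt

/-- the pointwise inequality at a good point -/
lemma sq_le_min_of_close {p y : ℂ} {M δ : ℝ} (hM : 4 ≤ M) (hδ : 0 < δ) (hδ1 : δ ≤ 1)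
    (h : ‖p + y‖ ≤ 2 * δ) (hy : ‖y‖ ^ 2 ≤ M) :
    ‖y‖ ^ 2 ≤ min (‖p‖ ^ 2) (4 * M) + 3 * δ * M := by
  have hM0 : 0 ≤ M := by linarith
  have hs : ‖y‖ ≤ √M := by
    rw [← Real.sqrt_sq (norm_nonneg y)]
    exact Real.sqrt_le_sqrt hy
  have hsM : √M ≤ M / 2 := by
    rw [Real.sqrt_le_left (by linarith)]
    nlinarith
  have hs2 : 2 ≤ √M := by
    rw [show (2 : ℝ) = √4 by rw [show (4 : ℝ) = 2 ^ 2 by norm_num, Real.sqrt_sq (by norm_num)]]
    exact Real.sqrt_le_sqrt hM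
  have hsq : √M ^ 2 = M := Real.sq_sqrt hM0
  have h1 : ‖y‖ ≤ ‖p‖ + 2 * δ := by
    have : ‖y‖ ≤ ‖p + y‖ + ‖p‖ := by
      calc ‖y‖ = ‖(p + y) - p‖ := by congr 1; ring
        _ ≤ ‖p + y‖ + ‖p‖ := norm_sub_le _ _
    linarith
  have h2 : ‖p‖ ≤ ‖y‖ + 2 * δ := by
    have : ‖p‖ ≤ ‖p + y‖ + ‖y‖ := by
      calc ‖p‖ = ‖(p + y) - y‖ := by congr 1; ring
        _ ≤ ‖p + y‖ + ‖y‖ := norm_sub_le _ _
    linarith
  have hp : ‖p‖ ≤ 2 * √M := by linarith
  have hp0 := norm_nonneg p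
  have hy0 := norm_nonneg y
  have hp2 : ‖p‖ ^ 2 ≤ 4 * M := by
    calc ‖p‖ ^ 2 ≤ (2 * √M) ^ 2 := by gcongr
      _ = 4 * M := by rw [mul_pow, hsq]; norm_num
  rw [min_eq_left hp2]
  by_cases hle : ‖y‖ ≤ ‖p‖
  · have : ‖y‖ ^ 2 ≤ ‖p‖ ^ 2 := by gcongr
    have : 0 ≤ 3 * δ * M := by positivity
    linarith
  · push Not at hle
    have e : ‖y‖ ^ 2 - ‖p‖ ^ 2 = (‖y‖ - ‖p‖) * (‖y‖ + ‖p‖) := by ring
    have h3 : (‖y‖ - ‖p‖) * (‖y‖ + ‖p‖) ≤ (2 * δ) * (3 * √M) := by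
      apply mul_le_mul (by linarith) (by linarith) (by linarith) (by linarith)
    have h4 : (2 * δ) * (3 * √M) ≤ 3 * δ * M := by
      have : δ * √M ≤ δ * (M / 2) := by gcongr
      nlinarith
    linarith

/-- the pointwise inequality at every point -/
lemma sq_le_trunc {p y : ℂ} {M δ : ℝ} (hM : 4 ≤ M) (hδ : 0 < δ) (hδ1 : δ ≤ 1) {B : Set ℝ} {t : ℝ}
    (h : t ∉ B → ‖p + y‖ ≤ 2 * δ) :
    ‖y‖ ^ 2 ≤ min (‖p‖ ^ 2) (4 * M) + M⁻¹ * ‖y‖ ^ 4 + M * B.indicator (fun _ => (1 : ℝ)) t + 3 * δ * M := by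
  have hM0 : 0 < M := by linarith
  have n1 : 0 ≤ min (‖p‖ ^ 2) (4 * M) := le_min (by positivity) (by linarith)
  have n2 : 0 ≤ M⁻¹ * ‖y‖ ^ 4 := by positivity
  have n3 : 0 ≤ M * B.indicator (fun _ => (1 : ℝ)) t :=
    mul_nonneg hM0.le (indicator_nonneg (fun _ _ => zero_le_one) _)
  have n4 : 0 ≤ 3 * δ * M := by positivity
  by_cases hy : ‖y‖ ^ 2 ≤ M
  · by_cases hB : t ∈ B
    · rw [indicator_of_mem hB] at *
      linarith
    · have := sq_le_min_of_close hM hδ hδ1 (h hB) hy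
      linarith
  · push Not at hy
    have : ‖y‖ ^ 2 ≤ M⁻¹ * ‖y‖ ^ 4 := by
      rw [inv_mul_eq_div, le_div_iff₀ hM0]
      nlinarith [sq_nonneg ‖y‖]
    linarith

/-- the integrated inequality -/
lemma integral_trunc {T M δ C : ℝ} (hT : 0 < T) (hM : 4 ≤ M) (hδ : 0 < δ) (hδ1 : δ ≤ 1)
    {P Y : ℝ → ℂ} (hP : Continuous P) (hY : Continuous Y) {B : Set ℝ}
    (hgood : ∀ t ∈ Ioc 0 T, t ∉ B → ‖P t + Y t‖ ≤ 2 * δ)
    (hB : volume B ≤ ENNReal.ofReal (2 * δ * T))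
    (h4 : ∫ t in (0 : ℝ)..T, ‖Y t‖ ^ 4 ≤ C * T) :
    T⁻¹ * ∫ t in (0 : ℝ)..T, ‖Y t‖ ^ 2 ≤
      (T⁻¹ * ∫ t in (0 : ℝ)..T, min (‖P t‖ ^ 2) (4 * M)) + M⁻¹ * C + 5 * δ * M := by
  have hM0 : 0 < M := by linarith
  set B' := toMeasurable volume B with hB'
  have mB' : MeasurableSet B' := measurableSet_toMeasurable _ _
  have hBB : B ⊆ B' := subset_toMeasurable _ _
  have vB' : volume B' ≤ ENNReal.ofReal (2 * δ * T) := by
    rw [hB', measure_toMeasurable]; exact hB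
  have fB' : volume B' ≠ ∞ := (vB'.trans_lt ENNReal.ofReal_lt_top).ne
  have i1 : IntervalIntegrable (fun t => ‖Y t‖ ^ 2) volume 0 T :=
    (by fun_prop : Continuous fun t => ‖Y t‖ ^ 2).intervalIntegrable _ _
  have i2 : IntervalIntegrable (fun t => min (‖P t‖ ^ 2) (4 * M)) volume 0 T :=
    (by fun_prop : Continuous fun t => min (‖P t‖ ^ 2) (4 * M)).intervalIntegrable _ _
  have i3 : IntervalIntegrable (fun t => M⁻¹ * ‖Y t‖ ^ 4) volume 0 T :=
    (by fun_prop : Continuous fun t => M⁻¹ * ‖Y t‖ ^ 4).intervalIntegrable _ _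
  have i4' : Integrable (B'.indicator (fun _ => (1 : ℝ))) volume :=
    (integrable_indicator_iff mB').2 (integrableOn_const fB')
  have i4 : IntervalIntegrable (fun t => M * B'.indicator (fun _ => (1 : ℝ)) t) volume 0 T :=
    (i4'.const_mul M).intervalIntegrable
  have i5 : IntervalIntegrable (fun _ : ℝ => 3 * δ * M) volume 0 T :=
    continuous_const.intervalIntegrable _ _
  have key : ∫ t in (0 : ℝ)..T, ‖Y t‖ ^ 2 ≤
      ∫ t in (0 : ℝ)..T, (min (‖P t‖ ^ 2) (4 * M) + M⁻¹ * ‖Y t‖ ^ 4 +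
        M * B'.indicator (fun _ => (1 : ℝ)) t + 3 * δ * M) := by
    apply intervalIntegral.integral_mono_on_of_le_Ioo hT.le i1 (((i2.add i3).add i4).add i5)
    intro t ht
    apply sq_le_trunc hM hδ hδ1
    intro h
    exact hgood t ⟨ht.1, ht.2.le⟩ fun h' => h (hBB h')
  rw [intervalIntegral.integral_add ((i2.add i3).add i4) i5,
    intervalIntegral.integral_add (i2.add i3) i4, intervalIntegral.integral_add i2 i3,
    intervalIntegral.integral_const_mul, intervalIntegral.integral_const_mul,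
    intervalIntegral.integral_const, smul_eq_mul, sub_zero] at key
  have e4 : ∫ t in (0 : ℝ)..T, B'.indicator (fun _ => (1 : ℝ)) t ≤ 2 * δ * T := by
    rw [intervalIntegral.integral_of_le hT.le]
    calc ∫ t in Ioc 0 T, B'.indicator (fun _ => (1 : ℝ)) t
        ≤ ∫ t, B'.indicator (fun _ => (1 : ℝ)) t :=
          setIntegral_le_integral i4' (Eventually.of_forall fun t =>
            indicator_nonneg (fun _ _ => zero_le_one) _)
      _ = (volume B').toReal := by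
          rw [integral_indicator mB', setIntegral_const]
          simp [Measure.real]
      _ ≤ 2 * δ * T := by
          apply ENNReal.toReal_le_of_le_ofReal (by positivity) vB'
  have hTi : T⁻¹ * T = 1 := inv_mul_cancel₀ hT.ne'
  calc T⁻¹ * ∫ t in (0 : ℝ)..T, ‖Y t‖ ^ 2
      ≤ T⁻¹ * ((∫ t in (0 : ℝ)..T, min (‖P t‖ ^ 2) (4 * M)) + M⁻¹ * (C * T) + M * (2 * δ * T) +
          T * (3 * δ * M)) := by
        apply mul_le_mul_of_nonneg_left _ (by positivity)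
        refine key.trans ?_
        gcongr
    _ = _ := by
        field_simp
        ring

theorem S0_sq_upper (hU : TrimUB) (hN : NearLine atTop) {W : ℝ → ℝ} {a b : ℝ} (h : PT W a b)
    (h0 : ∀ v, 0 ≤ W v) {ε : ℝ} (hε : 0 < ε) :
    ∀ᶠ T : ℝ in atTop, S0 (fun v => W v ^ 2) T ≤ (∫ v, ρ1 v * W v ^ 2) + ε := by
  obtain ⟨b', hb', h'⟩ : ∃ b', 0 ≤ b' ∧ PT W a b' :=
    ⟨max a b, h.pos.le.trans (le_max_left _ _), h.mono le_rfl h.pos (le_max_right _ _)⟩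
  have hTF := h'.tf
  obtain ⟨C, hC, T₀, hT₀, hC4⟩ := Zo_fourth hTF hb'
  obtain ⟨M, hM4, hCM⟩ : ∃ M : ℝ, 4 ≤ M ∧ M⁻¹ * C ≤ ε / 8 := by
    refine ⟨max 4 (8 * C / ε), le_max_left _ _, ?_⟩
    have h4 : (0 : ℝ) < max 4 (8 * C / ε) := lt_of_lt_of_le (by norm_num) (le_max_left _ _)
    rw [inv_mul_eq_div, div_le_iff₀ h4]
    have := le_max_right 4 (8 * C / ε)
    rw [div_le_iff₀ hε] at this
    linarith
  have hM0 : 0 < M := by linarith
  obtain ⟨δ, hδ0, hδ1, hδM⟩ : ∃ δ : ℝ, 0 < δ ∧ δ ≤ 1 ∧ 5 * δ * M ≤ ε / 8 := by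
    refine ⟨min 1 (ε / (40 * M)), lt_min one_pos (by positivity), min_le_left _ _, ?_⟩
    have := min_le_right 1 (ε / (40 * M))
    rw [le_div_iff₀ (by positivity)] at this
    linarith
  have hmean := mean_Zo hTF hb'
  have e1 : ∀ᶠ T : ℝ in atTop, |T⁻¹ * (∫ t in (0:ℝ)..T, ‖Zo W (Real.log T) t‖ ^ 2) -
      S0 (fun v => W v ^ 2) T| < ε / 4 := by
    have := (Metric.tendsto_nhds.1 hmean) (ε / 4) (by positivity)
    simpa [Real.dist_eq] using this
  have e2 : ∀ᶠ T : ℝ in atTop, √T ≤ δ * T := by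
    filter_upwards [eventually_ge_atTop (δ ^ 2)⁻¹, eventually_gt_atTop 0] with T hT hT0
    rw [Real.sqrt_le_left (by positivity), mul_pow]
    rw [inv_le_iff_one_le_mul₀ (by positivity)] at hT
    nlinarith
  filter_upwards [e1, e2, hU W a b' h' h0 (4 * M) (by positivity) (ε / 4) (by positivity),
    explicit_pos h' hδ0, close hN hTF hb' hδ0, eventually_ge_atTop T₀] with T h1 h2 h3 h4 h5 h6
  have hTe : Real.exp 1 ≤ T := hT₀.trans h6
  have hT1 : 1 < T := lt_of_lt_of_le (by simp) hTe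
  have hT0 : 0 < T := by linarith
  have hL : 1 ≤ Real.log T := by
    rw [Real.le_log_iff_exp_le hT0]; exact hTe
  have hL0 : 0 < Real.log T := by linarith
  have hB : volume (Ioc 0 (√T) ∪ {t : ℝ | t ∈ Ioc 0 T ∧
      δ < ‖Zs W (Real.log T) t - Zo W (Real.log T) t‖}) ≤ ENNReal.ofReal (2 * δ * T) := by
    refine (measure_union_le _ _).trans ?_
    rw [Real.volume_Ioc, sub_zero]
    calc _ ≤ ENNReal.ofReal (δ * T) + ENNReal.ofReal (δ * T) :=
          add_le_add (ENNReal.ofReal_le_ofReal h2) h5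
      _ = _ := by
          rw [← ENNReal.ofReal_add (by positivity) (by positivity)]
          congr 1; ring
  have key := integral_trunc (C := C) hT0 hM4 hδ0 hδ1 (PS_continuous h' hL0)
    (Zo_continuous hTF hb' hL) (B := Ioc 0 (√T) ∪ {t : ℝ | t ∈ Ioc 0 T ∧
      δ < ‖Zs W (Real.log T) t - Zo W (Real.log T) t‖}) (by
      intro t ht hB
      rw [mem_union, not_or] at hB
      have ht1 : √T ≤ t := by
        by_contra hc
        push Not at hc
        exact hB.1 ⟨ht.1, hc.le⟩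
      have ht2 : ‖Zs W (Real.log T) t - Zo W (Real.log T) t‖ ≤ δ := by
        by_contra hc
        push Not at hc
        exact hB.2 ⟨ht, hc⟩
      have ht3 := h4 t ⟨ht1, ht.2⟩
      calc ‖PS W T t + Zo W (Real.log T) t‖
          = ‖(Zs W (Real.log T) t + PS W T t) - (Zs W (Real.log T) t - Zo W (Real.log T) t)‖ := by
            congr 1; ring
        _ ≤ _ := norm_sub_le _ _
        _ ≤ 2 * δ := by linarith) hB (hC4 T h6)
  have h3' : T⁻¹ * ∫ t in (0 : ℝ)..T, min (‖PS W T t‖ ^ 2) (4 * M) ≤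
      (∫ v, ρ1 v * W v ^ 2) + ε / 4 := h3
  have h1' := (abs_lt.1 h1).1
  linarith

end Pool.Agent.H12.TP
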