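import Pool.Agent.H12.TP.Off
import Pool.Agent.H12.TP.NearL
import Pool.Agent.H12.TP.Upper
import Pool.Agent.H12.TP.Rigid
import Pool.Agent.H12.TP.Lim

/-!
# The equivalence of the pair correlation conjecture with the truncated mean squares of primes
-/

set_option autoImplicit false

namespace Pool.Agent.H12.TP

open MeasureTheory Filter Topology Set Real
open Pool.Agent.PairCorr Pool.Agent.PairCorr.P6
open scoped ENNReal ArithmeticFunction.vonMangoldt

theorem trimUB_of_trimLim (h : TrimLim) : TrimUB := by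
  intro W a b hW _ M _ ε hε
  obtain ⟨M₀, hM₀⟩ := h W a b hW ε hε
  filter_upwards [hM₀ (max M M₀) (le_max_right _ _), eventually_gt_atTop 1] with T hT hT1
  have h1 := TM_mono hW hT1 (le_max_left M M₀)
  have h2 := (abs_le.1 hT).2
  linarith

theorem PFLim_of_S0 (hS : ∀ (k : ℝ → ℝ) (b : ℝ), TF k b → (∀ v, k (-v) = k v) →
    Tendsto (S0 k) atTop (𝓝 (ck k))) : PFLim := by
  intro k b hk hev
  have h1 := PF_of_Spair0 hk (hS k b hk hev) near_kap T_kap
  rwa [one_mul] at h1

theorem main_tfae : [∀ a > 0, Tendsto (fun T => Lr T a) atTop (𝓝 (gue a)), TrimUB, TrimLim].TFAE := by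
  tfae_have 1 → 3 := by
    intro hL
    have hM : Tendsto Mr atTop (𝓝 1) := by
      apply Mr_tendsto le_rfl
      intro η hη
      refine ⟨1, fun a ha => ?_⟩
      exact ((hL a (by linarith)).eventually_const_lt (show gue a - η < gue a by linarith)).mono fun _ h => h.le
    exact trimLim_of (NearLine_of_Mr le_rfl hM) fun k b hk hev => Spair0_of_counts hM hL hk hev
  tfae_have 3 → 2 := trimUB_of_trimLim
  tfae_have 2 → 1 := by
    intro hU
    have hN : NearLine atTop := nearLine_of_off fun y hy => off_rare hU hy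
    have hS := rigid hN fun g a b hg h0 ε hε =>
      S0_upper_of_squares (fun W a b hW hW0 ε hε => S0_sq_upper hU hN hW hW0 hε) hg h0 hε
    exact (counts_of_PFLim (PFLim_of_S0 hS)).2
  tfae_finish

end Pool.Agent.H12.TP
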