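import Pool.Agent.H12.TP.QM

/-!
# For most `t` there are boundedly many near zeros and the far zeros contribute little

PROOF.  `x = L (im z - t)`, `y = L (re z - 1/2)`, `u = ‖Kc W (y + i x)‖ ≤ C_q e^{b|y|} (1+|x|)^{-q}`
(`TF.decay_one_add`, `‖w‖ ≥ |x|`).  Let `c` be from `Q_moments`, `θ = min(1, c/(b+1))`, `q = ⌈5/θ⌉`, so that
`u^θ ≤ C' e^{c|y|} (1+|x|)^{-5} ≤ C' wgt c T z (1+|x|)^{-4} / (1+X)` for `|x| > X`.
If `∫⁻_{|x|>X} u dmuZ > 1/2` then `∫⁻_{|x|>X} min(1,u) dmuZ ≥ 1/2` (every zero has mass at least one: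
`muZ_singleton`, so if some far zero has `u ≥ 1` the integral is at least 1; otherwise `min(1,u) = u`
`muZ`-a.e., using `muZ_ae`), hence `1/2 ≤ ∫⁻ u^θ ≤ C' Qs c T t/(1+X)`; by Markov and `Q_moments` (p = 1)
the measure of these `t` is `≤ C'' T/(1+X)`.
`muZ {|x| ≤ X} ≤ (1+X)^4 Qs c T t`, so `{muZ {|x| ≤ X} > N}` has measure `≤ (1+X)^4 C T / N`.
Choose `X`, then `N`.
-/

set_option autoImplicit false

namespace Pool.Agent.H12.TP

open MeasureTheory Filter Topology Set Real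
open Pool.Agent.PairCorr Pool.Agent.PairCorr.P6
open scoped ENNReal ArithmeticFunction.vonMangoldt

variable {W : ℝ → ℝ} {b : ℝ}

lemma markov_Qs {c T C : ℝ} (hI : ∫⁻ t in Ioc (0:ℝ) T, Qs c T t ≤ ENNReal.ofReal (C * T)) {a : ℝ}
    (ha : 0 < a) :
    volume {t : ℝ | t ∈ Ioc 0 T ∧ ENNReal.ofReal a ≤ Qs c T t} ≤ ENNReal.ofReal (C * T / a) := by
  have hm : MeasurableSet {t : ℝ | ENNReal.ofReal a ≤ Qs c T t} :=
    measurableSet_le measurable_const (Qs_measurable c T)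
  have h1 := meas_ge_le_lintegral_div (μ := volume.restrict (Ioc (0:ℝ) T)) (f := Qs c T)
    (Qs_measurable c T).aemeasurable (ε := ENNReal.ofReal a) (by simpa using ha)
    ENNReal.ofReal_ne_top
  rw [Measure.restrict_apply hm] at h1
  have h2 : {t : ℝ | t ∈ Ioc 0 T ∧ ENNReal.ofReal a ≤ Qs c T t} =
      {t : ℝ | ENNReal.ofReal a ≤ Qs c T t} ∩ Ioc 0 T := by
    ext t; simp only [mem_setOf_eq, mem_inter_iff]; tauto
  rw [h2]
  refine h1.trans ?_
  rw [ENNReal.ofReal_div_of_pos ha]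
  exact ENNReal.div_le_div_right hI _

lemma meas_x (T t : ℝ) : Measurable fun z : ℂ => |Real.log T * (z.im - t)| := by
  fun_prop

lemma one_le_wgt {c T : ℝ} (hc : 0 ≤ c) (hT : 1 ≤ T) (z : ℂ) : 1 ≤ wgt c T z := by
  unfold wgt
  apply Real.one_le_exp
  have := Real.log_nonneg hT
  positivity

lemma near_le {c T X : ℝ} (hc : 0 ≤ c) (hT : 1 ≤ T) (hX : 0 ≤ X) (t : ℝ) :
    muZ {z : ℂ | |Real.log T * (z.im - t)| ≤ X} ≤ ENNReal.ofReal ((1 + X) ^ 4) * Qs c T t := by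
  have hA : MeasurableSet {z : ℂ | |Real.log T * (z.im - t)| ≤ X} :=
    measurableSet_le (meas_x T t) measurable_const
  unfold Qs
  rw [← lintegral_const_mul' _ _ ENNReal.ofReal_ne_top]
  refine le_trans ?_ (setLIntegral_le_lintegral {z : ℂ | |Real.log T * (z.im - t)| ≤ X} _)
  rw [← setLIntegral_one]
  refine setLIntegral_mono' hA fun z hz => ?_
  rw [← ENNReal.ofReal_mul (by positivity), ← ENNReal.ofReal_one]
  apply ENNReal.ofReal_le_ofReal
  have h1 := one_le_wgt hc hT z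
  have h2 : |Real.log T * (z.im - t)| ≤ X := hz
  have h3 : (1 + |Real.log T * (z.im - t)|) ^ 4 ≤ (1 + X) ^ 4 := by gcongr
  have h4 : 0 < (1 + |Real.log T * (z.im - t)|) ^ 4 := by positivity
  calc (1 : ℝ) ≤ (1 + X) ^ 4 * ((1 + |Real.log T * (z.im - t)|) ^ 4)⁻¹ := by
        rw [← div_eq_mul_inv, le_div_iff₀ h4, one_mul]; exact h3
    _ ≤ (1 + X) ^ 4 * (wgt c T z * ((1 + |Real.log T * (z.im - t)|) ^ 4)⁻¹) := by
        apply mul_le_mul_of_nonneg_left _ (by positivity)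
        exact le_mul_of_one_le_left (by positivity) h1

/-- fractional power of the kernel bound -/
lemma rpow_bound {u A B E c θ : ℝ} {q : ℕ} (hu : 0 ≤ u) (hA : 1 ≤ A) (hθ : 0 < θ) (hθ1 : θ ≤ 1)
    (hB : 1 ≤ B) (hq : 5 ≤ q * θ) (hE : θ * E ≤ c) (h : B ^ q * u ≤ A * Real.exp E) :
    u ^ θ ≤ A * Real.exp c * (B ^ 5)⁻¹ := by
  have hB0 : 0 < B := by linarith
  have hA0 : 0 < A := by linarith
  have h1 : u ≤ A * Real.exp E * (B ^ q)⁻¹ := by
    rw [← div_eq_mul_inv, le_div_iff₀ (by positivity), mul_comm]; exact h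
  have h2 : u ^ θ ≤ (A * Real.exp E * (B ^ q)⁻¹) ^ θ := Real.rpow_le_rpow hu h1 hθ.le
  refine h2.trans ?_
  rw [Real.mul_rpow (by positivity) (by positivity), Real.mul_rpow hA0.le (Real.exp_pos _).le]
  have h3 : A ^ θ ≤ A := by
    conv_rhs => rw [← Real.rpow_one A]
    exact Real.rpow_le_rpow_of_exponent_le hA hθ1
  have h4 : (Real.exp E) ^ θ ≤ Real.exp c := by
    rw [← Real.exp_mul]
    apply Real.exp_le_exp.2
    linarith [mul_comm E θ]
  have h5 : ((B ^ q)⁻¹) ^ θ ≤ (B ^ 5)⁻¹ := by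
    rw [Real.inv_rpow (by positivity), ← Real.rpow_natCast B q, ← Real.rpow_mul hB0.le]
    apply inv_anti₀ (by positivity)
    rw [← Real.rpow_natCast B 5]
    exact Real.rpow_le_rpow_of_exponent_le hB (by push_cast; linarith)
  gcongr

lemma far_le {c T X A θ : ℝ} {q : ℕ} (hT : 1 ≤ T) (hX : 0 ≤ X) (hb : 0 ≤ b)
    (hA : 1 ≤ A) (hθ : 0 < θ) (hθ1 : θ ≤ 1) (hq : 5 ≤ q * θ) (hbc : θ * b ≤ c)
    (hK : ∀ w : ℂ, (1 + ‖w‖) ^ q * ‖Kc W w‖ ≤ A * Real.exp (b * |w.re|)) (t : ℝ) :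
    ∫⁻ z in {z : ℂ | X < |Real.log T * (z.im - t)|},
      ENNReal.ofReal (‖Kc W (Real.log T * (z - (1/2 + t * Complex.I)))‖ ^ θ) ∂muZ ≤
      ENNReal.ofReal (A / (1 + X)) * Qs c T t := by
  have hS : MeasurableSet {z : ℂ | X < |Real.log T * (z.im - t)|} :=
    measurableSet_lt measurable_const (meas_x T t)
  have hL := Real.log_nonneg hT
  unfold Qs
  rw [← lintegral_const_mul' _ _ ENNReal.ofReal_ne_top]
  refine le_trans ?_ (setLIntegral_le_lintegral {z : ℂ | X < |Real.log T * (z.im - t)|} _)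
  refine setLIntegral_mono' hS fun z hz => ?_
  rw [← ENNReal.ofReal_mul (by positivity)]
  apply ENNReal.ofReal_le_ofReal
  set w : ℂ := Real.log T * (z - (1/2 + t * Complex.I)) with hw
  have hre : w.re = Real.log T * (z.re - 1 / 2) := by
    rw [hw]; simp
  have him : w.im = Real.log T * (z.im - t) := by
    rw [hw]; simp
  have hx : |Real.log T * (z.im - t)| ≤ ‖w‖ := by rw [← him]; exact Complex.abs_im_le_norm w
  have hz' : X < |Real.log T * (z.im - t)| := hz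
  set x := |Real.log T * (z.im - t)| with hxdef
  have hx0 : 0 ≤ x := abs_nonneg _
  have h1 : (1 + x) ^ q * ‖Kc W w‖ ≤ A * Real.exp (b * |w.re|) := by
    refine le_trans ?_ (hK w)
    gcongr
  have h2 := rpow_bound (c := c * |w.re|) (norm_nonneg (Kc W w)) hA hθ hθ1 (by linarith : 1 ≤ 1 + x)
    hq (by
      rw [← mul_assoc]
      exact mul_le_mul_of_nonneg_right hbc (abs_nonneg _)) h1
  refine h2.trans ?_
  have h3 : Real.exp (c * |w.re|) = wgt c T z := by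
    unfold wgt
    congr 1
    rw [hre, abs_mul, abs_of_nonneg hL]
    ring
  rw [h3]
  have h4 : ((1 + x) ^ 5)⁻¹ ≤ (1 + X)⁻¹ * ((1 + x) ^ 4)⁻¹ := by
    rw [← mul_inv]
    apply inv_anti₀ (by positivity)
    calc (1 + X) * (1 + x) ^ 4 ≤ (1 + x) * (1 + x) ^ 4 := by gcongr
      _ = (1 + x) ^ 5 := by ring
  have h5 : 0 ≤ wgt c T z := (Real.exp_pos _).le
  calc A * wgt c T z * ((1 + x) ^ 5)⁻¹ ≤ A * wgt c T z * ((1 + X)⁻¹ * ((1 + x) ^ 4)⁻¹) := by
        gcongr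
    _ = A / (1 + X) * (wgt c T z * ((1 + x) ^ 4)⁻¹) := by
        rw [div_eq_mul_inv]; ring

/-- a large integral forces a large integral of a fractional power, as the zeros have mass one -/
lemma pow_of_large {S : Set ℂ} (hS : MeasurableSet S) {u : ℂ → ℝ} (hu : ∀ z, 0 ≤ u z) {θ : ℝ}
    (hθ : 0 < θ) (hθ1 : θ ≤ 1)
    (h : ¬ ∫⁻ z in S, ENNReal.ofReal (u z) ∂muZ ≤ ENNReal.ofReal (1/2)) :
    ENNReal.ofReal (1/2) ≤ ∫⁻ z in S, ENNReal.ofReal (u z ^ θ) ∂muZ := by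
  by_cases hz : ∃ z ∈ NTZ, z ∈ S ∧ 1 ≤ u z
  · obtain ⟨z, hz1, hz2, hz3⟩ := hz
    have h1 : ∫⁻ w in {z}, ENNReal.ofReal (u w ^ θ) ∂muZ ≤
        ∫⁻ w in S, ENNReal.ofReal (u w ^ θ) ∂muZ :=
      lintegral_mono_set (by simpa using hz2)
    refine le_trans ?_ h1
    rw [lintegral_singleton]
    have h2 : 1 ≤ muZ {z} := muZ_singleton_ge hz1
    have h3 : (1 : ℝ) ≤ u z ^ θ := Real.one_le_rpow hz3 hθ.le
    calc ENNReal.ofReal (1/2) ≤ 1 * 1 := by
          rw [one_mul, ← ENNReal.ofReal_one]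
          exact ENNReal.ofReal_le_ofReal (by norm_num)
      _ ≤ ENNReal.ofReal (u z ^ θ) * muZ {z} := by
          apply mul_le_mul' _ h2
          rw [← ENNReal.ofReal_one]
          exact ENNReal.ofReal_le_ofReal h3
  · push Not at hz
    refine (not_le.1 h).le.trans ?_
    apply setLIntegral_mono_ae' hS
    filter_upwards [muZ_ae] with z hz1 hz2
    apply ENNReal.ofReal_le_ofReal
    have h1 := hz z hz1 hz2
    conv_lhs => rw [← Real.rpow_one (u z)]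
    exact Real.rpow_le_rpow_of_exponent_ge' (hu z) h1.le hθ.le hθ1

theorem good_times (h : TF W b) (hb : 0 ≤ b) {η : ℝ} (hη : 0 < η) : ∃ X : ℝ, 1 ≤ X ∧ ∃ N : ℕ,
    ∀ᶠ T : ℝ in atTop, volume {t : ℝ | t ∈ Ioc 0 T ∧
      ¬ (muZ {z : ℂ | |Real.log T * (z.im - t)| ≤ X} ≤ N ∧
        ∫⁻ z in {z : ℂ | X < |Real.log T * (z.im - t)|},
          ENNReal.ofReal ‖Kc W (Real.log T * (z - (1/2 + t * Complex.I)))‖ ∂muZ ≤ ENNReal.ofReal (1/2))} ≤
      ENNReal.ofReal (η * T) := by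
  obtain ⟨c, hc, -, C, hC, T₀, hT₀, hQ⟩ := Q_moments
  obtain ⟨θ, hθ, hθ1, hbc⟩ : ∃ θ : ℝ, 0 < θ ∧ θ ≤ 1 ∧ θ * b ≤ c := by
    refine ⟨min 1 (c / (b + 1)), lt_min one_pos (by positivity), min_le_left _ _, ?_⟩
    calc min 1 (c / (b + 1)) * b ≤ c / (b + 1) * b := by
          apply mul_le_mul_of_nonneg_right (min_le_right _ _) hb
      _ ≤ c / (b + 1) * (b + 1) := by
          apply mul_le_mul_of_nonneg_left (by linarith) (by positivity)
      _ = c := by field_simp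
  obtain ⟨q, hq⟩ : ∃ q : ℕ, 5 ≤ q * θ := by
    refine ⟨⌈5 / θ⌉₊, ?_⟩
    have := Nat.le_ceil (5 / θ)
    rwa [div_le_iff₀ hθ] at this
  obtain ⟨A₀, hA₀, hK₀⟩ := h.decay_one_add q
  set A := A₀ + 1 with hA
  have hA1 : 1 ≤ A := by linarith
  have hK : ∀ w : ℂ, (1 + ‖w‖) ^ q * ‖Kc W w‖ ≤ A * Real.exp (b * |w.re|) := by
    intro w
    refine (hK₀ w).trans ?_
    gcongr
    linarith
  set X := max 1 (4 * A * C / η) with hX
  have hX1 : 1 ≤ X := le_max_left _ _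
  have hX2 : 4 * A * C / η ≤ X := le_max_right _ _
  obtain ⟨N, hN⟩ := exists_nat_ge (max 1 (2 * (1 + X) ^ 4 * C / η))
  have hN1 : (1 : ℝ) ≤ N := (le_max_left _ _).trans hN
  have hN2 : 2 * (1 + X) ^ 4 * C / η ≤ N := (le_max_right _ _).trans hN
  refine ⟨X, hX1, N, ?_⟩
  filter_upwards [eventually_ge_atTop T₀] with T hT
  have hT1 : 1 ≤ T := by
    have := Real.one_le_exp (zero_le_one' ℝ)
    linarith
  have hT0 : 0 < T := by linarith
  have hI : ∫⁻ t in Ioc (0:ℝ) T, Qs c T t ≤ ENNReal.ofReal (C * T) := by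
    have := hQ T hT 1 (by norm_num)
    simpa using this
  have hA0 : 0 < A := by linarith
  have hX0 : 0 < 1 + X := by linarith
  -- near
  have hn := markov_Qs hI (a := N / (1 + X) ^ 4) (by positivity)
  have hf := markov_Qs hI (a := (1 + X) / (2 * A)) (by positivity)
  have hsub : {t : ℝ | t ∈ Ioc 0 T ∧
      ¬ (muZ {z : ℂ | |Real.log T * (z.im - t)| ≤ X} ≤ N ∧
        ∫⁻ z in {z : ℂ | X < |Real.log T * (z.im - t)|},
          ENNReal.ofReal ‖Kc W (Real.log T * (z - (1/2 + t * Complex.I)))‖ ∂muZ ≤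
            ENNReal.ofReal (1/2))} ⊆
      {t : ℝ | t ∈ Ioc 0 T ∧ ENNReal.ofReal (N / (1 + X) ^ 4) ≤ Qs c T t} ∪
      {t : ℝ | t ∈ Ioc 0 T ∧ ENNReal.ofReal ((1 + X) / (2 * A)) ≤ Qs c T t} := by
    rintro t ⟨ht, hbad⟩
    rw [not_and_or] at hbad
    rcases hbad with hbad | hbad
    · left
      refine ⟨ht, ?_⟩
      rw [ENNReal.ofReal_div_of_pos (by positivity)]
      apply ENNReal.div_le_of_le_mul'
      refine le_trans ?_ (near_le hc.le hT1 (by linarith) t)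
      rw [ENNReal.ofReal_natCast]
      exact (not_le.1 hbad).le
    · right
      refine ⟨ht, ?_⟩
      have hS : MeasurableSet {z : ℂ | X < |Real.log T * (z.im - t)|} :=
        measurableSet_lt measurable_const (meas_x T t)
      have h1 := pow_of_large hS (fun z => norm_nonneg _) hθ hθ1 hbad
      have h2 := h1.trans (far_le (W := W) hT1 (by linarith) hb hA1 hθ hθ1 hq hbc hK t)
      have h3 : (1 + X) / (2 * A) = (1/2) / (A / (1 + X)) := by field_simp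
      rw [h3, ENNReal.ofReal_div_of_pos (by positivity)]
      exact ENNReal.div_le_of_le_mul' h2
  refine (measure_mono hsub).trans ((measure_union_le _ _).trans ((add_le_add hn hf).trans ?_))
  rw [← ENNReal.ofReal_add (by positivity) (by positivity)]
  apply ENNReal.ofReal_le_ofReal
  have e1 : C * T / (N / (1 + X) ^ 4) ≤ η / 2 * T := by
    rw [div_le_iff₀ hη] at hN2
    rw [div_div_eq_mul_div, div_le_iff₀ (by positivity)]
    nlinarith [mul_le_mul_of_nonneg_right hN2 hT0.le]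
  have e2 : C * T / ((1 + X) / (2 * A)) ≤ η / 2 * T := by
    rw [div_le_iff₀ hη] at hX2
    rw [div_div_eq_mul_div, div_le_iff₀ (by positivity)]
    nlinarith [mul_le_mul_of_nonneg_right hX2 hT0.le, mul_pos hη hT0]
  linarith

end Pool.Agent.H12.TP
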