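import Pool.Agent.H12.TP.Basic

/-!
# Mean square of the zero sum over ordinates

PROOF.  Same as PairCorr/S_Product (`Z_product`) with the zero `z` replaced by `1/2 + i im z` in the
kernels (`K1 z t = Kc ψ1 ((L (im z - t)) * I)`): `parseval h1 h2 hL (1/2 + i im z) (1/2 + i im w)` gives
`∫_t K1 z t * K2 w t = (2π/L) Kc (ψ1 v ψ2 (-v)) (i L (im z - im w))`, the integrand of `Spair0`; the
kernel bound is now `‖Kc ψ (i x)‖ ≤ C (1+|x|)^{-j}` WITHOUT the factor `exp (b L/2)`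
(`TF.decay_one_add` with `re w = 0`), so the error is `C log(T+2)^2`.
For real `W`: `conj (Zo W L t) = Zo (fun v => W (-v)) L t`, so `‖Zo W L t‖^2 = Zo W L t * Zo (W (-·)) L t`,
and the pair sum is `Spair0 (fun v => W v * W v)`; note `(2π/L)/T = 1/NT T`.
Continuity: dominated convergence, `muZ_logDens`, `LogDens.integral_le` as in `kernel_integrable`.
-/

set_option autoImplicit false

namespace Pool.Agent.H12.TP

open MeasureTheory Filter Topology Set Real
open Pool.Agent.PairCorr Pool.Agent.PairCorr.P6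
open scoped ENNReal ArithmeticFunction.vonMangoldt

variable {W : ℝ → ℝ} {b : ℝ}

/-- decay of the kernel on the critical line -/
lemma kernelO_decay (h : TF W b) (j : ℕ) : ∃ C : ℝ, 0 ≤ C ∧
    ∀ L : ℝ, 1 ≤ L → ∀ x : ℝ, ‖Kc W ((L * x : ℝ) * Complex.I)‖ ≤ C * ((1 + |x|) ^ j)⁻¹ := by
  obtain ⟨C, hC0, hC⟩ := h.decay_one_add j
  refine ⟨C, hC0, fun L hL x => ?_⟩
  have h1 := hC ((L * x : ℝ) * Complex.I)
  have hre : (((L * x : ℝ) : ℂ) * Complex.I).re = 0 := by simp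
  have hn : ‖(((L * x : ℝ) : ℂ) * Complex.I)‖ = L * |x| := by
    rw [norm_mul, Complex.norm_I, mul_one, Complex.norm_real, Real.norm_eq_abs, abs_mul,
      abs_of_pos (by linarith)]
  rw [hre, abs_zero, mul_zero, Real.exp_zero, mul_one, hn] at h1
  rw [← div_eq_mul_inv, le_div_iff₀ (by positivity)]
  have h2 : (1 + |x|) ^ j ≤ (1 + L * |x|) ^ j := by
    apply pow_le_pow_left₀ (by positivity)
    nlinarith [abs_nonneg x]
  calc ‖Kc W ((L * x : ℝ) * Complex.I)‖ * (1 + |x|) ^ j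
      ≤ ‖Kc W ((L * x : ℝ) * Complex.I)‖ * (1 + L * |x|) ^ j :=
        mul_le_mul_of_nonneg_left h2 (norm_nonneg _)
    _ = (1 + L * |x|) ^ j * ‖Kc W ((L * x : ℝ) * Complex.I)‖ := by ring
    _ ≤ C := h1

lemma inv_sq_le (x : ℝ) : ((1 + |x|) ^ 2)⁻¹ ≤ (1 + x ^ 2)⁻¹ := by
  apply inv_anti₀ (by positivity)
  have := abs_nonneg x
  have h3 : x ^ 2 = |x| ^ 2 := (sq_abs _).symm
  rw [h3]; nlinarith

lemma kernelO_cont (h : TF W b) (L : ℝ) :
    Continuous (fun q : ℂ × ℝ => Kc W ((L * (q.1.im - q.2) : ℝ) * Complex.I)) :=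
  h.differentiable_Kc.continuous.comp (by fun_prop)

theorem Zo_integrable (h : TF W b) (hb : 0 ≤ b) {L : ℝ} (hL : 1 ≤ L) (t : ℝ) :
    Integrable (fun z : ℂ => Kc W ((L * (z.im - t) : ℝ) * Complex.I)) muZ := by
  obtain ⟨C, hC, hLD⟩ := muZ_logDens
  obtain ⟨C', hC'0, h'⟩ := hLD.integral_le hC.le
  obtain ⟨C2, hC2, h2⟩ := kernelO_decay h 2
  refine Integrable.mono' ((h' t).1.const_mul C2) ?_ ?_
  · exact (h.differentiable_Kc.continuous.comp (by fun_prop)).aestronglyMeasurable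
  · refine Eventually.of_forall fun z => ?_
    refine (h2 L hL (z.im - t)).trans ?_
    exact mul_le_mul_of_nonneg_left (inv_sq_le _) hC2

theorem Zo_continuous (h : TF W b) (hb : 0 ≤ b) {L : ℝ} (hL : 1 ≤ L) : Continuous (Zo W L) := by
  obtain ⟨C, hC, hLD⟩ := muZ_logDens
  obtain ⟨C', hC'0, h'⟩ := hLD.integral_le hC.le
  obtain ⟨C2, hC2, h2⟩ := kernelO_decay h 2
  rw [continuous_iff_continuousAt]
  intro t₀
  unfold Zo
  apply MeasureTheory.continuousAt_of_dominated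
    (bound := fun z : ℂ => 4 * C2 * (1 + (z.im - t₀) ^ 2)⁻¹)
  · refine Eventually.of_forall fun t => ?_
    exact (h.differentiable_Kc.continuous.comp (by fun_prop)).aestronglyMeasurable
  · filter_upwards [Metric.ball_mem_nhds t₀ one_pos] with t ht
    rw [Metric.mem_ball, Real.dist_eq] at ht
    refine Eventually.of_forall fun z => ?_
    refine (h2 L hL (z.im - t)).trans ?_
    have h3 : ((1 + |z.im - t|) ^ 2)⁻¹ ≤ 4 * ((1 + |z.im - t₀|) ^ 2)⁻¹ := by
      rw [← div_eq_mul_inv, le_div_iff₀ (by positivity), ← div_eq_inv_mul, div_le_iff₀ (by positivity)]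
      have h4 : |z.im - t₀| ≤ |z.im - t| + |t - t₀| := by
        have := abs_add_le (z.im - t) (t - t₀)
        have e : z.im - t + (t - t₀) = z.im - t₀ := by ring
        rwa [e] at this
      have h5 : 1 + |z.im - t₀| ≤ 2 * (1 + |z.im - t|) := by
        have := abs_nonneg (z.im - t)
        linarith
      calc (1 + |z.im - t₀|) ^ 2 ≤ (2 * (1 + |z.im - t|)) ^ 2 := pow_le_pow_left₀ (by positivity) h5 2
        _ = _ := by ring
    calc C2 * ((1 + |z.im - t|) ^ 2)⁻¹ ≤ C2 * (4 * (1 + (z.im - t₀) ^ 2)⁻¹) := by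
          apply mul_le_mul_of_nonneg_left _ hC2
          exact h3.trans (mul_le_mul_of_nonneg_left (inv_sq_le _) (by norm_num))
      _ = _ := by ring
  · exact (h' t₀).1.const_mul _
  · refine Eventually.of_forall fun z => ?_
    exact (h.differentiable_Kc.continuous.comp (by fun_prop)).continuousAt

lemma parsevalO {ψ1 ψ2 : ℝ → ℝ} {b1 b2 : ℝ} (h1 : TF ψ1 b1) (h2 : TF ψ2 b2) {L : ℝ} (hL : 0 < L)
    (z w : ℂ) :
    ∫ t : ℝ, Kc ψ1 ((L * (z.im - t) : ℝ) * Complex.I) * Kc ψ2 ((L * (w.im - t) : ℝ) * Complex.I) =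
      (2 * π / L : ℝ) * Kc (fun v => ψ1 v * ψ2 (-v)) ((L * (z.im - w.im) : ℝ) * Complex.I) := by
  have h := (parseval h1 h2 hL (1/2 + z.im * Complex.I) (1/2 + w.im * Complex.I)).2
  have e1 : ∀ t : ℝ, (L : ℂ) * (1/2 + z.im * Complex.I - (1/2 + t * Complex.I)) =
      ((L * (z.im - t) : ℝ) : ℂ) * Complex.I := by
    intro t; push_cast; ring
  have e2 : ∀ t : ℝ, (L : ℂ) * (1/2 + w.im * Complex.I - (1/2 + t * Complex.I)) =
      ((L * (w.im - t) : ℝ) : ℂ) * Complex.I := by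
    intro t; push_cast; ring
  simp_rw [e1, e2] at h
  exact h

/-- The integral of `Zo ψ1 * Zo ψ2` over `[0,T]` is the pair sum over ordinates up to edge effects. -/
theorem Zo_product {ψ1 ψ2 : ℝ → ℝ} {b1 b2 : ℝ} (h1 : TF ψ1 b1) (h2 : TF ψ2 b2) :
    ∃ C : ℝ, 0 ≤ C ∧ ∀ T : ℝ, Real.exp 1 ≤ T →
    ‖(∫ t in (0:ℝ)..T, Zo ψ1 (Real.log T) t * Zo ψ2 (Real.log T) t) -
      (2 * π / Real.log T : ℝ) * Spair0 (fun v => ψ1 v * ψ2 (-v)) T‖ ≤
      C * Real.log (T + 2) ^ 2 := by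
  obtain ⟨C1, hC1, d1⟩ := kernelO_decay h1 6
  obtain ⟨C2, hC2, d2⟩ := kernelO_decay h2 2
  obtain ⟨CW, hCW, hW⟩ := W2_int
  refine ⟨C1 * C2 * (2 * CW), by positivity, fun T hT => ?_⟩
  have hT0 : 0 < T := (Real.exp_pos 1).trans_le hT
  set L := Real.log T with hL
  have hL1 : 1 ≤ L := by
    rw [hL, Real.le_log_iff_exp_le hT0]; exact hT
  have hL0 : 0 < L := by linarith
  set K1 : ℂ → ℝ → ℂ := fun z t => Kc ψ1 ((L * (z.im - t) : ℝ) * Complex.I) with hK1
  set K2 : ℂ → ℝ → ℂ := fun z t => Kc ψ2 ((L * (z.im - t) : ℝ) * Complex.I) with hK2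
  set Lm := (muZ.prod muZ).prod (volume : Measure ℝ) with hLm
  set A : ℝ := C1 * C2 with hA
  have hA0 : 0 ≤ A := by positivity
  set F1 : (ℂ × ℂ) × ℝ → ℂ := fun q =>
    (((Ioc 0 T).indicator (fun _ => (1:ℝ)) q.2 : ℝ) : ℂ) * (K1 q.1.1 q.2 * K2 q.1.2 q.2) with hF1
  set F2 : (ℂ × ℂ) × ℝ → ℂ := fun q =>
    (((Ioc 0 T).indicator (fun _ => (1:ℝ)) q.1.1.im : ℝ) : ℂ) * (K1 q.1.1 q.2 * K2 q.1.2 q.2) with hF2
  have c1 := h1.differentiable_Kc.continuous
  have c2 := h2.differentiable_Kc.continuous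
  have hKm : Measurable (fun q : (ℂ × ℂ) × ℝ => K1 q.1.1 q.2 * K2 q.1.2 q.2) := by
    apply Continuous.measurable
    apply Continuous.mul
    · exact c1.comp (by fun_prop)
    · exact c2.comp (by fun_prop)
  have hm1 : AEStronglyMeasurable F1 Lm := by
    apply Measurable.aestronglyMeasurable
    apply Measurable.mul _ hKm
    exact Complex.measurable_ofReal.comp
      ((measurable_const.indicator measurableSet_Ioc).comp measurable_snd)
  have hm2 : AEStronglyMeasurable F2 Lm := by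
    apply Measurable.aestronglyMeasurable
    apply Measurable.mul _ hKm
    exact Complex.measurable_ofReal.comp
      ((measurable_const.indicator measurableSet_Ioc).comp
        (Complex.measurable_im.comp (measurable_fst.comp measurable_fst)))
  have hKb : ∀ q : (ℂ × ℂ) × ℝ, ‖K1 q.1.1 q.2 * K2 q.1.2 q.2‖ ≤
      A * (((1 + |q.1.1.im - q.2|) ^ 6)⁻¹ * (1 + (q.1.2.im - q.2) ^ 2)⁻¹) := by
    intro q
    have a1 := d1 L hL1 (q.1.1.im - q.2)
    have a2 := d2 L hL1 (q.1.2.im - q.2)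
    have a3 : ((1 + |q.1.2.im - q.2|) ^ 2)⁻¹ ≤ (1 + (q.1.2.im - q.2) ^ 2)⁻¹ := inv_sq_le _
    rw [norm_mul]
    calc ‖K1 q.1.1 q.2‖ * ‖K2 q.1.2 q.2‖ ≤ (C1 * ((1 + |q.1.1.im - q.2|) ^ 6)⁻¹) *
          (C2 * (1 + (q.1.2.im - q.2) ^ 2)⁻¹) := by
          apply mul_le_mul a1 _ (norm_nonneg _) (by positivity)
          exact a2.trans (mul_le_mul_of_nonneg_left a3 (by positivity))
      _ = _ := by
          rw [hA]
          ring
  have hF1i : Integrable F1 Lm := by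
    refine Integrable.mono' ((W1_int T).const_mul A) hm1 ?_
    refine Eventually.of_forall fun q => ?_
    have hq := hKb q
    simp only [hF1, W1]
    rw [norm_mul, Complex.norm_real, Real.norm_of_nonneg (indicator_nonneg (fun _ _ => zero_le_one) _)]
    have hi : 0 ≤ (Ioc 0 T).indicator (fun _ => (1:ℝ)) q.2 := indicator_nonneg (fun _ _ => zero_le_one) _
    have a4 : ((1 + |q.1.1.im - q.2|) ^ 6)⁻¹ ≤ (1 + (q.1.1.im - q.2) ^ 2)⁻¹ := by
      apply inv_anti₀ (by positivity)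
      have h0 := abs_nonneg (q.1.1.im - q.2)
      have h3 : (q.1.1.im - q.2) ^ 2 = |q.1.1.im - q.2| ^ 2 := (sq_abs _).symm
      rw [h3]
      calc 1 + |q.1.1.im - q.2| ^ 2 ≤ (1 + |q.1.1.im - q.2|) ^ 2 := by nlinarith
        _ ≤ (1 + |q.1.1.im - q.2|) ^ 6 := pow_le_pow_right₀ (by linarith) (by norm_num)
    calc (Ioc 0 T).indicator (fun _ => (1:ℝ)) q.2 * ‖K1 q.1.1 q.2 * K2 q.1.2 q.2‖
        ≤ (Ioc 0 T).indicator (fun _ => (1:ℝ)) q.2 *
          (A * ((1 + (q.1.1.im - q.2) ^ 2)⁻¹ * (1 + (q.1.2.im - q.2) ^ 2)⁻¹)) := by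
          apply mul_le_mul_of_nonneg_left _ hi
          refine hq.trans ?_
          gcongr
      _ = _ := by ring
  -- the difference
  have hdiff : ∀ q : (ℂ × ℂ) × ℝ, ‖F1 q - F2 q‖ ≤ A * (W2 0 q + W2 T q) := by
    intro q
    have hq := hKb q
    simp only [hF1, hF2, W2]
    rw [← sub_mul, norm_mul, ← Complex.ofReal_sub, Complex.norm_real, Real.norm_eq_abs]
    have he := edge_pt (T := T) (γ := q.1.1.im) (t := q.2)
    have hp : 0 ≤ (1 + (q.1.2.im - q.2) ^ 2)⁻¹ := by positivity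
    calc _ ≤ |(Ioc 0 T).indicator (fun _ => (1:ℝ)) q.2 - (Ioc 0 T).indicator (fun _ => (1:ℝ)) q.1.1.im| *
          (A * (((1 + |q.1.1.im - q.2|) ^ 6)⁻¹ * (1 + (q.1.2.im - q.2) ^ 2)⁻¹)) :=
          mul_le_mul_of_nonneg_left hq (abs_nonneg _)
      _ = A * ((|(Ioc 0 T).indicator (fun _ => (1:ℝ)) q.2 - (Ioc 0 T).indicator (fun _ => (1:ℝ)) q.1.1.im| *
          ((1 + |q.1.1.im - q.2|) ^ 6)⁻¹) * (1 + (q.1.2.im - q.2) ^ 2)⁻¹) := by ring
      _ ≤ A * ((((1 + |q.2 - 0|) ^ 4)⁻¹ * (1 + (q.1.1.im - 0) ^ 2)⁻¹ +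
        ((1 + |q.2 - T|) ^ 4)⁻¹ * (1 + (q.1.1.im - T) ^ 2)⁻¹) * (1 + (q.1.2.im - q.2) ^ 2)⁻¹) := by
          gcongr
      _ = _ := by ring
  have hDi : Integrable (fun q => F1 q - F2 q) Lm :=
    Integrable.mono' (((hW 0).1.add (hW T).1).const_mul A) (hm1.sub hm2) (Eventually.of_forall hdiff)
  have hF2i : Integrable F2 Lm := by
    have := hF1i.sub hDi
    refine this.congr (Eventually.of_forall fun q => ?_)
    simp
  -- evaluate
  have v1 : ∫ q, F1 q ∂Lm = ∫ t in (0:ℝ)..T, Zo ψ1 L t * Zo ψ2 L t := by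
    rw [hLm, integral_prod_symm _ hF1i, intervalIntegral.integral_of_le hT0.le,
      ← integral_indicator measurableSet_Ioc]
    congr 1
    ext t
    simp only [hF1]
    rw [integral_const_mul]
    have := integral_prod_mul (μ := muZ) (ν := muZ) (fun z => K1 z t) (fun z => K2 z t)
    rw [this]
    by_cases ht : t ∈ Ioc 0 T
    · rw [indicator_of_mem ht, indicator_of_mem ht]
      simp [Zo, hK1, hK2]
    · rw [indicator_of_notMem ht, indicator_of_notMem ht]; simp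
  have v2 : ∫ q, F2 q ∂Lm = (2 * π / L : ℝ) * Spair0 (fun v => ψ1 v * ψ2 (-v)) T := by
    rw [hLm, integral_prod _ hF2i]
    unfold Spair0 muW
    have hrest : (muZ.restrict (WT T)).prod muZ = (muZ.prod muZ).restrict (WT T ×ˢ univ) := by
      rw [← Measure.prod_restrict, Measure.restrict_univ]
    rw [hrest, ← integral_const_mul, ← integral_indicator ((measurableSet_WTs T).prod MeasurableSet.univ)]
    congr 1
    ext p
    simp only [hF2]
    rw [integral_const_mul]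
    simp only [hK1, hK2]
    rw [parsevalO h1 h2 hL0 p.1 p.2]
    by_cases hp : p.1 ∈ WT T
    · have hp' : p.1.im ∈ Ioc 0 T := hp
      rw [indicator_of_mem hp', indicator_of_mem (by exact ⟨hp, mem_univ _⟩), Complex.ofReal_one, one_mul]
    · have hp' : p.1.im ∉ Ioc 0 T := hp
      rw [indicator_of_notMem hp', indicator_of_notMem (by intro h; exact hp h.1)]
      simp
  rw [← v1, ← v2, ← integral_sub hF1i hF2i]
  refine (norm_integral_le_integral_norm _).trans ?_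
  have hWi : Integrable (fun q => A * (W2 0 q + W2 T q)) Lm := ((hW 0).1.add (hW T).1).const_mul A
  refine (integral_mono hDi.norm hWi hdiff).trans ?_
  rw [integral_const_mul, integral_add (hW 0).1 (hW T).1]
  have g0 := (hW 0).2
  have gT := (hW T).2
  have hlog0 : Real.log (|(0:ℝ)| + 2) ≤ Real.log (T + 2) := by
    rw [abs_zero]
    exact Real.log_le_log (by norm_num) (by linarith)
  have hlog0' : 0 ≤ Real.log (|(0:ℝ)| + 2) := Real.log_nonneg (by rw [abs_zero]; norm_num)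
  rw [abs_of_pos hT0] at gT
  have g0' : CW * Real.log (|(0:ℝ)| + 2) ^ 2 ≤ CW * Real.log (T + 2) ^ 2 := by gcongr
  calc A * ((∫ q, W2 0 q ∂Lm) + ∫ q, W2 T q ∂Lm) ≤ A * (CW * Real.log (T + 2) ^ 2 + CW * Real.log (T + 2) ^ 2) := by
        apply mul_le_mul_of_nonneg_left _ hA0
        linarith
    _ = _ := by rw [hA]; ring

/-- reflection of a test function -/
lemma TF_refl (h : TF W b) : TF (fun v => W (-v)) b where
  smooth := h.smooth.comp contDiff_neg
  supp := by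
    intro v hv
    exact h.supp (-v) (by rwa [abs_neg])

lemma Kc_conj (ψ : ℝ → ℝ) (x : ℝ) :
    (starRingEnd ℂ) (Kc ψ (x * Complex.I)) = Kc (fun v => ψ (-v)) (x * Complex.I) := by
  unfold Kc
  rw [← integral_conj, ← integral_neg_eq_self]
  congr 1
  ext v
  rw [map_mul, Complex.conj_ofReal, ← Complex.exp_conj]
  congr 2
  simp

lemma Zo_conj (ψ : ℝ → ℝ) (L t : ℝ) :
    (starRingEnd ℂ) (Zo ψ L t) = Zo (fun v => ψ (-v)) L t := by
  unfold Zo
  rw [← integral_conj]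
  congr 1
  ext z
  exact Kc_conj ψ _

theorem mean_Zo (h : TF W b) (hb : 0 ≤ b) :
    Tendsto (fun T : ℝ => T⁻¹ * (∫ t in (0:ℝ)..T, ‖Zo W (Real.log T) t‖ ^ 2) - S0 (fun v => W v ^ 2) T)
      atTop (𝓝 0) := by
  obtain ⟨C, hC, hZ⟩ := Zo_product h (TF_refl h)
  have hlim : Tendsto (fun T : ℝ => C * (Real.log (T + 2) ^ 2 / T)) atTop (𝓝 0) := by
    have h1 : Tendsto (fun x : ℝ => Real.log x ^ 2 / x) atTop (𝓝 0) := by
      have := (isLittleO_pow_log_id_atTop (n := 2)).tendsto_div_nhds_zero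
      exact this
    have h2 : Tendsto (fun T : ℝ => T + 2) atTop atTop := tendsto_atTop_add_const_right _ _ tendsto_id
    have h3 := h1.comp h2
    have h4 : Tendsto (fun T : ℝ => (T + 2) / T) atTop (𝓝 1) := by
      have : Tendsto (fun T : ℝ => 1 + 2 * T⁻¹) atTop (𝓝 (1 + 2 * 0)) :=
        (tendsto_inv_atTop_zero.const_mul 2).const_add 1
      rw [mul_zero, add_zero] at this
      refine this.congr' ?_
      filter_upwards [eventually_gt_atTop 0] with T hT
      field_simp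
    have h5 := (h3.mul h4).const_mul C
    rw [zero_mul, mul_zero] at h5
    refine h5.congr' ?_
    filter_upwards [eventually_gt_atTop 0] with T hT
    simp only [Function.comp]
    field_simp
  rw [tendsto_zero_iff_abs_tendsto_zero]
  refine tendsto_of_tendsto_of_tendsto_of_le_of_le' tendsto_const_nhds hlim
    (Eventually.of_forall fun T => abs_nonneg _) ?_
  filter_upwards [eventually_ge_atTop (Real.exp 1)] with T hT
  have hT0 : 0 < T := (Real.exp_pos 1).trans_le hT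
  have hL1 : 1 ≤ Real.log T := by rw [Real.le_log_iff_exp_le hT0]; exact hT
  have hL0 : 0 < Real.log T := by linarith
  have key := hZ T hT
  have e1 : (∫ t in (0:ℝ)..T, Zo W (Real.log T) t * Zo (fun v => W (-v)) (Real.log T) t) =
      ((∫ t in (0:ℝ)..T, ‖Zo W (Real.log T) t‖ ^ 2 : ℝ) : ℂ) := by
    rw [← intervalIntegral.integral_ofReal]
    congr 1
    ext t
    rw [← Zo_conj, Complex.mul_conj, Complex.normSq_eq_norm_sq]
  have e2 : (fun v => W v * W (- -v)) = fun v => W v ^ 2 := by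
    ext v; rw [neg_neg, sq]
  rw [e1] at key
  simp only [e2] at key
  have h6 : |(∫ t in (0:ℝ)..T, ‖Zo W (Real.log T) t‖ ^ 2) -
      (2 * π / Real.log T) * (Spair0 (fun v => W v ^ 2) T).re| ≤ C * Real.log (T + 2) ^ 2 := by
    refine le_trans ?_ key
    have := Complex.abs_re_le_norm (((∫ t in (0:ℝ)..T, ‖Zo W (Real.log T) t‖ ^ 2 : ℝ) : ℂ) -
      ((2 * π / Real.log T : ℝ) : ℂ) * Spair0 (fun v => W v ^ 2) T)
    rwa [Complex.sub_re, Complex.ofReal_re, Complex.re_ofReal_mul] at this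
  simp only [Function.comp]
  unfold S0 NT
  have e3 : T⁻¹ * (∫ t in (0:ℝ)..T, ‖Zo W (Real.log T) t‖ ^ 2) -
      (Spair0 (fun v => W v ^ 2) T).re / (T * Real.log T / (2 * π)) =
      T⁻¹ * ((∫ t in (0:ℝ)..T, ‖Zo W (Real.log T) t‖ ^ 2) -
      (2 * π / Real.log T) * (Spair0 (fun v => W v ^ 2) T).re) := by
    field_simp
  rw [e3, abs_mul, abs_of_pos (inv_pos.2 hT0)]
  calc T⁻¹ * _ ≤ T⁻¹ * (C * Real.log (T + 2) ^ 2) := mul_le_mul_of_nonneg_left h6 (inv_pos.2 hT0).le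
    _ = _ := by ring

end Pool.Agent.H12.TP
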