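import Mathlib

/-!
# Power sums control the largest of `N` numbers

PROOF.  Newton's identities: `k e_k = ∑_{i=1}^k (-1)^{i-1} e_{k-i} p_i`; with `|p_i| ≤ K ≤ K^i` for
`1 ≤ i ≤ N` induction gives `|e_k| ≤ K^k` for `k ≤ N`.  Pad the multiset with zeros to have exactly
`N` elements if convenient (this does not change the `p_k`, `k ≥ 1`).  Every `a ∈ M` is a root of
`∏ (X - b)`, i.e. `a^N = ∑_{k=1}^N (-1)^{k-1} e_k a^{N-k}`; if `|a| > 2K` then
`|a|^N ≤ ∑ K^k |a|^{N-k} < |a|^N ∑ 2^{-k} < |a|^N`.  (Mathlib: `MvPolynomial.mul_esymm_eq_sum`,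
`MvPolynomial.psum`, `Multiset.esymm`, `Multiset.prod_X_sub_C_eq_sum_esymm`; or avoid Newton:
generating function `∏ (1 - a X)`.)
-/

set_option autoImplicit false

namespace Pool.Agent.H12.TP

open Finset

theorem esymm_zero' (M : Multiset ℂ) : M.esymm 0 = 1 := by
  simp [Multiset.esymm, Multiset.powersetCard_zero_left]

/-- Newton's identities in norm form. -/
theorem esymm_norm_le (n : ℕ) (f : Fin n → ℂ) {K : ℝ} (hK : 1 ≤ K)
    (h : ∀ k ∈ Finset.Icc 1 n, ‖∑ i, f i ^ k‖ ≤ K) :
    ∀ k, k ≤ n → ‖(Finset.univ.val.map f).esymm k‖ ≤ K ^ k := by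
  intro k
  induction k using Nat.strong_induction_on with
  | _ k ih =>
    intro hk
    rcases Nat.eq_zero_or_pos k with rfl | hpos
    · rw [esymm_zero']; simp
    have key := congrArg (MvPolynomial.aeval f) (MvPolynomial.mul_esymm_eq_sum (Fin n) ℂ k)
    simp only [map_mul, map_natCast, map_pow, map_neg, map_one, map_sum,
      MvPolynomial.aeval_esymm_eq_multiset_esymm, MvPolynomial.psum, MvPolynomial.aeval_X] at key
    have h1 : (k : ℝ) * ‖(Finset.univ.val.map f).esymm k‖ ≤ k * K ^ k := by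
      have h2 : (k : ℝ) * ‖(Finset.univ.val.map f).esymm k‖ =
          ‖(k : ℂ) * (Finset.univ.val.map f).esymm k‖ := by
        rw [norm_mul, Complex.norm_natCast]
      rw [h2, key, norm_mul, norm_pow, norm_neg, norm_one, one_pow, one_mul]
      have h3 : ∀ x ∈ (antidiagonal k).filter (fun a : ℕ × ℕ => a.1 < k),
          ‖(-1 : ℂ) ^ x.1 * (Finset.univ.val.map f).esymm x.1 * ∑ i, f i ^ x.2‖ ≤ K ^ k := by
        intro x hx
        simp only [mem_filter, HasAntidiagonal.mem_antidiagonal] at hx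
        rw [norm_mul, norm_mul, norm_pow, norm_neg, norm_one, one_pow, one_mul]
        have h4 := ih x.1 hx.2 (by omega)
        have h5 := h x.2 (by simp only [mem_Icc]; omega)
        calc _ ≤ K ^ x.1 * K := mul_le_mul h4 h5 (norm_nonneg _) (by positivity)
          _ = K ^ (x.1 + 1) := by ring
          _ ≤ K ^ k := pow_le_pow_right₀ hK (by omega)
      refine (norm_sum_le _ _).trans ((Finset.sum_le_card_nsmul _ _ _ h3).trans ?_)
      have h6 : ((antidiagonal k).filter (fun a : ℕ × ℕ => a.1 < k)).card ≤ k := by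
        have h7 : ((antidiagonal k).filter (fun a : ℕ × ℕ => a.1 < k)).card ≤
            (Finset.range k).card := by
          apply Finset.card_le_card_of_injOn (fun a => a.1)
          · intro a ha
            simp only [coe_filter, HasAntidiagonal.mem_antidiagonal, Set.mem_ofPred_eq] at ha
            simp only [coe_range, Set.mem_Iio]
            exact ha.2
          · intro a ha b hb hab
            simp only [coe_filter, HasAntidiagonal.mem_antidiagonal, Set.mem_ofPred_eq] at ha hb
            simp only at hab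
            apply Prod.ext hab
            omega
        rwa [card_range] at h7
      rw [nsmul_eq_mul]
      exact mul_le_mul_of_nonneg_right (by exact_mod_cast h6) (by positivity)
    exact le_of_mul_le_mul_left h1 (by exact_mod_cast hpos)

theorem power_sum_bound (M : Multiset ℂ) (N : ℕ) (hN : Multiset.card M ≤ N) {K : ℝ} (hK : 1 ≤ K)
    (h : ∀ k ∈ Finset.Icc 1 N, ‖(M.map (fun a => a ^ k)).sum‖ ≤ K) : ∀ a ∈ M, ‖a‖ ≤ 2 * K := by
  intro a ha
  by_contra hcon
  push Not at hcon
  set l := M.toList with hl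
  have hM : M = Finset.univ.val.map (fun i : Fin l.length => l.get i) := by
    rw [Fin.univ_val_map, List.ofFn_get, hl, Multiset.coe_toList]
  set n := l.length with hn
  set f : Fin n → ℂ := fun i => l.get i with hf
  have hcard : Multiset.card M = n := by rw [hn, hl, Multiset.length_toList]
  have hps : ∀ k ∈ Finset.Icc 1 n, ‖∑ i, f i ^ k‖ ≤ K := by
    intro k hk
    have h1 := h k (by simp only [mem_Icc] at hk ⊢; omega)
    rw [hM, Multiset.map_map] at h1
    exact h1
  have hes := esymm_norm_le n f hK hps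
  have ha' : a ∈ Finset.univ.val.map f := by rw [← hM]; exact ha
  have hroot := Multiset.prod_X_sub_X_eq_sum_esymm (Finset.univ.val.map f)
  have hev := congrArg (Polynomial.eval a) hroot
  have hzero : Polynomial.eval a ((Finset.univ.val.map f).map
      (fun t => Polynomial.X - Polynomial.C t)).prod = 0 := by
    rw [Polynomial.eval_multiset_prod]
    apply Multiset.prod_eq_zero
    rw [Multiset.mem_map]
    refine ⟨Polynomial.X - Polynomial.C a, ?_, by simp⟩
    rw [Multiset.mem_map]
    exact ⟨a, ha', rfl⟩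
  rw [hzero] at hev
  have hc2 : Multiset.card (Finset.univ.val.map f) = n := by rw [← hM]; exact hcard
  rw [hc2, Polynomial.eval_finsetSum] at hev
  simp only [Polynomial.eval_mul, Polynomial.eval_pow, Polynomial.eval_neg, Polynomial.eval_one,
    Polynomial.eval_C, Polynomial.eval_X] at hev
  rw [Finset.sum_range_succ'] at hev
  simp only [pow_zero, one_mul, Nat.sub_zero, esymm_zero'] at hev
  have ha0 : 0 < ‖a‖ := by linarith
  have h1 : ‖a‖ ^ n ≤ ∑ k ∈ range n, K ^ (k + 1) * ‖a‖ ^ (n - (k + 1)) := by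
    have h2 : a ^ n = -∑ k ∈ range n, (-1) ^ (k + 1) *
        ((Finset.univ.val.map f).esymm (k + 1) * a ^ (n - (k + 1))) := by
      rw [eq_neg_iff_add_eq_zero, add_comm]
      exact hev.symm
    rw [← norm_pow, h2, norm_neg]
    refine norm_sum_le_of_le _ fun k hk => ?_
    rw [mem_range] at hk
    rw [norm_mul, norm_mul, norm_pow, norm_neg, norm_one, one_pow, one_mul, norm_pow]
    exact mul_le_mul_of_nonneg_right (hes (k + 1) (by omega)) (by positivity)
  have h3 : ∑ k ∈ range n, K ^ (k + 1) * ‖a‖ ^ (n - (k + 1)) ≤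
      ∑ k ∈ range n, ‖a‖ ^ n * (1 / 2) ^ (k + 1) := by
    apply Finset.sum_le_sum
    intro k hk
    rw [mem_range] at hk
    have h4 : ‖a‖ ^ n = ‖a‖ ^ (k + 1) * ‖a‖ ^ (n - (k + 1)) := by
      rw [← pow_add]; congr 1; omega
    have h5 : K ^ (k + 1) ≤ (‖a‖ / 2) ^ (k + 1) :=
      pow_le_pow_left₀ (by linarith) (by linarith) _
    calc K ^ (k + 1) * ‖a‖ ^ (n - (k + 1)) ≤ (‖a‖ / 2) ^ (k + 1) * ‖a‖ ^ (n - (k + 1)) :=
          mul_le_mul_of_nonneg_right h5 (by positivity)
      _ = ‖a‖ ^ n * (1 / 2) ^ (k + 1) := by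
          rw [h4, div_eq_mul_one_div, mul_pow]; ring
  have h6 : ∑ k ∈ range n, (1 / 2 : ℝ) ^ (k + 1) < 1 := by
    have h7 : ∀ m : ℕ, ∑ k ∈ range m, (1 / 2 : ℝ) ^ (k + 1) = 1 - (1 / 2) ^ m := by
      intro m
      induction m with
      | zero => simp
      | succ m ih => rw [sum_range_succ, ih]; ring
    rw [h7]
    have : (0 : ℝ) < (1 / 2) ^ n := by positivity
    linarith
  rw [← Finset.mul_sum] at h3
  have h8 : ‖a‖ ^ n * ∑ k ∈ range n, (1 / 2 : ℝ) ^ (k + 1) < ‖a‖ ^ n * 1 :=
    mul_lt_mul_of_pos_left h6 (by positivity)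
  linarith

end Pool.Agent.H12.TP
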