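import Pool.Agent.H12.TP.Defs
import Pool.Agent.H12.TP.Newton
import Pool.Agent.PairCorr.A_SimpleCrit

/-!
# Power sums over the zeros in a set of finite measure

PROOF.  `muZ A ≤ N < ∞`: `A ∩ NTZ` is finite (each zero has mass `mult z ≥ 1`, `muZ_singleton`; `muZ_ae`:
`muZ` lives on `NTZ`), and `∫_A g dmuZ = ∑_{z ∈ A ∩ NTZ} mult z * g z`.  Let `M` be the multiset of the
numbers `h z ^ m`, `z ∈ A ∩ NTZ`, each taken `mult z` times; `card M = ∑ mult z = muZ A ≤ N` and
`(M.map (· ^ k)).sum = ∫_A h ^ (m k) dmuZ`.  Apply `power_sum_bound`.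
-/

set_option autoImplicit false

namespace Pool.Agent.H12.TP

open MeasureTheory Filter Topology Set Real
open Pool.Agent.PairCorr Pool.Agent.PairCorr.P6
open scoped ENNReal ArithmeticFunction.vonMangoldt

lemma muZ_finset_eq {F : Finset ℂ} (hF : ∀ z ∈ F, z ∈ NTZ) :
    muZ (F : Set ℂ) = ((∑ z ∈ F, mult z : ℕ) : ℝ≥0∞) := by
  rw [← sum_measure_singleton, Nat.cast_sum]
  exact Finset.sum_congr rfl fun z hz => muZ_singleton (hF z hz)

lemma finite_zeros_of_le {A : Set ℂ} {N : ℕ} (hAN : muZ A ≤ N) : (A ∩ NTZ).Finite := by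
  by_contra hinf
  obtain ⟨F, hF, hcard⟩ := Set.Infinite.exists_subset_card_eq hinf (N + 1)
  have h1 : muZ (F : Set ℂ) ≤ N := (measure_mono (hF.trans inter_subset_left)).trans hAN
  rw [muZ_finset_eq fun z hz => (hF hz).2] at h1
  have h2 : N + 1 ≤ ∑ z ∈ F, mult z := by
    rw [← hcard, Finset.card_eq_sum_ones]
    exact Finset.sum_le_sum fun z hz => mult_pos (hF hz).2
  have h3 : (∑ z ∈ F, mult z) ≤ N := by exact_mod_cast h1
  omega

theorem near_power {A : Set ℂ} (hA : MeasurableSet A) {N : ℕ} (hAN : muZ A ≤ N) {h : ℂ → ℂ}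
    (hh : Measurable h) {m : ℕ} {K : ℝ} (hK : 1 ≤ K)
    (hk : ∀ k ∈ Finset.Icc 1 N, ‖∫ z in A, h z ^ (m * k) ∂muZ‖ ≤ K) :
    ∀ z ∈ NTZ, z ∈ A → ‖h z‖ ^ m ≤ 2 * K := by
  have hfin := finite_zeros_of_le hAN
  set S : Finset ℂ := hfin.toFinset with hS
  have hSmem : ∀ z, z ∈ S ↔ z ∈ A ∧ z ∈ NTZ := by
    intro z
    rw [hS, Set.Finite.mem_toFinset]
    rfl
  have hint : ∀ g : ℂ → ℂ, ∫ z in A, g z ∂muZ = ∑ z ∈ S, (mult z : ℂ) * g z := by
    intro g
    have h1 : muZ.restrict A = muZ.restrict (S : Set ℂ) := by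
      apply Measure.restrict_congr_set
      filter_upwards [muZ_ae] with z hz
      apply propext
      constructor
      · intro hzA
        exact (hSmem z).2 ⟨hzA, hz⟩
      · intro hzS
        exact ((hSmem z).1 hzS).1
    have hfm : ∀ z ∈ S, IntegrableOn g {z} muZ := by
      intro z hz
      refine integrableOn_singleton (by finiteness) ?_
      rw [muZ_singleton ((hSmem z).1 hz).2]
      exact ENNReal.natCast_lt_top _
    have hfin2 : IntegrableOn g (S : Set ℂ) muZ := by
      have h2 : (S : Set ℂ) = ⋃ z ∈ S, {z} := by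
        ext w; simp
      rw [h2]
      exact (integrableOn_finset_iUnion).2 hfm
    rw [h1, setIntegral_finset _ hfin2]
    refine Finset.sum_congr rfl fun z hz => ?_
    rw [Measure.real, muZ_singleton ((hSmem z).1 hz).2]
    simp
  set M : Multiset ℂ := S.val.bind (fun z => Multiset.replicate (mult z) (h z ^ m)) with hM
  have hcard : Multiset.card M ≤ N := by
    have h1 : muZ (S : Set ℂ) ≤ N :=
      (measure_mono (fun z hz => ((hSmem z).1 hz).1)).trans hAN
    rw [muZ_finset_eq fun z hz => ((hSmem z).1 hz).2] at h1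
    have h2 : (∑ z ∈ S, mult z) ≤ N := by exact_mod_cast h1
    refine le_trans (le_of_eq ?_) h2
    rw [hM, Multiset.card_bind]
    simp only [Function.comp_def, Multiset.card_replicate]
    rfl
  have hpow : ∀ k : ℕ, (M.map (fun a => a ^ k)).sum = ∫ z in A, h z ^ (m * k) ∂muZ := by
    intro k
    rw [hint, hM, Multiset.map_bind, Multiset.sum_bind]
    simp only [Multiset.map_replicate, Multiset.sum_replicate, nsmul_eq_mul]
    simp only [pow_mul]
    rfl
  intro z hz hzA
  have hmem : h z ^ m ∈ M := by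
    rw [hM, Multiset.mem_bind]
    refine ⟨z, (hSmem z).2 ⟨hzA, hz⟩, ?_⟩
    rw [Multiset.mem_replicate]
    have := mult_pos hz
    exact ⟨by omega, rfl⟩
  have hfinal := power_sum_bound M N hcard hK (fun k hk' => by rw [hpow]; exact hk k hk') _ hmem
  rwa [norm_pow] at hfinal

end Pool.Agent.H12.TP
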