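import Pool.Agent.H12.TP.EF
import Pool.Agent.H12.TP.Good
import Pool.Agent.H12.TP.NearSum
import Pool.Agent.H12.TP.Conv

/-!
# The upper bound for the primes forces almost all zeros to be near the line

PROOF.  Let `V, B` be from `exists_family`, and `x, c` from its last part for the given `y`; `h = Kc (V 1)`.
Given `η > 0`: `X, N` from `good_times` (for `V 1`, `η/3`), `N ≥ 1` w.l.o.g.  Choose `K ≥ 2` with
`N (B+1)/(K-1)^2 ≤ η/6` and then `m` with `(1+c)^m > 2 (K+1)`.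
For `n = m k`, `k = 1..N`: by `hU` with truncation `(K-1)^2` and `ε = 1`, eventually
`T⁻¹ ∫_0^T min(‖PS (V n) T t‖^2, (K-1)^2) ≤ B + 1`, so by Markov
`volume {t ∈ (0,T] : ‖PS (V n) T t‖ ≥ K-1} ≤ (B+1) T/(K-1)^2`; all `N` sets together `≤ η T/6`.
By `explicit_pos` (ε = 1/2), `‖Zs (V n) L t‖ ≤ K - 1/2` for the other `t ∈ [√T, T]`; `√T ≤ η T/6` eventually.
Now let `t` be good in all respects: `Zs (V n) L t = ∫ h(w_z)^n dmuZ`, `w_z = L (z - 1/2 - it)`, `Kc (V n) = h^n`.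
Far part (`|L(im z - t)| > X`): `∫⁻ ‖h‖ ≤ 1/2`, so each far zero has `‖h‖ ≤ 1/2` (mass ≥ 1) and
`‖h‖^n ≤ ‖h‖`: the far part of `∫ h^n` is `≤ 1/2`.  Hence the near part is `≤ K` for all `n = m k`, and
`near_power` (A = {|L(im z - t)| ≤ X}) gives `‖h(w_z)‖^m ≤ 2 K` for all near zeros, which excludes
`OffAt x y T t` (there `‖h‖ ≥ 1 + c`, and `x ≤ 1 ≤ X`).
Integrability of `h(w_z)^n = Kc (V n) (w_z)`: `kernel_integrable` (PairCorr/S_Product).
-/

set_option autoImplicit false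

namespace Pool.Agent.H12.TP

open MeasureTheory Filter Topology Set Real
open Pool.Agent.PairCorr Pool.Agent.PairCorr.P6
open scoped ENNReal ArithmeticFunction.vonMangoldt

namespace OffAux

/-- Markov for the truncated mean square -/
lemma markov {W : ℝ → ℝ} {a b : ℝ} (h : PT W a b) {T : ℝ} (hT : 1 < T) {D C : ℝ} (hD : 0 < D)
    (hTM : TM W (D ^ 2) T ≤ C) :
    volume {t : ℝ | t ∈ Ioc 0 T ∧ D ≤ ‖PS W T t‖} ≤ ENNReal.ofReal (C * T / D ^ 2) := by
  have hL := Real.log_pos hT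
  have hT0 : 0 < T := by linarith
  have hint : IntegrableOn (fun t => min (‖PS W T t‖ ^ 2) (D ^ 2)) (Ioc 0 T) volume := by
    have := TM_ii h hL (D ^ 2) 0 T
    rwa [intervalIntegrable_iff_integrableOn_Ioc_of_le hT0.le] at this
  have hM := mul_meas_ge_le_integral_of_nonneg (μ := volume.restrict (Ioc 0 T))
    (f := fun t => min (‖PS W T t‖ ^ 2) (D ^ 2))
    (Eventually.of_forall fun t => le_min (by positivity) (by positivity)) hint (D ^ 2)
  have hI : ∫ t in Ioc 0 T, min (‖PS W T t‖ ^ 2) (D ^ 2) ≤ C * T := by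
    rw [← intervalIntegral.integral_of_le hT0.le]
    unfold TM at hTM
    have := mul_le_mul_of_nonneg_right hTM hT0.le
    calc _ = T⁻¹ * (∫ t in (0 : ℝ)..T, min (‖PS W T t‖ ^ 2) (D ^ 2)) * T := by field_simp
      _ ≤ _ := this
  have hPc := PS_continuous h hL
  have hset : {t : ℝ | t ∈ Ioc 0 T ∧ D ≤ ‖PS W T t‖} =
      {t | D ^ 2 ≤ min (‖PS W T t‖ ^ 2) (D ^ 2)} ∩ Ioc 0 T := by
    ext t
    simp only [mem_ofPred_eq, mem_inter_iff, le_min_iff, le_refl, and_true]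
    rw [and_comm, sq_le_sq₀ hD.le (norm_nonneg _)]
  have hmeas : MeasurableSet {t : ℝ | D ^ 2 ≤ min (‖PS W T t‖ ^ 2) (D ^ 2)} :=
    (isClosed_le continuous_const (by fun_prop)).measurableSet
  have h1 : volume {t : ℝ | t ∈ Ioc 0 T ∧ D ≤ ‖PS W T t‖} =
      (volume.restrict (Ioc 0 T)) {t | D ^ 2 ≤ min (‖PS W T t‖ ^ 2) (D ^ 2)} := by
    rw [hset, Measure.restrict_apply hmeas]
  rw [h1]
  have hfin : (volume.restrict (Ioc 0 T)) {t | D ^ 2 ≤ min (‖PS W T t‖ ^ 2) (D ^ 2)} ≠ ⊤ :=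
    measure_ne_top _ _
  rw [← ENNReal.ofReal_toReal hfin]
  apply ENNReal.ofReal_le_ofReal
  rw [le_div_iff₀ (by positivity), mul_comm]
  exact hM.trans hI

lemma off_far_le {h : ℂ → ℂ} {F : Set ℂ} (hF : MeasurableSet F)
    (hfar : ∫⁻ z in F, ENNReal.ofReal ‖h z‖ ∂muZ ≤ ENNReal.ofReal (1 / 2)) {n : ℕ} (hn : 1 ≤ n) :
    ‖∫ z in F, h z ^ n ∂muZ‖ ≤ 1 / 2 := by
  have hpt : ∀ z ∈ NTZ, z ∈ F → ‖h z‖ ≤ 1 / 2 := by
    intro z hz hzF
    have h1 : ENNReal.ofReal ‖h z‖ ≤ ENNReal.ofReal (1 / 2) := by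
      calc ENNReal.ofReal ‖h z‖ ≤ ENNReal.ofReal ‖h z‖ * muZ {z} := by
            conv_lhs => rw [← mul_one (ENNReal.ofReal ‖h z‖)]
            exact mul_le_mul_right (muZ_singleton_ge hz) _
        _ = ∫⁻ w in {z}, ENNReal.ofReal ‖h w‖ ∂muZ := by
            rw [lintegral_singleton]
        _ ≤ ∫⁻ w in F, ENNReal.ofReal ‖h w‖ ∂muZ :=
            lintegral_mono_set (singleton_subset_iff.2 hzF)
        _ ≤ _ := hfar
    exact (ENNReal.ofReal_le_ofReal_iff (by norm_num)).1 h1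
  have h2 : ENNReal.ofReal ‖∫ z in F, h z ^ n ∂muZ‖ ≤ ENNReal.ofReal (1 / 2) := by
    rw [ofReal_norm]
    refine (enorm_integral_le_lintegral_enorm _).trans (le_trans ?_ hfar)
    apply lintegral_mono_ae
    rw [ae_restrict_iff' hF]
    filter_upwards [muZ_ae] with z hz hzF
    have h3 := hpt z hz hzF
    rw [← ofReal_norm, norm_pow]
    apply ENNReal.ofReal_le_ofReal
    exact pow_le_of_le_one (norm_nonneg _) (by linarith) (by omega)
  exact (ENNReal.ofReal_le_ofReal_iff (by norm_num)).1 h2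

end OffAux

open OffAux

theorem off_rare (hU : TrimUB) {y : ℝ} (hy : 0 < y) : ∃ x : ℝ, 0 < x ∧ x ≤ 1 ∧ ∀ η : ℝ, 0 < η →
    ∀ᶠ T : ℝ in atTop, volume {t : ℝ | t ∈ Ioc 0 T ∧ OffAt x y T t} ≤ ENNReal.ofReal (η * T) := by
  obtain ⟨V, B, hB, hV, hlast⟩ := exists_family
  obtain ⟨x, hx0, hx1, c, hc, hKc⟩ := hlast y hy
  refine ⟨x, hx0, hx1, fun η hη => ?_⟩
  have hV1 := (hV 1 le_rfl).1
  obtain ⟨X, hX1, N0, hgood⟩ := good_times hV1.tf (by norm_num) (η := η / 3) (by positivity)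
  set N : ℕ := max N0 1 with hN
  have hN1 : 1 ≤ N := le_max_right _ _
  have hN0 : N0 ≤ N := le_max_left _ _
  set K : ℝ := 2 + 6 * N * (B + 1) / η with hK
  have hq : 0 ≤ 6 * N * (B + 1) / η := by positivity
  have hK2 : 2 ≤ K := by rw [hK]; linarith
  obtain ⟨m, hm⟩ := pow_unbounded_of_one_lt (2 * K) (show 1 < 1 + c by linarith)
  have hm1 : 1 ≤ m := by
    rcases Nat.eq_zero_or_pos m with rfl | h
    · rw [pow_zero] at hm; linarith
    · exact h
  have hD : 0 < K - 1 := by linarith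
  have hKD : N * ((B + 1) / (K - 1) ^ 2) ≤ η / 6 := by
    have h1 : 6 * N * (B + 1) / η ≤ (K - 1) ^ 2 := by
      have : K - 1 = 1 + 6 * N * (B + 1) / η := by rw [hK]; ring
      rw [this]; nlinarith
    rw [div_le_iff₀ hη] at h1
    rw [← mul_div_assoc, div_le_div_iff₀ (by positivity) (by norm_num)]
    nlinarith
  have hmk : ∀ k ∈ Finset.Icc 1 N, 1 ≤ m * k := by
    intro k hk
    exact Nat.mul_pos hm1 (Finset.mem_Icc.1 hk).1
  -- eventual statements
  have e1 : ∀ᶠ T : ℝ in atTop, ∀ k ∈ Finset.Icc 1 N, TM (V (m * k)) ((K - 1) ^ 2) T ≤ B + 1 := by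
    rw [Finset.eventually_all]
    intro k hk
    obtain ⟨g1, g2, g3, g4⟩ := hV (m * k) (hmk k hk)
    filter_upwards [hU _ _ _ g1 g2 ((K - 1) ^ 2) (by positivity) 1 one_pos] with T hT
    linarith
  have e2 : ∀ᶠ T : ℝ in atTop, ∀ k ∈ Finset.Icc 1 N, ∀ t ∈ Icc (√T) T,
      ‖Zs (V (m * k)) (Real.log T) t + PS (V (m * k)) T t‖ ≤ 1 / 2 := by
    rw [Finset.eventually_all]
    intro k hk
    obtain ⟨g1, g2, g3, g4⟩ := hV (m * k) (hmk k hk)
    exact explicit_pos g1 (by norm_num)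
  have e3 : ∀ᶠ T : ℝ in atTop, √T ≤ η * T / 6 := by
    filter_upwards [eventually_ge_atTop ((6 / η) ^ 2), eventually_gt_atTop 0] with T hT hT0
    have h1 : 6 / η ≤ √T := Real.le_sqrt_of_sq_le hT
    have h2 : √T * √T = T := Real.mul_self_sqrt hT0.le
    rw [div_le_iff₀ hη] at h1
    have h3 := Real.sqrt_nonneg T
    nlinarith
  filter_upwards [e1, e2, e3, hgood, eventually_ge_atTop (Real.exp 1)] with T h1 h2 h3 h4 h5
  have hT1 : 1 < T := lt_of_lt_of_le (by simpa using Real.exp_lt_exp.2 one_pos) h5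
  have hT0 : 0 < T := by linarith
  have hL1 : 1 ≤ Real.log T := by rwa [Real.le_log_iff_exp_le hT0]
  set L := Real.log T with hL
  -- the inclusion
  have hsub : {t : ℝ | t ∈ Ioc 0 T ∧ OffAt x y T t} ⊆
      (Ioc 0 (√T) ∪ {t : ℝ | t ∈ Ioc 0 T ∧
        ¬ (muZ {z : ℂ | |L * (z.im - t)| ≤ X} ≤ N0 ∧
        ∫⁻ z in {z : ℂ | X < |L * (z.im - t)|},
          ENNReal.ofReal ‖Kc (V 1) (L * (z - (1/2 + t * Complex.I)))‖ ∂muZ ≤ ENNReal.ofReal (1/2))}) ∪
      ⋃ k ∈ Finset.Icc 1 N, {t : ℝ | t ∈ Ioc 0 T ∧ K - 1 ≤ ‖PS (V (m * k)) T t‖} := by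
    rintro t ⟨ht, z0, hz0, hz1, hz2⟩
    by_contra hcon
    simp only [mem_union, not_or, mem_iUnion, not_exists] at hcon
    obtain ⟨⟨c1, c2⟩, c3⟩ := hcon
    have ht1 : √T < t := by
      by_contra hle
      exact c1 ⟨ht.1, not_lt.1 hle⟩
    have htI : t ∈ Icc (√T) T := ⟨ht1.le, ht.2⟩
    have c2' : muZ {z : ℂ | |L * (z.im - t)| ≤ X} ≤ N0 ∧
        ∫⁻ z in {z : ℂ | X < |L * (z.im - t)|},
          ENNReal.ofReal ‖Kc (V 1) (L * (z - (1/2 + t * Complex.I)))‖ ∂muZ ≤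
            ENNReal.ofReal (1/2) := by
      by_contra hno
      exact c2 ⟨ht, hno⟩
    obtain ⟨d1, d2⟩ := c2'
    have c3' : ∀ k ∈ Finset.Icc 1 N, ‖PS (V (m * k)) T t‖ < K - 1 := by
      intro k hk
      by_contra hle
      exact c3 k hk ⟨ht, not_lt.1 hle⟩
    set h : ℂ → ℂ := fun z => Kc (V 1) (L * (z - (1/2 + t * Complex.I))) with hh
    have hcont : Continuous h := hV1.tf.differentiable_Kc.continuous.comp (by fun_prop)
    set A : Set ℂ := {z : ℂ | |L * (z.im - t)| ≤ X} with hA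
    have hAm : MeasurableSet A :=
      (isClosed_le (by fun_prop) continuous_const).measurableSet
    have hAc : Aᶜ = {z : ℂ | X < |L * (z.im - t)|} := by
      ext z; simp [hA]
    have hfar := fun (n : ℕ) (hn : 1 ≤ n) => off_far_le (h := h) (F := Aᶜ) hAm.compl (by
      rw [hAc]; exact d2) hn
    have hk : ∀ k ∈ Finset.Icc 1 N, ‖∫ z in A, h z ^ (m * k) ∂muZ‖ ≤ K := by
      intro k hk
      obtain ⟨g1, g2, g3, g4⟩ := hV (m * k) (hmk k hk)
      have e : ∀ z, h z ^ (m * k) = Kc (V (m * k)) (L * (z - (1/2 + t * Complex.I))) := by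
        intro z; rw [hh, g4]
      have hint : Integrable (fun z => h z ^ (m * k)) muZ := by
        simp_rw [e]
        exact kernel_integrable g1.tf (by positivity) hL1 t
      have hsum := integral_add_compl hAm hint
      have hZ : ∫ z, h z ^ (m * k) ∂muZ = Zs (V (m * k)) L t := by
        unfold Zs; simp_rw [e]
      have b1 := hfar (m * k) (hmk k hk)
      have b2 := h2 k hk t htI
      have b3 := c3' k hk
      have b4 : ‖Zs (V (m * k)) L t‖ ≤ K - 1 / 2 := by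
        calc ‖Zs (V (m * k)) L t‖ = ‖(Zs (V (m * k)) L t + PS (V (m * k)) T t) -
              PS (V (m * k)) T t‖ := by congr 1; ring
          _ ≤ _ := norm_sub_le _ _
          _ ≤ _ := by linarith
      have b5 : ∫ z in A, h z ^ (m * k) ∂muZ = Zs (V (m * k)) L t -
          ∫ z in Aᶜ, h z ^ (m * k) ∂muZ := by
        rw [← hZ, ← hsum]; ring
      rw [b5]
      exact (norm_sub_le _ _).trans (by linarith)
    have hnear := near_power hAm (N := N) (d1.trans (by exact_mod_cast hN0)) hcont.measurable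
      (m := m) (K := K) (by linarith) hk z0 hz0 (by
        show |L * (z0.im - t)| ≤ X
        linarith)
    have hbig : 1 + c ≤ ‖h z0‖ := by
      apply hKc
      · have : ((L : ℂ) * (z0 - (1 / 2 + t * Complex.I))).im = L * (z0.im - t) := by
          simp
        rw [this]; exact hz1
      · have : ((L : ℂ) * (z0 - (1 / 2 + t * Complex.I))).re = L * (z0.re - 1 / 2) := by
          simp
        rw [this]; exact hz2
    have hpow : (1 + c) ^ m ≤ ‖h z0‖ ^ m := pow_le_pow_left₀ (by linarith) hbig m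
    linarith
  refine (measure_mono hsub).trans ?_
  refine (measure_union_le _ _).trans ?_
  have v1 : volume (Ioc 0 (√T) ∪ {t : ℝ | t ∈ Ioc 0 T ∧
        ¬ (muZ {z : ℂ | |L * (z.im - t)| ≤ X} ≤ N0 ∧
        ∫⁻ z in {z : ℂ | X < |L * (z.im - t)|},
          ENNReal.ofReal ‖Kc (V 1) (L * (z - (1/2 + t * Complex.I)))‖ ∂muZ ≤
            ENNReal.ofReal (1/2))}) ≤ ENNReal.ofReal (η * T / 6) + ENNReal.ofReal (η / 3 * T) := by
    refine (measure_union_le _ _).trans (add_le_add ?_ h4)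
    rw [Real.volume_Ioc, sub_zero]
    exact ENNReal.ofReal_le_ofReal h3
  have v2 : volume (⋃ k ∈ Finset.Icc 1 N, {t : ℝ | t ∈ Ioc 0 T ∧ K - 1 ≤ ‖PS (V (m * k)) T t‖}) ≤
      ENNReal.ofReal (η * T / 6) := by
    refine (measure_biUnion_finset_le _ _).trans ?_
    have : ∀ k ∈ Finset.Icc 1 N, volume {t : ℝ | t ∈ Ioc 0 T ∧ K - 1 ≤ ‖PS (V (m * k)) T t‖} ≤
        ENNReal.ofReal ((B + 1) * T / (K - 1) ^ 2) := by
      intro k hk
      exact markov (hV (m * k) (hmk k hk)).1 hT1 hD (h1 k hk)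
    refine (Finset.sum_le_sum this).trans ?_
    rw [Finset.sum_const, Nat.card_Icc, add_tsub_cancel_right, nsmul_eq_mul,
      ← ENNReal.ofReal_natCast, ← ENNReal.ofReal_mul (Nat.cast_nonneg _)]
    apply ENNReal.ofReal_le_ofReal
    have := mul_le_mul_of_nonneg_right hKD hT0.le
    calc (N : ℝ) * ((B + 1) * T / (K - 1) ^ 2) = N * ((B + 1) / (K - 1) ^ 2) * T := by ring
      _ ≤ η / 6 * T := this
      _ = _ := by ring
  refine (add_le_add v1 v2).trans ?_
  rw [← ENNReal.ofReal_add (by positivity) (by positivity),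
    ← ENNReal.ofReal_add (by positivity) (by positivity)]
  apply ENNReal.ofReal_le_ofReal
  have : 0 < η * T := by positivity
  nlinarith

end Pool.Agent.H12.TP
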